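import Mathlib
import Pool.Agent.TH954.NA
import Pool.Agent.TH954.Ht

set_option autoImplicit false

/-!
Points on `y^2 = x^3 + a x + b` at a nonarchimedean place.
-/

open WeierstrassCurve NumberField

namespace Pool.Agent.R338.Ab

open Pool.Agent.TH942 Pool.Agent.TH954

section loc

variable {K : Type} [Field K] [NumberField K]

lemma si_of (v : FinitePlace K) {a b : K} (ha : v a ≤ 1) (hb : v b ≤ 1) :
    letI := v.1.toNormedField
    SI (sw a b) := by
  letI := v.1.toNormedField
  exact { h1 := rfl, h2 := rfl, h3 := rfl, ha := ha, hb := hb }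

lemma ult (v : FinitePlace K) :
    letI := v.1.toNormedField
    IsUltrametricDist K := by
  letI := v.1.toNormedField
  refine IsUltrametricDist.isUltrametricDist_of_isNonarchimedean_norm ?_
  intro x y
  exact FinitePlace.add_le v x y

variable [DecidableEq K]

lemma na_mul (v : FinitePlace K) {a b : K} (ha : v a ≤ 1) (hb : v b ≤ 1) {x y X Y : K}
    {h : (sw a b).toAffine.Nonsingular x y} {h' : (sw a b).toAffine.Nonsingular X Y}
    (hx : 1 < v x) (m : ℤ) (e : m • (Affine.Point.some x y h : SPt a b) = Affine.Point.some X Y h') :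
    v x ≤ v X := by
  letI := v.1.toNormedField
  haveI := ult v
  have hsi := si_of v ha hb
  have h1 : Big (W := sw a b) (v x) (Affine.Point.some x y h) := big_some.mpr le_rfl
  have h2 := hsi.big_zsmul (by norm_num) hx h1 m
  exact h2 X Y h' e

lemma na_y (v : FinitePlace K) {a b : K} (ha : v a ≤ 1) (hb : v b ≤ 1) {x y : K}
    (h : (sw a b).toAffine.Nonsingular x y) (hx : 1 < v x) : v y ^ 2 = v x ^ 3 := by
  letI := v.1.toNormedField
  haveI := ult v
  have hsi := si_of v ha hb
  exact hsi.norm_y_eq h hx

end loc

end Pool.Agent.R338.Ab
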