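import Mathlib
import Pool.Agent.R338.Ab1

set_option autoImplicit false

/-!
The truncated counting function of the points `(m_1 P, ..., m_n P)` on `E^n`.
-/

open WeierstrassCurve NumberField Height

namespace Pool.Agent.R338.Ab

open Pool.Agent.TH942 Pool.Agent.TH954

variable {K : Type} [Field K] [NumberField K]

/-- the norm of a finite place -/
noncomputable def nm (v : FinitePlace K) : ℝ := (Ideal.absNorm v.maximalIdeal.asIdeal : ℝ)

lemma one_lt_nm (v : FinitePlace K) : 1 < nm v := by
  unfold nm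
  exact_mod_cast NumberField.HeightOneSpectrum.one_lt_absNorm v.maximalIdeal

lemma fp_pow (v : FinitePlace K) {x : K} (hx : x ≠ 0) : ∃ k : ℤ, v x = nm v ^ k := by
  rw [← FinitePlace.norm_embedding_eq, FinitePlace.norm_embedding']
  have h : v.maximalIdeal.valuation K x ≠ 0 := (Valuation.ne_zero_iff _).mpr hx
  rw [WithZeroMulInt.toNNReal_neg_apply _ h]
  refine ⟨Multiplicative.toAdd (WithZero.unzero h), ?_⟩
  rw [NNReal.coe_zpow, NNReal.coe_natCast]
  rfl

/-- the `x`-coordinate (`0` at the origin) -/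
def xc {a b : K} : SPt a b → K
  | .zero => 0
  | .some x _ _ => x

variable {n : ℕ}

/-- the truncated counting function of `D` outside `S` -/
noncomputable def N1 {a b : K} (S : Set (FinitePlace K)) (p : Fin n → SPt a b) : ℝ :=
  ∑ᶠ v ∈ {v : FinitePlace K | v ∉ S ∧ ∃ i, 1 < v (xc (p i))},
    Real.log (Ideal.absNorm v.maximalIdeal.asIdeal)

/-- the height attached to `D` -/
noncomputable def hD {a b : K} (p : Fin n → SPt a b) : ℝ := (∑ i, logHeight₁ (xc (p i))) / 2

lemma fin_one_lt (t : K) : {v : FinitePlace K | 1 < v t}.Finite := by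
  rcases eq_or_ne t 0 with rfl | h
  · refine Set.Finite.subset Set.finite_empty ?_
    intro v hv
    have : 1 < v 0 := hv
    rw [map_zero] at this
    norm_num at this
  · refine Set.Finite.subset (FinitePlace.hasFiniteMulSupport h) ?_
    intro v hv
    exact (ne_of_gt hv)

lemma fin_N1 {a b : K} (S : Set (FinitePlace K)) (p : Fin n → SPt a b) :
    {v : FinitePlace K | v ∉ S ∧ ∃ i, 1 < v (xc (p i))}.Finite := by
  refine Set.Finite.subset (Set.finite_iUnion (fun i => fin_one_lt (xc (p i)))) ?_
  rintro v ⟨-, i, hi⟩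
  exact Set.mem_iUnion.mpr ⟨i, hi⟩

variable [DecidableEq K]

/-- the x-coordinate is large if it is not integral -/
lemma nm_le (v : FinitePlace K) {a b : K} (ha : v a ≤ 1) (hb : v b ≤ 1) {x y : K}
    (h : (sw a b).toAffine.Nonsingular x y) (hx : 1 < v x) :
    Real.log (nm v) ≤ Real.log (v x) / 2 := by
  have h1 := na_y v ha hb h hx
  have hx0 : x ≠ 0 := by
    intro h0
    rw [h0, map_zero] at hx
    linarith
  have hy0 : y ≠ 0 := by
    intro h0
    rw [h0, map_zero] at h1
    have : 0 < v x ^ 3 := by positivity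
    rw [← h1] at this
    norm_num at this
  obtain ⟨k, hk⟩ := fp_pow v hx0
  obtain ⟨l, hl⟩ := fp_pow v hy0
  have hN := one_lt_nm v
  have hN0 : 0 < nm v := by linarith
  rw [hk, hl, ← zpow_natCast, ← zpow_natCast, ← zpow_mul, ← zpow_mul] at h1
  have h2 := zpow_right_injective₀ hN0 hN.ne' h1
  have hk1 : 0 < k := by
    rw [hk] at hx
    by_contra hc
    have : nm v ^ k ≤ 1 := zpow_le_one_of_nonpos₀ hN.le (by omega)
    linarith
  have hk2 : 2 ≤ k := by
    push_cast at h2
    omega
  have hk3 : (2 : ℝ) ≤ k := by exact_mod_cast hk2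
  rw [hk, Real.log_zpow]
  have := Real.log_pos hN
  nlinarith

/-- the local inequality -/
lemma local_ineq (hn : 1 ≤ n) (v : FinitePlace K) {a b : K} (ha : v a ≤ 1) (hb : v b ≤ 1) (P : SPt a b)
    (m : Fin n → ℤ) (hm : ∀ i, m i • P ≠ 0) :
    ((n : ℝ) - 1) / 2 * Real.posLog (v (xc P)) +
      (if ∃ i, 1 < v (xc (m i • P)) then Real.log (nm v) else 0) ≤
      ∑ i, Real.posLog (v (xc (m i • P))) / 2 := by
  classical
  have hn1 : (1 : ℝ) ≤ n := by exact_mod_cast hn
  have hnn : ∀ i, 0 ≤ Real.posLog (v (xc (m i • P))) / 2 :=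
    fun i => div_nonneg Real.posLog_nonneg (by norm_num)
  have hbig : ∀ (T : SPt a b), 1 < v (xc T) → Real.log (nm v) ≤ Real.posLog (v (xc T)) / 2 := by
    intro T hT
    match T with
    | .zero =>
      exfalso
      have : 1 < v (0 : K) := hT
      rw [map_zero] at this
      norm_num at this
    | .some x y h =>
      have h1 := nm_le v ha hb h hT
      refine h1.trans ?_
      have : Real.log (v x) ≤ Real.posLog (v x) := le_max_right _ _
      have h2 : xc (Affine.Point.some x y h : SPt a b) = x := rfl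
      rw [h2]
      linarith
  rcases le_or_gt (v (xc P)) 1 with hP | hP
  · have h0 : Real.posLog (v (xc P)) = 0 := by
      rw [Real.posLog_eq_zero_iff, abs_of_nonneg (apply_nonneg v _)]
      exact hP
    rw [h0, mul_zero, zero_add]
    split_ifs with hc
    · obtain ⟨i, hi⟩ := hc
      exact (hbig _ hi).trans (Finset.single_le_sum (f := fun i => Real.posLog (v (xc (m i • P))) / 2)
        (fun i _ => hnn i) (Finset.mem_univ i))
    · exact Finset.sum_nonneg (fun i _ => hnn i)
  · have hle : ∀ i, v (xc P) ≤ v (xc (m i • P)) := by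
      intro i
      match P, hP, hm i with
      | .zero, hP, _ =>
        exfalso
        have : 1 < v (0 : K) := hP
        rw [map_zero] at this
        norm_num at this
      | .some x y h, hP, hmi =>
        generalize hT : m i • (Affine.Point.some x y h : SPt a b) = T at hmi
        match T with
        | .zero => exact absurd rfl hmi
        | .some X Y h' => exact na_mul v ha hb hP (m i) hT
    have hpos : ∀ i, Real.posLog (v (xc P)) ≤ Real.posLog (v (xc (m i • P))) := by
      intro i
      exact Real.posLog_le_posLog (apply_nonneg v _) (hle i)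
    have hs : (n : ℝ) * (Real.posLog (v (xc P)) / 2) ≤ ∑ i, Real.posLog (v (xc (m i • P))) / 2 := by
      have : ∑ _i : Fin n, Real.posLog (v (xc P)) / 2 ≤ ∑ i, Real.posLog (v (xc (m i • P))) / 2 :=
        Finset.sum_le_sum (fun i _ => by linarith [hpos i])
      rwa [Finset.sum_const, Finset.card_univ, Fintype.card_fin, nsmul_eq_mul] at this
    have hb1 := hbig P hP
    have hif : (if ∃ i, 1 < v (xc (m i • P)) then Real.log (nm v) else 0) ≤
        Real.posLog (v (xc P)) / 2 := by
      split_ifs
      · exact hb1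
      · exact div_nonneg Real.posLog_nonneg (by norm_num)
    linarith

/-- the finite part of the height -/
noncomputable def hfin (t : K) : ℝ := ∑ᶠ v : FinitePlace K, Real.posLog (v t)

lemma supp_posLog (t : K) : Function.support (fun v : FinitePlace K => Real.posLog (v t)) ⊆
    {v : FinitePlace K | 1 < v t} := by
  intro v hv
  by_contra hc
  apply hv
  have hc' : v t ≤ 1 := not_lt.mp hc
  show Real.posLog (v t) = 0
  rw [Real.posLog_eq_zero_iff, abs_of_nonneg (apply_nonneg v _)]
  exact hc'

lemma hfin_nonneg (t : K) : 0 ≤ hfin t := finsum_nonneg (fun _ => Real.posLog_nonneg)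

lemma logHeight_eq (t : K) :
    logHeight₁ t = (∑ v : InfinitePlace K, v.mult * Real.posLog (v t)) + hfin t :=
  NumberField.logHeight₁_eq t

lemma hfin_le (t : K) : hfin t ≤ logHeight₁ t := by
  rw [logHeight_eq]
  have : 0 ≤ ∑ v : InfinitePlace K, (v.mult : ℝ) * Real.posLog (v t) :=
    Finset.sum_nonneg (fun v _ => mul_nonneg (Nat.cast_nonneg _) Real.posLog_nonneg)
  linarith

lemma le_hfin {r : ℝ} (t : K) (ht : ∀ v : InfinitePlace K, v t ≤ r) :
    logHeight₁ t - (∑ v : InfinitePlace K, (v.mult : ℝ)) * Real.posLog r ≤ hfin t := by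
  rw [logHeight_eq, Finset.sum_mul]
  have : (∑ v : InfinitePlace K, v.mult * Real.posLog (v t)) ≤
      ∑ v : InfinitePlace K, (v.mult : ℝ) * Real.posLog r := by
    refine Finset.sum_le_sum (fun v _ => mul_le_mul_of_nonneg_left ?_ (Nat.cast_nonneg _))
    exact Real.posLog_le_posLog (apply_nonneg v _) (ht v)
  linarith

/-- the main inequality -/
theorem N1_le (hn : 1 ≤ n) {a b : K} (ha : IsIntegral ℤ a) (hb : IsIntegral ℤ b)
    (S : Set (FinitePlace K)) (P : SPt a b) (m : Fin n → ℤ) (hm : ∀ i, m i • P ≠ 0) :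
    N1 S (fun i => m i • P) + ((n : ℝ) - 1) / 2 * hfin (xc P) ≤ hD (fun i => m i • P) := by
  classical
  have hint : ∀ (v : FinitePlace K) (t : K), IsIntegral ℤ t → v t ≤ 1 := by
    intro v t ht
    have := FinitePlace.norm_le_one (K := K) v.maximalIdeal (⟨t, ht⟩ : 𝓞 K)
    rw [FinitePlace.norm_embedding_eq] at this
    exact this
  set T : Finset (FinitePlace K) := (fin_one_lt (xc P)).toFinset ∪
    Finset.univ.biUnion (fun i => (fin_one_lt (xc (m i • P))).toFinset) with hT
  have hTP : ∀ v : FinitePlace K, 1 < v (xc P) → v ∈ T := by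
    intro v hv
    rw [hT, Finset.mem_union]
    left
    exact (Set.Finite.mem_toFinset _).mpr hv
  have hTi : ∀ (v : FinitePlace K) (i : Fin n), 1 < v (xc (m i • P)) → v ∈ T := by
    intro v i hv
    rw [hT, Finset.mem_union]
    right
    rw [Finset.mem_biUnion]
    exact ⟨i, Finset.mem_univ _, (Set.Finite.mem_toFinset _).mpr hv⟩
  have e1 : hfin (xc P) = ∑ v ∈ T, Real.posLog (v (xc P)) :=
    finsum_eq_sum_of_support_subset _ (fun v hv => by
      have := supp_posLog _ hv
      exact Finset.mem_coe.mpr (hTP v this))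
  have e2 : ∀ i, hfin (xc (m i • P)) = ∑ v ∈ T, Real.posLog (v (xc (m i • P))) := fun i =>
    finsum_eq_sum_of_support_subset _ (fun v hv => by
      have := supp_posLog _ hv
      exact Finset.mem_coe.mpr (hTi v i this))
  have e3 : N1 S (fun i => m i • P) ≤
      ∑ v ∈ T, (if ∃ i, 1 < v (xc (m i • P)) then Real.log (nm v) else 0) := by
    unfold N1
    rw [finsum_mem_eq_finite_toFinset_sum _ (fin_N1 S (fun i => m i • P)), ← Finset.sum_filter]
    refine Finset.sum_le_sum_of_subset_of_nonneg ?_ ?_
    · intro v hv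
      rw [Set.Finite.mem_toFinset] at hv
      obtain ⟨-, i, hi⟩ := hv
      rw [Finset.mem_filter]
      exact ⟨hTi v i hi, i, hi⟩
    · intro v _ _
      exact (Real.log_pos (one_lt_nm v)).le
  have e4 : ∑ v ∈ T, (((n : ℝ) - 1) / 2 * Real.posLog (v (xc P)) +
      (if ∃ i, 1 < v (xc (m i • P)) then Real.log (nm v) else 0)) ≤
      ∑ v ∈ T, ∑ i, Real.posLog (v (xc (m i • P))) / 2 :=
    Finset.sum_le_sum (fun v _ => local_ineq hn v (hint v a ha) (hint v b hb) P m hm)
  rw [Finset.sum_add_distrib, ← Finset.mul_sum, ← e1, Finset.sum_comm] at e4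
  have e5 : ∑ i, ∑ v ∈ T, Real.posLog (v (xc (m i • P))) / 2 ≤ hD (fun i => m i • P) := by
    unfold hD
    rw [Finset.sum_div]
    refine Finset.sum_le_sum (fun i _ => ?_)
    rw [← Finset.sum_div, ← e2 i]
    have := hfin_le (xc (m i • P))
    linarith
  linarith

end Pool.Agent.R338.Ab
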