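import Mathlib
import Pool.Agent.R338.Ab2

set_option autoImplicit false

/-!
Multiples of a point of infinite order with bounded archimedean absolute values, and the theorem.
-/

open WeierstrassCurve NumberField Height

namespace Pool.Agent.R338.Ab

open Pool.Agent.TH942 Pool.Agent.TH954

variable {K : Type} [Field K] [NumberField K] [DecidableEq K]

lemma short_sw (a b : K) : Short (sw a b) := ⟨rfl, rfl, rfl⟩

lemma xc_some {a b x y : K} {h : (sw a b).toAffine.Nonsingular x y} :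
    xc (Affine.Point.some x y h : SPt a b) = x := rfl

lemma bigV_iff {a b : K} (v : AbsoluteValue K ℝ) (r : ℝ) (P : SPt a b) (hP : P ≠ 0) :
    BigV v r P ↔ r ≤ v (xc P) := by
  match P, hP with
  | .zero, hP => exact absurd rfl hP
  | .some x y h, _ => exact bigV_some

lemma nsmul_ne_zero_of {a b : K} {Q : SPt a b} (hQ : ¬ IsOfFinAddOrder Q) {k : ℕ} (hk : 0 < k) :
    k • Q ≠ 0 := by
  intro h
  exact hQ (isOfFinAddOrder_iff_nsmul_eq_zero.mpr ⟨k, hk, h⟩)

lemma zsmul_ne_zero_of {a b : K} {Q : SPt a b} (hQ : ¬ IsOfFinAddOrder Q) {k : ℤ} (hk : k ≠ 0) :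
    k • Q ≠ 0 := by
  intro h
  exact hQ (isOfFinAddOrder_iff_zsmul_eq_zero.mpr ⟨k, hk, h⟩)

/-- among `N + 1` consecutive multiples one is bounded at all infinite places -/
lemma good_point {a b : K} {Q : SPt a b} (hQ : ¬ IsOfFinAddOrder Q) :
    ∃ r : ℝ, ∀ k : ℕ, ∃ j : ℕ, j ≤ Fintype.card (InfinitePlace K) ∧
      ∀ v : InfinitePlace K, v (xc ((k + 1 + j) • Q)) ≤ r := by
  classical
  set N := Fintype.card (InfinitePlace K) with hN
  -- a bound for the first N multiples and for the coefficients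
  set B : ℝ := ∑ v : InfinitePlace K, (∑ i ∈ Finset.range (N + 1), v (xc (i • Q)) + v a + v b)
    with hB
  have hBi : ∀ (v : InfinitePlace K) (i : ℕ), i ≤ N → v (xc (i • Q)) + v a + v b ≤ B := by
    intro v i hi
    have h1 : v (xc (i • Q)) ≤ ∑ i ∈ Finset.range (N + 1), v (xc (i • Q)) :=
      Finset.single_le_sum (f := fun i => v (xc (i • Q))) (fun i _ => apply_nonneg _ _)
        (Finset.mem_range.mpr (by omega))
    have h2 : ∑ i ∈ Finset.range (N + 1), v (xc (i • Q)) + v a + v b ≤ B :=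
      Finset.single_le_sum (f := fun v : InfinitePlace K =>
        ∑ i ∈ Finset.range (N + 1), v (xc (i • Q)) + v a + v b)
        (fun v _ => add_nonneg (add_nonneg (Finset.sum_nonneg (fun i _ => apply_nonneg _ _))
          (apply_nonneg _ _)) (apply_nonneg _ _)) (Finset.mem_univ v)
    linarith
  have hB0 : 0 ≤ B := Finset.sum_nonneg (fun v _ => add_nonneg (add_nonneg
    (Finset.sum_nonneg (fun i _ => apply_nonneg _ _)) (apply_nonneg _ _)) (apply_nonneg _ _))
  refine ⟨100 * (1 + B) , ?_⟩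
  intro k
  by_contra hc
  push Not at hc
  have hc' : ∀ j : Fin (N + 1), ∃ v : InfinitePlace K, 100 * (1 + B) < v (xc ((k + 1 + j) • Q)) :=
    fun j => hc j (by have := j.2; omega)
  choose f hf using hc'
  obtain ⟨i, j, hij, hfij⟩ := Fintype.exists_ne_map_eq_of_card_lt f (by
    rw [Fintype.card_fin]; omega)
  have key : ∀ i j : Fin (N + 1), i < j → f i = f j → False := by
    intro i j hlt he
    set v := f i with hv
    have h1 : BigV v.1 (100 * (1 + B)) ((k + 1 + i) • Q) :=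
      (bigV_iff _ _ _ (nsmul_ne_zero_of hQ (by omega))).mpr (hf i).le
    have h2 : BigV v.1 (100 * (1 + B)) ((k + 1 + j) • Q) := by
      have := hf j
      rw [← he] at this
      exact (bigV_iff _ _ _ (nsmul_ne_zero_of hQ (by omega))).mpr this.le
    have h3 : 100 * (1 + v.1 a + v.1 b) ≤ 100 * (1 + B) := by
      have := hBi v 0 (by omega)
      have h0 : 0 ≤ v (xc (0 • Q)) := apply_nonneg _ _
      have h4 : v a + v b ≤ B := by linarith
      have h5 : v.1 a + v.1 b ≤ B := h4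
      linarith
    have h4 := (short_sw a b).bigV_add (by norm_num) v.1 (r := 100 * (1 + B)) h3 h2
      ((short_sw a b).bigV_neg h1)
    have h5 : (k + 1 + (j : ℕ)) • Q + -((k + 1 + (i : ℕ)) • Q) = ((j : ℕ) - (i : ℕ)) • Q := by
      have h6 : (k + 1 + (j : ℕ)) = (k + 1 + (i : ℕ)) + ((j : ℕ) - (i : ℕ)) := by
        have : (i : ℕ) < j := hlt
        omega
      rw [h6, add_smul]
      abel
    rw [h5] at h4
    have hlt' : (i : ℕ) < j := hlt
    have hji : 0 < (j : ℕ) - (i : ℕ) := by omega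
    have h6 := (bigV_iff _ _ _ (nsmul_ne_zero_of hQ hji)).mp h4
    have h7 := hBi v ((j : ℕ) - (i : ℕ)) (by have := j.2; omega)
    have h8 : 100 * (1 + B) / 6 ≤ v (xc (((j : ℕ) - (i : ℕ)) • Q)) := h6
    have h9 : 0 ≤ v a := apply_nonneg _ _
    have h10 : 0 ≤ v b := apply_nonneg _ _
    linarith
  rcases lt_or_gt_of_ne hij with h | h
  · exact key i j h hfij
  · exact key j i h hfij.symm

lemma sht_eq {a b : K} (P : SPt a b) : sht P = logHeight₁ (xc P) := by
  match P with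
  | .zero =>
    have h1 : sht (Affine.Point.zero : SPt a b) = 0 := sht_zero
    have h2 : xc (Affine.Point.zero : SPt a b) = 0 := rfl
    rw [h1, h2, logHeight₁_zero]
  | .some x y h =>
    rw [sht, Affine.Point.xRep_some, xc_some, logHeight₁_eq_logHeight]

/-- the main estimate -/
theorem main {n : ℕ} (hn : 1 ≤ n) {a b : K} (ha : IsIntegral ℤ a) (hb : IsIntegral ℤ b)
    (hab : 4 * a ^ 3 + 27 * b ^ 2 ≠ 0) {Q : SPt a b} (hQ : ¬ IsOfFinAddOrder Q)
    (ε c s : ℝ) (hε : 0 ≤ ε) (hs : ε * s < (n : ℝ) - 1) :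
    ∃ (k0 N : ℕ), ∀ k : ℕ, k0 ≤ k → ∃ j : ℕ, j ≤ N ∧ ∀ (S : Set (FinitePlace K)) (m : Fin n → ℤ),
      (∀ i, m i ≠ 0) → (∑ i, (m i : ℝ) ^ 2 ≤ s) →
      N1 S (fun i => m i • ((k + 1 + j) • Q)) + ε * hD (fun i => m i • ((k + 1 + j) • Q)) + c <
        hD (fun i => m i • ((k + 1 + j) • Q)) := by
  obtain ⟨q, C, hC0, hC, hq0, hq⟩ := canonical hab
  obtain ⟨r, hr⟩ := good_point hQ
  have hqQ := q_pos hC hq0 hq hQ
  set A : ℝ := (∑ v : InfinitePlace K, (v.mult : ℝ)) * Real.posLog r with hA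
  -- slope and constant
  set δ : ℝ := ((n : ℝ) - 1 - ε * s) / 2 with hδ
  have hδ0 : 0 < δ := by rw [hδ]; linarith
  set B : ℝ := ((n : ℝ) - 1) / 2 * (C + A) + ε * (n * C) / 2 + c with hBdef
  -- choose k0 with δ * k0^2 * q Q > B
  obtain ⟨k0, hk0⟩ := exists_nat_gt (B / (δ * q Q))
  have hδq : 0 < δ * q Q := mul_pos hδ0 hqQ
  refine ⟨k0, Fintype.card (InfinitePlace K), ?_⟩
  intro k hk
  obtain ⟨j, hj, hjr⟩ := hr k
  refine ⟨j, hj, ?_⟩
  intro S m hm hms
  set P : SPt a b := (k + 1 + j) • Q with hP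
  have hPinf : ¬ IsOfFinAddOrder P := by
    intro hfin
    obtain ⟨t, ht, ht0⟩ := isOfFinAddOrder_iff_nsmul_eq_zero.mp hfin
    rw [hP, ← mul_smul] at ht0
    exact nsmul_ne_zero_of hQ (Nat.mul_pos ht (by omega)) ht0
  have hmP : ∀ i, m i • P ≠ 0 := fun i => zsmul_ne_zero_of hPinf (hm i)
  have h1 := N1_le hn ha hb S P m hmP
  have h2 := le_hfin (xc P) hjr
  rw [← hA, ← sht_eq] at h2
  have h3 := abs_le.mp (hC P)
  -- heights of multiples
  have h4 : hD (fun i => m i • P) ≤ (s * q P + n * C) / 2 := by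
    unfold hD
    have h5 : ∀ i, logHeight₁ (xc (m i • P)) ≤ (m i : ℝ) ^ 2 * q P + C := by
      intro i
      rw [← sht_eq, ← q_zsmul hq]
      have := abs_le.mp (hC (m i • P))
      linarith
    have h6 : ∑ i, logHeight₁ (xc (m i • P)) ≤ ∑ i, ((m i : ℝ) ^ 2 * q P + C) :=
      Finset.sum_le_sum (fun i _ => h5 i)
    rw [Finset.sum_add_distrib, ← Finset.sum_mul, Finset.sum_const, Finset.card_univ,
      Fintype.card_fin, nsmul_eq_mul] at h6
    have h7 : (∑ i, (m i : ℝ) ^ 2) * q P ≤ s * q P := mul_le_mul_of_nonneg_right hms (hq0 P)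
    linarith
  have hqP : q P = ((k + 1 + j : ℕ) : ℝ) ^ 2 * q Q := by rw [hP, q_nsmul hq]
  have hk1 : (k0 : ℝ) ≤ ((k + 1 + j : ℕ) : ℝ) ^ 2 := by
    have h8 : k0 ≤ (k + 1 + j) ^ 2 := by nlinarith
    exact_mod_cast h8
  have h9 : B < δ * q P := by
    rw [div_lt_iff₀ hδq] at hk0
    rw [hqP]
    calc B < k0 * (δ * q Q) := hk0
      _ ≤ ((k + 1 + j : ℕ) : ℝ) ^ 2 * (δ * q Q) := mul_le_mul_of_nonneg_right hk1 hδq.le
      _ = _ := by ring
  have hn1 : (0 : ℝ) ≤ (n : ℝ) - 1 := by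
    have : (1 : ℝ) ≤ n := by exact_mod_cast hn
    linarith
  have h10 : ((n : ℝ) - 1) / 2 * (q P - C - A) ≤ ((n : ℝ) - 1) / 2 * hfin (xc P) :=
    mul_le_mul_of_nonneg_left (by linarith) (by linarith)
  have h11 : ε * hD (fun i => m i • P) ≤ ε * ((s * q P + n * C) / 2) :=
    mul_le_mul_of_nonneg_left h4 hε
  have h12 : δ * q P = ((n : ℝ) - 1) / 2 * q P - ε * s * q P / 2 := by rw [hδ]; ring
  nlinarith

end Pool.Agent.R338.Ab
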