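import Mathlib
import Pool.Agent.R338.Ab3

set_option autoImplicit false

/-!
The exceptional sets on powers of an elliptic curve.
-/

open WeierstrassCurve NumberField Height

namespace Pool.Agent.R338.Ab

open Pool.Agent.TH942 Pool.Agent.TH954

variable {K : Type} [Field K] [NumberField K]

lemma inf_of {α : Type} (T : ℝ → Set α) (h : α → ℝ) (hmono : ∀ c c', c ≤ c' → T c' ⊆ T c)
    (hne : ∀ c, (T c).Nonempty) (hb : ∀ c, ∀ p ∈ T c, c < h p) (c : ℝ) : (T c).Infinite := by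
  intro hfin
  obtain ⟨M, hM⟩ := (hfin.image h).bddAbove
  obtain ⟨p, hp⟩ := hne (max c M)
  have h1 : p ∈ T c := hmono c _ (le_max_left _ _) hp
  have h2 := hb _ p hp
  have h3 : h p ≤ M := hM ⟨p, h1, rfl⟩
  have := le_max_right c M
  linarith

lemma N1_nonneg {n : ℕ} {a b : K} (S : Set (FinitePlace K)) (p : Fin n → SPt a b) :
    0 ≤ N1 S p := by
  unfold N1
  refine finsum_nonneg (fun v => finsum_nonneg (fun _ => ?_))
  exact (Real.log_pos (one_lt_nm v)).le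

lemma hD_nonneg {n : ℕ} {a b : K} (p : Fin n → SPt a b) : 0 ≤ hD p := by
  unfold hD
  exact div_nonneg (Finset.sum_nonneg (fun i _ => zero_le_logHeight₁ _)) (by norm_num)

variable [DecidableEq K]

lemma xc_inj {a b : K} {P : SPt a b} (hP : ¬ IsOfFinAddOrder P) {m m' : ℕ} (hm : 0 < m)
    (hm' : 0 < m') (h : xc (m • P) = xc (m' • P)) : m = m' := by
  have h1 : (m • P).xRep = (m' • P).xRep := by
    have e1 := nsmul_ne_zero_of hP hm
    have e2 := nsmul_ne_zero_of hP hm'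
    generalize m • P = T at h e1
    generalize m' • P = T' at h e2
    match T, T', h, e1, e2 with
    | .zero, _, _, e1, _ => exact absurd rfl e1
    | .some _ _ _, .zero, _, _, e2 => exact absurd rfl e2
    | .some x y h1, .some x' y' h2, h, _, _ =>
      rw [Affine.Point.xRep_some, Affine.Point.xRep_some]
      have : x = x' := h
      rw [this]
  rcases Affine.Point.eq_or_eq_neg_of_xRep_eq_xRep h1 with h2 | h2
  · exact injective_nsmul_iff_not_isOfFinAddOrder.mpr hP h2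
  · exfalso
    have h3 : (m + m') • P = 0 := by
      rw [add_smul, h2]
      exact neg_add_cancel _
    exact nsmul_ne_zero_of hP (by omega) h3

theorem part1 {n : ℕ} (hn : 1 ≤ n) {a b : K} (ha : IsIntegral ℤ a) (hb : IsIntegral ℤ b)
    (hab : 4 * a ^ 3 + 27 * b ^ 2 ≠ 0) {Q : SPt a b} (hQ : ¬ IsOfFinAddOrder Q)
    (S : Set (FinitePlace K)) (m : Fin n → ℤ) (ε : ℝ) (hm : ∀ i, m i ≠ 0) (hε : 0 ≤ ε)
    (hs : ε * ∑ i, (m i : ℝ) ^ 2 < (n : ℝ) - 1) (c : ℝ) :
    {P : SPt a b | (∀ i, m i • P ≠ 0) ∧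
      N1 S (fun i => m i • P) + ε * hD (fun i => m i • P) + c < hD (fun i => m i • P)}.Infinite := by
  refine inf_of (fun c => {P : SPt a b | (∀ i, m i • P ≠ 0) ∧
      N1 S (fun i => m i • P) + ε * hD (fun i => m i • P) + c < hD (fun i => m i • P)})
    (fun P => hD (fun i => m i • P)) ?_ ?_ ?_ c
  · rintro c c' hc P ⟨h1, h2⟩
    exact ⟨h1, by linarith⟩
  · intro c
    obtain ⟨k0, N, h⟩ := main hn ha hb hab hQ ε c (∑ i, (m i : ℝ) ^ 2) hε hs
    obtain ⟨j, -, hj⟩ := h k0 le_rfl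
    refine ⟨(k0 + 1 + j) • Q, ?_, hj S m hm le_rfl⟩
    intro i
    rw [← natCast_zsmul, ← mul_smul]
    exact zsmul_ne_zero_of hQ (mul_ne_zero (hm i) (by positivity))
  · rintro c P ⟨-, h2⟩
    have h3 := N1_nonneg S (fun i => m i • P)
    have h4 : 0 ≤ ε * hD (fun i => m i • P) := mul_nonneg hε (hD_nonneg _)
    linarith

theorem part2 {n : ℕ} (hn : 1 ≤ n) {a b : K} (ha : IsIntegral ℤ a) (hb : IsIntegral ℤ b)
    (hab : 4 * a ^ 3 + 27 * b ^ 2 ≠ 0) {Q : SPt a b} (hQ : ¬ IsOfFinAddOrder Q)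
    (S : Set (FinitePlace K)) (d : ℕ) (G : MvPolynomial (Fin n) K) (ε : ℝ) (hG : G ≠ 0)
    (hd : ∀ i, G.degreeOf i ≤ d) (hε : 0 ≤ ε) (hs : ε * (n * ((d : ℝ) + 1) ^ 2) < (n : ℝ) - 1)
    (c : ℝ) :
    {p : Fin n → SPt a b | (∀ i, p i ≠ 0) ∧ MvPolynomial.eval (fun i => xc (p i)) G ≠ 0 ∧
      N1 S p + ε * hD p + c < hD p}.Infinite := by
  refine inf_of (fun c => {p : Fin n → SPt a b | (∀ i, p i ≠ 0) ∧
      MvPolynomial.eval (fun i => xc (p i)) G ≠ 0 ∧ N1 S p + ε * hD p + c < hD p}) hD ?_ ?_ ?_ c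
  · rintro c c' hc p ⟨h0, h1, h2⟩
    exact ⟨h0, h1, by linarith⟩
  · intro c
    obtain ⟨k0, N, h⟩ := main hn ha hb hab hQ ε c (n * ((d : ℝ) + 1) ^ 2) hε hs
    obtain ⟨j, -, hj⟩ := h k0 le_rfl
    set P : SPt a b := (k0 + 1 + j) • Q with hP
    have hPinf : ¬ IsOfFinAddOrder P := by
      intro hfin
      obtain ⟨t, ht, ht0⟩ := isOfFinAddOrder_iff_nsmul_eq_zero.mp hfin
      rw [hP, ← mul_smul] at ht0
      exact nsmul_ne_zero_of hQ (Nat.mul_pos ht (by omega)) ht0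
    set F : Finset K := (Finset.range (d + 1)).image (fun t => xc ((t + 1) • P)) with hF
    have hFc : F.card = d + 1 := by
      rw [hF, Finset.card_image_of_injOn, Finset.card_range]
      intro t _ t' _ htt
      have := xc_inj hPinf (by omega : 0 < t + 1) (by omega : 0 < t' + 1) htt
      omega
    have hex : ∃ x : Fin n → K, (∀ i, x i ∈ F) ∧ MvPolynomial.eval x G ≠ 0 := by
      by_contra hc
      push Not at hc
      exact hG (MvPolynomial.eq_zero_of_eval_zero_at_prod_finset G (fun _ => F)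
        (fun i => by rw [hFc]; exact Nat.lt_succ_of_le (hd i)) hc)
    obtain ⟨x, hx, hGx⟩ := hex
    have hx' : ∀ i, ∃ t : ℕ, t < d + 1 ∧ xc ((t + 1) • P) = x i := by
      intro i
      have := hx i
      rw [hF, Finset.mem_image] at this
      obtain ⟨t, ht, ht'⟩ := this
      exact ⟨t, Finset.mem_range.mp ht, ht'⟩
    choose t ht ht' using hx'
    have hz : ∀ i, ((t i + 1 : ℕ) : ℤ) • P = (t i + 1) • P := fun i => natCast_zsmul _ _
    refine ⟨fun i => ((t i + 1 : ℕ) : ℤ) • P, ?_, ?_, ?_⟩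
    · intro i
      simp only [hz]
      exact nsmul_ne_zero_of hPinf (by omega)
    · have : (fun i => xc ((((t i + 1 : ℕ) : ℤ) • P))) = x := by
        funext i
        rw [hz, ht']
      rw [this]
      exact hGx
    · refine hj S (fun i => ((t i + 1 : ℕ) : ℤ)) (fun i => by positivity) ?_
      have h1 : ∀ i, (((t i + 1 : ℕ) : ℤ) : ℝ) ^ 2 ≤ ((d : ℝ) + 1) ^ 2 := by
        intro i
        have h2 : ((t i + 1 : ℕ) : ℝ) ≤ (d : ℝ) + 1 := by
          have := ht i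
          exact_mod_cast this
        push_cast at h2 ⊢
        exact pow_le_pow_left₀ (by positivity) h2 2
      calc ∑ i, (((t i + 1 : ℕ) : ℤ) : ℝ) ^ 2 ≤ ∑ _i : Fin n, ((d : ℝ) + 1) ^ 2 :=
            Finset.sum_le_sum (fun i _ => h1 i)
        _ = _ := by rw [Finset.sum_const, Finset.card_univ, Fintype.card_fin, nsmul_eq_mul]
  · rintro c p ⟨-, -, h2⟩
    have h3 := N1_nonneg S p
    have h4 : 0 ≤ ε * hD p := mul_nonneg hε (hD_nonneg _)
    linarith

lemma fin_hD {n : ℕ} {a b : K} (B : ℝ) : {p : Fin n → SPt a b | hD p ≤ B}.Finite := by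
  have h1 : (Set.univ.pi (fun _ : Fin n => {P : SPt a b | sht P ≤ 2 * B})).Finite :=
    Set.Finite.pi (fun _ => sfinite_ht (2 * B))
  refine h1.subset ?_
  intro p hp i _
  have hp' : hD p ≤ B := hp
  unfold hD at hp'
  show sht (p i) ≤ 2 * B
  rw [sht_eq]
  have : logHeight₁ (xc (p i)) ≤ ∑ i, logHeight₁ (xc (p i)) :=
    Finset.single_le_sum (f := fun i => logHeight₁ (xc (p i))) (fun i _ => zero_le_logHeight₁ _)
      (Finset.mem_univ i)
  linarith

theorem part3 {n : ℕ} (hn : 2 ≤ n) {a b : K} (ha : IsIntegral ℤ a) (hb : IsIntegral ℤ b)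
    (hab : 4 * a ^ 3 + 27 * b ^ 2 ≠ 0) {Q : SPt a b} (hQ : ¬ IsOfFinAddOrder Q)
    (S : Set (FinitePlace K)) (G : MvPolynomial (Fin n) K) (hG : G ≠ 0) (ψ : ℝ → ℝ)
    (hψ : ∀ η : ℝ, 0 < η → ∃ t0 : ℝ, ∀ t, t0 ≤ t → ψ t ≤ η * t) :
    {p : Fin n → SPt a b | (∀ i, p i ≠ 0) ∧ MvPolynomial.eval (fun i => xc (p i)) G ≠ 0 ∧
      N1 S p + ψ (hD p) < hD p}.Infinite := by
  set d : ℕ := G.totalDegree with hd
  have hn2 : (2 : ℝ) ≤ n := by exact_mod_cast hn
  set D : ℝ := n * ((d : ℝ) + 1) ^ 2 with hDdef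
  have hD0 : 0 < D := by positivity
  set ε : ℝ := 1 / (2 * D) with hεdef
  have hε0 : 0 < ε := by positivity
  have hεD : ε * D < (n : ℝ) - 1 := by
    have : ε * D = 1 / 2 := by rw [hεdef]; field_simp
    rw [this]
    linarith
  obtain ⟨t0, ht0⟩ := hψ ε hε0
  have h1 := part2 (by omega) ha hb hab hQ S d G ε hG
    (fun i => MvPolynomial.degreeOf_le_totalDegree G i) hε0.le hεD 0
  have h2 := h1.diff (fin_hD (n := n) (a := a) (b := b) t0)
  refine h2.mono ?_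
  rintro p ⟨⟨h3, h4, h5⟩, h6⟩
  refine ⟨h3, h4, ?_⟩
  have h7 : t0 < hD p := not_le.mp h6
  have h8 := ht0 (hD p) h7.le
  linarith

end Pool.Agent.R338.Ab
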