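import Mathlib

set_option autoImplicit false

/-!
The duplication map `x(P) ↦ x(2 P)` of the curve `y² = x³ - 2`.
-/

namespace Pool.Agent.R338.Dbl

/-- the logarithmic height of a rational number -/
noncomputable def ht (x : ℚ) : ℝ := Real.log ((max x.num.natAbs x.den : ℕ) : ℝ)

/-- the duplication map -/
def phi (x : ℚ) : ℚ := x * (x ^ 3 + 16) / (4 * (x ^ 3 - 2))

lemma cube_int {N D : ℤ} (hD : D ≠ 0) : N ^ 3 - 2 * D ^ 3 ≠ 0 := by
  intro h
  have h1 : N ^ 3 = 2 * D ^ 3 := by linarith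
  have hN : N ≠ 0 := by
    rintro rfl
    have : D ^ 3 = 0 := by linarith
    exact hD (pow_eq_zero_iff (by norm_num) |>.1 this)
  have h2 : multiplicity 2 (N ^ 3) = multiplicity 2 (2 * D ^ 3) := by rw [h1]
  have hp : Prime (2 : ℤ) := Int.prime_two
  have f1 : FiniteMultiplicity (2 : ℤ) N := Int.finiteMultiplicity_iff.2 ⟨by norm_num, hN⟩
  have f2 : FiniteMultiplicity (2 : ℤ) D := Int.finiteMultiplicity_iff.2 ⟨by norm_num, hD⟩
  have f3 : FiniteMultiplicity (2 : ℤ) (2 * D ^ 3) :=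
    Int.finiteMultiplicity_iff.2 ⟨by norm_num, mul_ne_zero two_ne_zero (pow_ne_zero _ hD)⟩
  rw [f1.multiplicity_pow hp, multiplicity_mul hp f3, f2.multiplicity_pow hp,
    multiplicity_self] at h2
  omega

lemma cube_ne (x : ℚ) : x ^ 3 - 2 ≠ 0 := by
  intro h
  have hD : (x.den : ℤ) ≠ 0 := by exact_mod_cast x.den_ne_zero
  apply cube_int (N := x.num) hD
  have hx : (x.num : ℚ) = x * x.den := by rw [Rat.mul_den_eq_num]
  have : ((x.num ^ 3 - 2 * (x.den : ℤ) ^ 3 : ℤ) : ℚ) = 0 := by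
    push_cast
    rw [hx]
    linear_combination (x.den : ℚ) ^ 3 * h
  exact_mod_cast this

lemma one_le_max (x : ℚ) : 1 ≤ max x.num.natAbs x.den :=
  le_max_of_le_right x.pos

lemma ht_nonneg (x : ℚ) : 0 ≤ ht x := Real.log_natCast_nonneg _

/-- height of a fraction, upper bound -/
lemma ht_le_of_frac {x : ℚ} {A B : ℤ} (hB : B ≠ 0) (h : x * B = A) {M : ℝ}
    (h1 : |(A : ℝ)| ≤ M) (h2 : |(B : ℝ)| ≤ M) : ht x ≤ Real.log M := by
  have hx : x = Rat.divInt A B := by
    rw [Rat.divInt_eq_div, eq_div_iff (by exact_mod_cast hB)]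
    exact h
  obtain ⟨c, hc1, hc2⟩ := Rat.num_den_mk hB hx
  have hc : c ≠ 0 := by
    rintro rfl
    simp at hc2
    exact hB hc2
  have hc' : (1 : ℝ) ≤ |(c : ℝ)| := by exact_mod_cast Int.one_le_abs hc
  have hM : 0 < M := lt_of_lt_of_le (by exact_mod_cast abs_pos.2 hB) h2
  unfold ht
  refine Real.log_le_log (by exact_mod_cast one_le_max x) ?_
  push_cast
  refine max_le ?_ ?_
  · rw [Nat.cast_natAbs]
    push_cast
    have e : |(A : ℝ)| = |(c : ℝ)| * |(x.num : ℝ)| := by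
      rw [hc1]; push_cast; rw [abs_mul]
    nlinarith [abs_nonneg (x.num : ℝ)]
  · have e : |(B : ℝ)| = |(c : ℝ)| * (x.den : ℝ) := by
      rw [hc2]; push_cast; rw [abs_mul, Nat.abs_cast]
    have : (0 : ℝ) ≤ x.den := Nat.cast_nonneg _
    nlinarith

/-- height of a fraction, lower bound -/
lemma le_ht_of_frac {x : ℚ} {A B : ℤ} (hB : B ≠ 0) (h : x * B = A) {M : ℕ} (hM : M ≠ 0)
    (hg : ∀ c : ℤ, c ∣ A → c ∣ B → c ∣ M) {T : ℝ} (hT : 0 < T)
    (h1 : T ≤ max |(A : ℝ)| |(B : ℝ)|) : Real.log T - Real.log M ≤ ht x := by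
  have hx : x = Rat.divInt A B := by
    rw [Rat.divInt_eq_div, eq_div_iff (by exact_mod_cast hB)]
    exact h
  obtain ⟨c, hc1, hc2⟩ := Rat.num_den_mk hB hx
  have hc : c ∣ M := hg c (by rw [hc1]; exact dvd_mul_right _ _) (by rw [hc2]; exact dvd_mul_right _ _)
  have hcM : |(c : ℝ)| ≤ M := by
    have := Int.le_of_dvd (by exact_mod_cast Nat.pos_of_ne_zero hM) ((abs_dvd c M).2 hc)
    exact_mod_cast this
  have hMpos : (0 : ℝ) < M := by exact_mod_cast Nat.pos_of_ne_zero hM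
  rw [sub_le_iff_le_add]
  unfold ht
  rw [← Real.log_mul (Nat.cast_ne_zero.2 (by have := one_le_max x; omega)) hMpos.ne']
  refine Real.log_le_log hT (h1.trans ?_)
  push_cast
  refine max_le ?_ ?_
  · have e : |(A : ℝ)| = |(c : ℝ)| * |(x.num : ℝ)| := by
      rw [hc1]; push_cast; rw [abs_mul]
    rw [e, Nat.cast_natAbs]
    push_cast
    rw [mul_comm]
    exact mul_le_mul (le_max_left _ _) hcM (abs_nonneg _) (le_max_of_le_left (abs_nonneg _))
  · have e : |(B : ℝ)| = |(c : ℝ)| * (x.den : ℝ) := by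
      rw [hc2]; push_cast; rw [abs_mul, Nat.abs_cast]
    rw [e, mul_comm]
    exact mul_le_mul (le_max_right _ _) hcM (abs_nonneg _)
      (le_max_of_le_right (Nat.cast_nonneg _))

lemma phi_mul (x : ℚ) : phi x * ((4 * (x.den : ℤ) * (x.num ^ 3 - 2 * (x.den : ℤ) ^ 3) : ℤ) : ℚ) =
    ((x.num * (x.num ^ 3 + 16 * (x.den : ℤ) ^ 3) : ℤ) : ℚ) := by
  have hx : (x.num : ℚ) = x * x.den := by rw [Rat.mul_den_eq_num]
  have h := cube_ne x
  unfold phi
  push_cast
  rw [hx]
  field_simp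

lemma abs_le_H (x : ℚ) : |(x.num : ℝ)| ≤ ((max x.num.natAbs x.den : ℕ) : ℝ) := by
  push_cast
  rw [Nat.cast_natAbs]
  push_cast
  exact le_max_left _ _

lemma den_le_H (x : ℚ) : |(x.den : ℝ)| ≤ ((max x.num.natAbs x.den : ℕ) : ℝ) := by
  push_cast
  rw [Nat.abs_cast]
  exact le_max_right _ _

lemma one_le_H (x : ℚ) : (1 : ℝ) ≤ ((max x.num.natAbs x.den : ℕ) : ℝ) := by
  exact_mod_cast one_le_max x

lemma den_ne (x : ℚ) : (4 * (x.den : ℤ) * (x.num ^ 3 - 2 * (x.den : ℤ) ^ 3) : ℤ) ≠ 0 := by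
  have hD : (x.den : ℤ) ≠ 0 := by exact_mod_cast x.den_ne_zero
  exact mul_ne_zero (mul_ne_zero (by norm_num) hD) (cube_int hD)

theorem ht_phi_le (x : ℚ) : ht (phi x) ≤ 4 * ht x + Real.log 17 := by
  set H : ℝ := ((max x.num.natAbs x.den : ℕ) : ℝ) with hH
  have hH1 : 1 ≤ H := one_le_H x
  have hN := abs_le_H x
  have hD := den_le_H x
  rw [← hH] at hN hD
  have e : 4 * ht x + Real.log 17 = Real.log (H ^ 4 * 17) := by
    rw [Real.log_mul (by positivity) (by norm_num), Real.log_pow]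
    unfold ht
    rw [← hH]
    push_cast
    ring
  have a1 := pow_le_pow_left₀ (abs_nonneg _) hN 3
  have a2 := pow_le_pow_left₀ (abs_nonneg _) hD 3
  rw [e]
  refine ht_le_of_frac (den_ne x) (phi_mul x) ?_ ?_
  · push_cast
    rw [abs_mul]
    have h1 : |(x.num : ℝ) ^ 3 + 16 * (x.den : ℝ) ^ 3| ≤ 17 * H ^ 3 := by
      refine (abs_add_le _ _).trans ?_
      rw [abs_mul, abs_pow, abs_pow, abs_of_pos (by norm_num : (0 : ℝ) < 16)]
      linarith
    calc |(x.num : ℝ)| * |(x.num : ℝ) ^ 3 + 16 * (x.den : ℝ) ^ 3| ≤ H * (17 * H ^ 3) :=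
          mul_le_mul hN h1 (abs_nonneg _) (by linarith)
      _ = H ^ 4 * 17 := by ring
  · push_cast
    rw [abs_mul, abs_mul]
    have h1 : |(x.num : ℝ) ^ 3 - 2 * (x.den : ℝ) ^ 3| ≤ 3 * H ^ 3 := by
      refine (abs_sub _ _).trans ?_
      rw [abs_mul, abs_pow, abs_pow, abs_of_pos (by norm_num : (0 : ℝ) < 2)]
      linarith
    calc |(4 : ℝ)| * |(x.den : ℝ)| * |(x.num : ℝ) ^ 3 - 2 * (x.den : ℝ) ^ 3| ≤ (4 * H) * (3 * H ^ 3) := by
          refine mul_le_mul ?_ h1 (abs_nonneg _) (by linarith)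
          rw [abs_of_pos (by norm_num : (0 : ℝ) < 4)]
          linarith
      _ ≤ H ^ 4 * 17 := by nlinarith [pow_pos (by linarith : (0 : ℝ) < H) 4]

theorem ht_phi_ge (x : ℚ) : 4 * ht x - Real.log 1008 ≤ ht (phi x) := by
  set H : ℝ := ((max x.num.natAbs x.den : ℕ) : ℝ) with hH
  have hH1 : 1 ≤ H := one_le_H x
  have hN := abs_le_H x
  have hD := den_le_H x
  rw [← hH] at hN hD
  have hcop : IsCoprime x.num (x.den : ℤ) := by
    rw [Int.isCoprime_iff_gcd_eq_one]
    exact x.reduced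
  have h := le_ht_of_frac (T := H ^ 4 / 7) (M := 144) (den_ne x) (phi_mul x) (by norm_num) ?_
    (by positivity) ?_
  · rw [Real.log_div (by positivity) (by norm_num), Real.log_pow] at h
    have e1 : Real.log 1008 = Real.log 7 + Real.log 144 := by
      rw [← Real.log_mul (by norm_num) (by norm_num)]
      norm_num
    rw [e1]
    have e2 : Real.log H = ht x := rfl
    rw [e2] at h
    push_cast at h
    linarith
  · intro c hc1 hc2
    set N : ℤ := x.num
    set D : ℤ := (x.den : ℤ)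
    have h1 : c ∣ 144 * N ^ 7 := by
      have : 144 * N ^ 7 = 16 * ((9 * N ^ 3 - 16 * D ^ 3) * (N * (N ^ 3 + 16 * D ^ 3)) -
          (32 * N * D ^ 2) * (4 * D * (N ^ 3 - 2 * D ^ 3))) := by ring
      rw [this]
      exact (dvd_sub (hc1.mul_left _) (hc2.mul_left _)).mul_left _
    have h2 : c ∣ 144 * D ^ 7 := by
      have : 144 * D ^ 7 = (4 * N ^ 2 * D) * (N * (N ^ 3 + 16 * D ^ 3)) -
          (N ^ 3 + 18 * D ^ 3) * (4 * D * (N ^ 3 - 2 * D ^ 3)) := by ring
      rw [this]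
      exact dvd_sub (hc1.mul_left _) (hc2.mul_left _)
    obtain ⟨u, v, huv⟩ := hcop.pow (m := 7) (n := 7)
    have : ((144 : ℕ) : ℤ) = u * (144 * N ^ 7) + v * (144 * D ^ 7) := by
      push_cast
      linear_combination (-144) * huv
    rw [this]
    exact dvd_add (h1.mul_left _) (h2.mul_left _)
  · set n : ℝ := (x.num : ℝ)
    set d : ℝ := (x.den : ℝ)
    set M : ℝ := max |((x.num * (x.num ^ 3 + 16 * (x.den : ℤ) ^ 3) : ℤ) : ℝ)|
      |((4 * (x.den : ℤ) * (x.num ^ 3 - 2 * (x.den : ℤ) ^ 3) : ℤ) : ℝ)| with hM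
    have m1 : |n * (n ^ 3 + 16 * d ^ 3)| ≤ M := by
      rw [hM]; push_cast; exact le_max_left _ _
    have m2 : |4 * d * (n ^ 3 - 2 * d ^ 3)| ≤ M := by
      rw [hM]; push_cast; exact le_max_right _ _
    have hM0 : 0 ≤ M := (abs_nonneg _).trans m1
    have a1 := pow_le_pow_left₀ (abs_nonneg _) hN 3
    have a2 := pow_le_pow_left₀ (abs_nonneg _) hD 3
    have a3 := pow_le_pow_left₀ (abs_nonneg _) hN 2
    have a4 := pow_le_pow_left₀ (abs_nonneg _) hD 2
    have hHpos : 0 < H := by linarith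
    have b1 : 9 * |n| ^ 7 ≤ 57 * H ^ 3 * M := by
      have e : 9 * n ^ 7 = (9 * n ^ 3 - 16 * d ^ 3) * (n * (n ^ 3 + 16 * d ^ 3)) -
          (32 * n * d ^ 2) * (4 * d * (n ^ 3 - 2 * d ^ 3)) := by ring
      have e2 : 9 * |n| ^ 7 = |9 * n ^ 7| := by
        rw [abs_mul, abs_pow, abs_of_pos (by norm_num : (0 : ℝ) < 9)]
      rw [e2, e]
      refine (abs_sub _ _).trans ?_
      rw [abs_mul, abs_mul (32 * n * d ^ 2)]
      have c1 : |9 * n ^ 3 - 16 * d ^ 3| ≤ 25 * H ^ 3 := by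
        refine (abs_sub _ _).trans ?_
        rw [abs_mul, abs_mul, abs_pow, abs_pow, abs_of_pos (by norm_num : (0 : ℝ) < 9),
          abs_of_pos (by norm_num : (0 : ℝ) < 16)]
        linarith
      have c2 : |32 * n * d ^ 2| ≤ 32 * H ^ 3 := by
        rw [abs_mul, abs_mul, abs_pow, abs_of_pos (by norm_num : (0 : ℝ) < 32)]
        have := mul_le_mul hN a4 (by positivity) hHpos.le
        nlinarith
      have d1 := mul_le_mul c1 m1 (abs_nonneg _) (by positivity)
      have d2 := mul_le_mul c2 m2 (abs_nonneg _) (by positivity)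
      linarith
    have b2 : 144 * |d| ^ 7 ≤ 23 * H ^ 3 * M := by
      have e : 144 * d ^ 7 = (4 * n ^ 2 * d) * (n * (n ^ 3 + 16 * d ^ 3)) -
          (n ^ 3 + 18 * d ^ 3) * (4 * d * (n ^ 3 - 2 * d ^ 3)) := by ring
      have e2 : 144 * |d| ^ 7 = |144 * d ^ 7| := by
        rw [abs_mul, abs_pow, abs_of_pos (by norm_num : (0 : ℝ) < 144)]
      rw [e2, e]
      refine (abs_sub _ _).trans ?_
      rw [abs_mul, abs_mul (n ^ 3 + 18 * d ^ 3)]
      have c1 : |4 * n ^ 2 * d| ≤ 4 * H ^ 3 := by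
        rw [abs_mul, abs_mul, abs_pow, abs_of_pos (by norm_num : (0 : ℝ) < 4)]
        have := mul_le_mul a3 hD (abs_nonneg _) (by positivity)
        nlinarith
      have c2 : |n ^ 3 + 18 * d ^ 3| ≤ 19 * H ^ 3 := by
        refine (abs_add_le _ _).trans ?_
        rw [abs_mul, abs_pow, abs_pow, abs_of_pos (by norm_num : (0 : ℝ) < 18)]
        linarith
      have d1 := mul_le_mul c1 m1 (abs_nonneg _) (by positivity)
      have d2 := mul_le_mul c2 m2 (abs_nonneg _) (by positivity)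
      linarith
    have key : H ^ 7 ≤ 7 * H ^ 3 * M := by
      have hmax : H = |n| ∨ H = |d| := by
        rw [hH]
        push_cast
        rw [Nat.cast_natAbs]
        push_cast
        rcases max_choice |n| d with h | h
        · left; exact h
        · right
          rw [h, abs_of_nonneg (by positivity)]
      have hpos3 : 0 ≤ H ^ 3 * M := by positivity
      rcases hmax with h | h
      · rw [← h] at b1
        nlinarith
      · rw [← h] at b2
        nlinarith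
    have : H ^ 4 ≤ 7 * M := by
      have h3 : 0 < H ^ 3 := by positivity
      nlinarith
    linarith

end Pool.Agent.R338.Dbl
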