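import Mathlib
import Pool.Agent.Y733.VR.Disc

set_option autoImplicit false

/-!
An upper bound for the discriminant of a field generated by square roots of integers.
-/

namespace Pool.Agent.R338

open NumberField Module IntermediateField Polynomial
open Pool.Agent.Y733.VR

/-- an intermediate field `K(S)` is generated by `S` -/
theorem adjoin_self_top {K E : Type*} [Field K] [Field E] [Algebra K E] (S : Set E)
    (T : Set (IntermediateField.adjoin K S)) (hT : Subtype.val '' T = S) :
    IntermediateField.adjoin K T = ⊤ := by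
  apply IntermediateField.lift_injective
  rw [IntermediateField.lift_adjoin, IntermediateField.lift_top, hT]

/-- the discriminant of the extension by a square root of an integer -/
lemma ld_sqrt_int (K L : Type) [Field K] [NumberField K] [Field L] [NumberField L] [Algebra K L]
    (b : L) (s : ℤ) (hs : s ≠ 0) (hb : b ^ 2 = (s : L)) (htop : K⟮b⟯ = ⊤) :
    ld L ≤ ld K + (1 / 2) * Real.log (4 * |(s : ℝ)|) := by
  have hbint : IsIntegral ℤ b := by
    refine IsIntegral.of_pow (n := 2) (by norm_num) ?_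
    rw [hb]
    exact isIntegral_algebraMap (R := ℤ) (A := L) (x := s)
  have hsL : (s : L) ≠ 0 := by exact_mod_cast hs
  have hb0 : b ≠ 0 := by
    rintro rfl
    apply hsL
    rw [← hb]
    ring
  set β : 𝓞 L := ⟨b, hbint⟩ with hβ
  have hroot : aeval β (X ^ 2 - C (s : 𝓞 K) : (𝓞 K)[X]) = 0 := by
    apply RingOfIntegers.coe_injective
    rw [map_sub, map_pow, aeval_X, aeval_C, map_sub, map_pow, map_zero]
    have : algebraMap (𝓞 L) L (algebraMap (𝓞 K) (𝓞 L) (s : 𝓞 K)) = (s : L) := by
      simp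
    rw [this, ← hb]
    exact sub_self _
  have hder : aeval β (derivative (X ^ 2 - C (s : 𝓞 K) : (𝓞 K)[X])) = (2 : 𝓞 L) * β := by
    rw [derivative_sub, derivative_C, sub_zero, derivative_X_pow, map_mul, aeval_C, map_pow,
      aeval_X]
    simp [map_ofNat]
  have hcoe : (((2 : 𝓞 L) * β : 𝓞 L) : L) = (2 : L) * b := by
    push_cast
    rfl
  have hne : (2 : L) * b ≠ 0 := mul_ne_zero two_ne_zero hb0
  have h := ld_le K L β htop (X ^ 2 - C (s : 𝓞 K)) hroot (by
    rw [hder]
    intro h0
    apply hne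
    rw [← hcoe, h0]
    rfl)
  rw [hder, hcoe] at h
  have hdeg : (0 : ℝ) < finrank ℚ L := by exact_mod_cast finrank_pos
  have hnorm : (Algebra.norm ℚ ((2 : L) * b)) ^ 2 = ((4 * s : ℤ) : ℚ) ^ (finrank ℚ L) := by
    rw [← map_pow]
    have e : ((2 : L) * b) ^ 2 = algebraMap ℚ L ((4 * s : ℤ) : ℚ) := by
      rw [mul_pow, hb]
      push_cast
      norm_num
    rw [e, Algebra.norm_algebraMap]
  have hnorm2 : |((Algebra.norm ℚ ((2 : L) * b) : ℚ) : ℝ)| ^ 2 = (4 * |(s : ℝ)|) ^ (finrank ℚ L) := by
    have h1 : (((Algebra.norm ℚ ((2 : L) * b)) ^ 2 : ℚ) : ℝ) =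
        (((4 * s : ℤ) : ℚ) ^ (finrank ℚ L) : ℚ) := by rw [hnorm]
    push_cast at h1
    rw [← abs_pow, h1, abs_pow, abs_mul]
    norm_num
  have hlog : 2 * Real.log |((Algebra.norm ℚ ((2 : L) * b) : ℚ) : ℝ)| =
      finrank ℚ L * Real.log (4 * |(s : ℝ)|) := by
    have h1 := congrArg Real.log hnorm2
    rw [Real.log_pow, Real.log_pow] at h1
    exact_mod_cast h1
  have : Real.log |((Algebra.norm ℚ ((2 : L) * b) : ℚ) : ℝ)| / finrank ℚ L =
      (1 / 2) * Real.log (4 * |(s : ℝ)|) := by
    rw [div_eq_iff hdeg.ne']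
    linarith
  rw [this] at h
  exact h

lemma finrank_sqrt_le (K L : Type) [Field K] [NumberField K] [Field L] [NumberField L] [Algebra K L]
    (b : L) (s : ℤ) (hb : b ^ 2 = (s : L)) (htop : K⟮b⟯ = ⊤) : finrank K L ≤ 2 := by
  have hpm : (X ^ 2 - C (s : K) : K[X]).Monic := monic_X_pow_sub_C _ two_ne_zero
  have hev : aeval b (X ^ 2 - C (s : K) : K[X]) = 0 := by
    rw [map_sub, map_pow, aeval_X, aeval_C, hb]
    simp
  have hint : IsIntegral K b := ⟨X ^ 2 - C (s : K), hpm, by rw [← aeval_def]; exact hev⟩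
  rw [← IntermediateField.finrank_top', ← htop, adjoin.finrank hint]
  have h1 := minpoly.min K b hpm hev
  have h2 : (X ^ 2 - C (s : K) : K[X]).natDegree = 2 := natDegree_X_pow_sub_C
  rw [← h2]
  exact natDegree_le_natDegree h1

lemma ld_rat_le (L : Type) [Field L] [NumberField L] (h : (⊥ : IntermediateField ℚ L) = ⊤) :
    ld L ≤ 0 := by
  have hβ : ℚ⟮((1 : 𝓞 L) : L)⟯ = ⊤ := by
    rw [← h, IntermediateField.adjoin_simple_eq_bot_iff]
    simp
  have h1 := ld_le ℚ L (1 : 𝓞 L) hβ (X - C (1 : 𝓞 ℚ)) (by simp) (by simp)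
  have h2 : ld ℚ = 0 := by
    unfold ld
    rw [Rat.numberField_discr]
    simp
  have h3 : (Algebra.norm ℚ ((1 : 𝓞 L) : L)) = 1 := by simp
  simp at h1
  linarith

/-- the discriminant of a field generated by square roots of integers -/
theorem ld_multi (n : ℕ) : ∀ (L : Type) [Field L] [NumberField L] (β : Fin n → L) (s : Fin n → ℤ),
    (∀ i, s i ≠ 0) → (∀ i, β i ^ 2 = (s i : L)) →
    IntermediateField.adjoin ℚ (Set.range β) = ⊤ →
    ld L ≤ ∑ i, (1 / 2) * Real.log (4 * |(s i : ℝ)|) ∧ finrank ℚ L ≤ 2 ^ n := by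
  induction n with
  | zero =>
    intro L _ _ β s _ _ htop
    have h1 : Set.range β = ∅ := Set.range_eq_empty β
    rw [h1, IntermediateField.adjoin_empty] at htop
    refine ⟨by simpa using ld_rat_le L htop, ?_⟩
    rw [← IntermediateField.finrank_top', ← htop, IntermediateField.finrank_bot]
    norm_num
  | succ n ih =>
    intro L _ _ β s hs hβ htop
    set K : IntermediateField ℚ L :=
      IntermediateField.adjoin ℚ (Set.range (fun i : Fin n => β i.castSucc)) with hK
    have hmem : ∀ i : Fin n, β i.castSucc ∈ K := fun i =>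
      IntermediateField.subset_adjoin ℚ _ ⟨i, rfl⟩
    have h1 := ih K (fun i => ⟨β i.castSucc, hmem i⟩) (fun i => s i.castSucc)
      (fun i => hs _) (fun i => by
        apply Subtype.ext
        have := hβ i.castSucc
        simpa using this) (by
        apply adjoin_self_top
        rw [← Set.range_comp]
        rfl)
    have h2 : K⟮β (Fin.last n)⟯ = ⊤ := by
      have h3 : IntermediateField.restrictScalars ℚ (K⟮β (Fin.last n)⟯) = ⊤ := by
        rw [eq_top_iff, ← htop, IntermediateField.adjoin_le_iff]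
        rintro _ ⟨i, rfl⟩
        refine Fin.lastCases ?_ (fun j => ?_) i
        · exact IntermediateField.mem_adjoin_simple_self K _
        · have : β j.castSucc = algebraMap K L ⟨β j.castSucc, hmem j⟩ := rfl
          rw [this]
          exact (K⟮β (Fin.last n)⟯).algebraMap_mem _
      rw [eq_top_iff]
      intro z _
      have : z ∈ IntermediateField.restrictScalars ℚ (K⟮β (Fin.last n)⟯) := by
        rw [h3]; exact IntermediateField.mem_top
      exact this
    have h4 := ld_sqrt_int K L (β (Fin.last n)) (s (Fin.last n)) (hs _) (hβ _) h2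
    have h5 := finrank_sqrt_le K L (β (Fin.last n)) (s (Fin.last n)) (hβ _) h2
    refine ⟨?_, ?_⟩
    · rw [Fin.sum_univ_castSucc]
      linarith [h1.1]
    · rw [← finrank_mul_finrank ℚ K L, pow_succ]
      exact Nat.mul_le_mul h1.2 h5

end Pool.Agent.R338
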