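import Mathlib
import Pool.Agent.R338.Dbl
import Pool.Agent.R338.Multi

set_option autoImplicit false

/-!
Orbits of the duplication map and the fields generated by the square roots of `f`.
-/

namespace Pool.Agent.R338.Dbl

open NumberField Module IntermediateField
open Pool.Agent.Y733.VR

/-- the polynomial of degree seven -/
def F (x : ℚ) : ℚ := x * (x ^ 3 - 2) * (x ^ 3 - 8)

/-- the `3`-division polynomial, up to a factor -/
def g (x : ℚ) : ℚ := x * (x ^ 3 - 8)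

/-- the quotient `g (phi x) / g x`, up to squares -/
def V (N D : ℤ) : ℤ :=
  (N ^ 3 + 16 * D ^ 3) * (N ^ 9 - 456 * N ^ 6 * D ^ 3 + 192 * N ^ 3 * D ^ 6 - 512 * D ^ 9)

lemma g_phi (x : ℚ) : g (phi x) * (16 * (x.den : ℚ) ^ 6 * (x ^ 3 - 2) ^ 2) ^ 2 =
    g x * (V x.num x.den : ℤ) := by
  have hx : (x.num : ℚ) = x * x.den := by rw [Rat.mul_den_eq_num]
  have h := cube_ne x
  unfold g phi V
  push_cast
  rw [hx]
  field_simp
  ring

lemma sq_phi {x w : ℚ} (h : w ^ 2 = x ^ 3 - 2) :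
    ((x ^ 6 - 40 * x ^ 3 - 32) / (8 * w ^ 3)) ^ 2 = phi x ^ 3 - 2 := by
  have hw : w ≠ 0 := by
    rintro rfl
    apply cube_ne x
    rw [← h]
    ring
  have h2 := cube_ne x
  have e : (8 * w ^ 3) ^ 2 = 64 * (x ^ 3 - 2) ^ 3 := by
    rw [← h]; ring
  rw [div_pow, e]
  unfold phi
  field_simp
  ring

lemma six : ¬ IsSquare (6 : ℚ) := by
  have h : ((6 : ℤ) : ℚ) = 6 := by norm_num
  rw [← h, Rat.isSquare_intCast_iff]
  intro h6
  obtain ⟨r, hr⟩ := h6
  have h1 : r ≤ 2 := by nlinarith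
  have h2 : -2 ≤ r := by nlinarith
  interval_cases r <;> omega

lemma g_ne {x : ℚ} (h : IsSquare (x ^ 3 - 2)) : g x ≠ 0 := by
  obtain ⟨w, hw⟩ := h
  unfold g
  apply mul_ne_zero
  · rintro rfl
    nlinarith [mul_self_nonneg w]
  · intro h8
    apply six
    exact ⟨w, by rw [← hw]; linarith⟩

lemma sq_iter {x : ℚ} (h : IsSquare (x ^ 3 - 2)) (j : ℕ) : IsSquare ((phi^[j] x) ^ 3 - 2) := by
  induction j with
  | zero => exact h
  | succ j ih =>
    obtain ⟨w, hw⟩ := ih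
    rw [Function.iterate_succ_apply']
    exact ⟨_, by rw [← sq, sq_phi (w := w) (by rw [hw]; ring)]⟩

lemma V_le (x : ℚ) : Real.log |((V x.num x.den : ℤ) : ℝ)| ≤ 12 * ht x + Real.log 19737 := by
  by_cases hV : V x.num x.den = 0
  · rw [hV]
    have h1 := ht_nonneg x
    have h2 : 0 ≤ Real.log 19737 := Real.log_nonneg (by norm_num)
    simp
    linarith
  set H : ℝ := ((max x.num.natAbs x.den : ℕ) : ℝ) with hH
  have hH1 : 1 ≤ H := one_le_H x
  have hN := abs_le_H x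
  have hD := den_le_H x
  rw [← hH] at hN hD
  have e : 12 * ht x + Real.log 19737 = Real.log (H ^ 12 * 19737) := by
    rw [Real.log_mul (by positivity) (by norm_num), Real.log_pow]
    unfold ht
    rw [← hH]
    push_cast
    ring
  rw [e]
  refine Real.log_le_log (by exact_mod_cast abs_pos.2 hV) ?_
  set n : ℝ := (x.num : ℝ)
  set d : ℝ := (x.den : ℝ)
  have e2 : ((V x.num x.den : ℤ) : ℝ) = (n ^ 3 + 16 * d ^ 3) *
      (n ^ 9 - 456 * n ^ 6 * d ^ 3 + 192 * n ^ 3 * d ^ 6 - 512 * d ^ 9) := by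
    unfold V
    push_cast
    rfl
  rw [e2, abs_mul]
  have hn : ∀ k : ℕ, |n| ^ k ≤ H ^ k := fun k => pow_le_pow_left₀ (abs_nonneg _) hN k
  have hd : ∀ k : ℕ, |d| ^ k ≤ H ^ k := fun k => pow_le_pow_left₀ (abs_nonneg _) hD k
  have c1 : |n ^ 3 + 16 * d ^ 3| ≤ 17 * H ^ 3 := by
    refine (abs_add_le _ _).trans ?_
    rw [abs_mul, abs_pow, abs_pow, abs_of_pos (by norm_num : (0 : ℝ) < 16)]
    linarith [hn 3, hd 3]
  have c2 : |n ^ 9 - 456 * n ^ 6 * d ^ 3 + 192 * n ^ 3 * d ^ 6 - 512 * d ^ 9| ≤ 1161 * H ^ 9 := by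
    have t1 : |n ^ 9| ≤ H ^ 9 := by rw [abs_pow]; exact hn 9
    have t2 : |456 * n ^ 6 * d ^ 3| ≤ 456 * H ^ 9 := by
      rw [abs_mul, abs_mul, abs_pow, abs_pow, abs_of_pos (by norm_num : (0 : ℝ) < 456)]
      have := mul_le_mul (hn 6) (hd 3) (by positivity) (by positivity)
      calc 456 * |n| ^ 6 * |d| ^ 3 = 456 * (|n| ^ 6 * |d| ^ 3) := by ring
        _ ≤ 456 * (H ^ 6 * H ^ 3) := by linarith
        _ = 456 * H ^ 9 := by ring
    have t3 : |192 * n ^ 3 * d ^ 6| ≤ 192 * H ^ 9 := by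
      rw [abs_mul, abs_mul, abs_pow, abs_pow, abs_of_pos (by norm_num : (0 : ℝ) < 192)]
      have := mul_le_mul (hn 3) (hd 6) (by positivity) (by positivity)
      calc 192 * |n| ^ 3 * |d| ^ 6 = 192 * (|n| ^ 3 * |d| ^ 6) := by ring
        _ ≤ 192 * (H ^ 3 * H ^ 6) := by linarith
        _ = 192 * H ^ 9 := by ring
    have t4 : |512 * d ^ 9| ≤ 512 * H ^ 9 := by
      rw [abs_mul, abs_pow, abs_of_pos (by norm_num : (0 : ℝ) < 512)]
      linarith [hd 9]
    have s1 := abs_sub (n ^ 9 - 456 * n ^ 6 * d ^ 3 + 192 * n ^ 3 * d ^ 6) (512 * d ^ 9)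
    have s2 := abs_add_le (n ^ 9 - 456 * n ^ 6 * d ^ 3) (192 * n ^ 3 * d ^ 6)
    have s3 := abs_sub (n ^ 9) (456 * n ^ 6 * d ^ 3)
    linarith
  calc |n ^ 3 + 16 * d ^ 3| *
      |n ^ 9 - 456 * n ^ 6 * d ^ 3 + 192 * n ^ 3 * d ^ 6 - 512 * d ^ 9|
      ≤ (17 * H ^ 3) * (1161 * H ^ 9) := mul_le_mul c1 c2 (abs_nonneg _) (by positivity)
    _ = H ^ 12 * 19737 := by ring

/-- constant -/
noncomputable def c₀ : ℝ := Real.log 19737 + 4 * Real.log 1008

lemma c₀_nonneg : 0 ≤ c₀ := by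
  have h1 : 0 ≤ Real.log 19737 := Real.log_nonneg (by norm_num)
  have h2 : 0 ≤ Real.log 1008 := Real.log_nonneg (by norm_num)
  unfold c₀
  linarith

theorem chain {x : ℚ} (h : IsSquare (x ^ 3 - 2)) (j : ℕ) : ∃ (s : ℤ) (r : ℚ), s ≠ 0 ∧ r ≠ 0 ∧
    g (phi^[j] x) = g x * s * r ^ 2 ∧
    Real.log |(s : ℝ)| ≤ 4 * (ht (phi^[j] x) - ht x) + j * c₀ := by
  induction j with
  | zero => exact ⟨1, 1, one_ne_zero, one_ne_zero, by simp, by simp⟩
  | succ j ih =>
    obtain ⟨s, r, hs, hr, h1, h2⟩ := ih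
    set z := phi^[j] x with hz
    rw [Function.iterate_succ_apply', ← hz]
    have hzz := sq_iter h j
    rw [← hz] at hzz
    have hgz := g_ne hzz
    have hgz' : g (phi z) ≠ 0 := by
      have := g_ne (sq_iter h (j + 1))
      rwa [Function.iterate_succ_apply', ← hz] at this
    set t : ℚ := 16 * (z.den : ℚ) ^ 6 * (z ^ 3 - 2) ^ 2 with ht'
    have ht0 : t ≠ 0 := mul_ne_zero (mul_ne_zero (by norm_num)
      (pow_ne_zero _ (by exact_mod_cast z.den_ne_zero))) (pow_ne_zero _ (cube_ne z))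
    have h3 := g_phi z
    rw [← ht'] at h3
    have hV : V z.num z.den ≠ 0 := by
      intro h0
      rw [h0] at h3
      simp only [Int.cast_zero, mul_zero, mul_eq_zero, pow_eq_zero_iff (two_ne_zero)] at h3
      exact h3.elim hgz' ht0
    refine ⟨s * V z.num z.den, r / t, mul_ne_zero hs hV, div_ne_zero hr ht0, ?_, ?_⟩
    · have h4 : g (phi z) = g z * (V z.num z.den : ℤ) / t ^ 2 := by
        rw [eq_div_iff (pow_ne_zero _ ht0)]
        exact h3
      rw [h4, h1]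
      push_cast
      field_simp
    · push_cast
      rw [abs_mul, Real.log_mul (by exact_mod_cast (abs_pos.2 hs).ne')
        (by exact_mod_cast (abs_pos.2 hV).ne')]
      have h5 := V_le z
      have h6 := ht_phi_ge z
      unfold c₀ at h2 ⊢
      push_cast at h5
      linarith

end Pool.Agent.R338.Dbl
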