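import Mathlib
import Pool.Agent.R338.Orb

set_option autoImplicit false

/-!
The discriminants of the fields of the points over the orbits.
-/

namespace Pool.Agent.R338.Dbl

open NumberField Module IntermediateField
open Pool.Agent.Y733.VR

lemma tele (n : ℕ) (a : Fin (n + 1) → ℝ) :
    ∑ i : Fin n, (a i.succ - a i.castSucc) = a (Fin.last n) - a 0 := by
  induction n with
  | zero => simp
  | succ n ih =>
    rw [Fin.sum_univ_castSucc]
    have h := ih (fun i => a i.castSucc)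
    simp only [Fin.succ_castSucc, Fin.castSucc_zero] at h ⊢
    rw [h, Fin.succ_last]
    ring

lemma F_eq (x : ℚ) : F x = g x * (x ^ 3 - 2) := by
  unfold F g
  ring

lemma g_int (x : ℚ) : g x * (x.den : ℚ) ^ 4 =
    ((x.num * (x.num ^ 3 - 8 * (x.den : ℤ) ^ 3) : ℤ) : ℚ) := by
  have hx : (x.num : ℚ) = x * x.den := by rw [Rat.mul_den_eq_num]
  unfold g
  push_cast
  rw [hx]
  ring

lemma gint_le (x : ℚ) : Real.log |((x.num * (x.num ^ 3 - 8 * (x.den : ℤ) ^ 3) : ℤ) : ℝ)| ≤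
    4 * ht x + Real.log 9 := by
  by_cases hV : x.num * (x.num ^ 3 - 8 * (x.den : ℤ) ^ 3) = 0
  · rw [hV]
    have h1 := ht_nonneg x
    have h2 : 0 ≤ Real.log 9 := Real.log_nonneg (by norm_num)
    simp
    linarith
  set H : ℝ := ((max x.num.natAbs x.den : ℕ) : ℝ) with hH
  have hH1 : 1 ≤ H := one_le_H x
  have hN := abs_le_H x
  have hD := den_le_H x
  rw [← hH] at hN hD
  have e : 4 * ht x + Real.log 9 = Real.log (H ^ 4 * 9) := by
    rw [Real.log_mul (by positivity) (by norm_num), Real.log_pow]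
    unfold ht
    rw [← hH]
    push_cast
    ring
  rw [e]
  refine Real.log_le_log (by exact_mod_cast abs_pos.2 hV) ?_
  push_cast
  set n : ℝ := (x.num : ℝ)
  set d : ℝ := (x.den : ℝ)
  rw [abs_mul]
  have c1 : |n ^ 3 - 8 * d ^ 3| ≤ 9 * H ^ 3 := by
    refine (abs_sub _ _).trans ?_
    rw [abs_mul, abs_pow, abs_pow, abs_of_pos (by norm_num : (0 : ℝ) < 8)]
    linarith [pow_le_pow_left₀ (abs_nonneg _) hN 3, pow_le_pow_left₀ (abs_nonneg _) hD 3]
  calc |n| * |n ^ 3 - 8 * d ^ 3| ≤ H * (9 * H ^ 3) :=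
        mul_le_mul hN c1 (abs_nonneg _) (by linarith)
    _ = H ^ 4 * 9 := by ring

/-- a point over an orbit, ordered by height -/
theorem ld_mono_orbit (n : ℕ) (z : ℚ) (hz : IsSquare (z ^ 3 - 2)) (J : Fin (n + 1) → ℕ)
    (hJ : Monotone J) (L : Type) [Field L] [NumberField L] (y : Fin (n + 1) → L)
    (hy : ∀ i, y i ^ 2 = ((F (phi^[J i] z) : ℚ) : L))
    (htop : IntermediateField.adjoin ℚ (Set.range y) = ⊤) :
    ld L ≤ 2 * ht (phi^[J (Fin.last n)] z) + ((n + 1) * Real.log 4 + Real.log 9 +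
      J (Fin.last n) * c₀) ∧ finrank ℚ L ≤ 2 ^ (n + 1) := by
  set x : Fin (n + 1) → ℚ := fun i => phi^[J i] z with hx
  have hsq : ∀ i, IsSquare (x i ^ 3 - 2) := fun i => sq_iter hz (J i)
  choose w hw using hsq
  have hw0 : ∀ i, w i ≠ 0 := by
    intro i h
    apply cube_ne (x i)
    rw [hw i, h]
    ring
  have hg0 : ∀ i, g (x i) ≠ 0 := fun i => g_ne (sq_iter hz (J i))
  have hchain : ∀ i : Fin n, ∃ (s : ℤ) (r : ℚ), s ≠ 0 ∧ r ≠ 0 ∧
      g (x i.succ) = g (x i.castSucc) * s * r ^ 2 ∧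
      Real.log |(s : ℝ)| ≤ 4 * (ht (x i.succ) - ht (x i.castSucc)) +
        ((J i.succ : ℝ) - J i.castSucc) * c₀ := by
    intro i
    obtain ⟨s, r, h1, h2, h3, h4⟩ := chain (sq_iter hz (J i.castSucc)) (J i.succ - J i.castSucc)
    have hle : J i.castSucc ≤ J i.succ := hJ (Fin.castSucc_lt_succ).le
    rw [← Function.iterate_add_apply, Nat.sub_add_cancel hle] at h3 h4
    refine ⟨s, r, h1, h2, h3, ?_⟩
    rw [Nat.cast_sub hle] at h4
    exact h4
  choose s r hs hr hsr hlog using hchain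
  set S : Fin (n + 1) → ℤ :=
    Fin.cons ((x 0).num * ((x 0).num ^ 3 - 8 * ((x 0).den : ℤ) ^ 3)) s with hS
  have hyy : ∀ i, y i ^ 2 = ((g (x i) : ℚ) : L) * ((w i : ℚ) : L) ^ 2 := by
    intro i
    rw [hy i]
    have : F (phi^[J i] z) = g (x i) * (w i) ^ 2 := by
      rw [F_eq]
      have h1 := hw i
      rw [hx] at h1 ⊢
      simp only at h1 ⊢
      rw [h1]
      ring
    rw [this]
    push_cast
    ring
  have cast0 : ∀ q : ℚ, q ≠ 0 → (q : L) ≠ 0 := fun q hq => by exact_mod_cast hq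
  have hy0 : ∀ i, y i ≠ 0 := by
    intro i h
    have h1 := hyy i
    rw [h] at h1
    have h2 : ((g (x i) : ℚ) : L) * ((w i : ℚ) : L) ^ 2 ≠ 0 :=
      mul_ne_zero (cast0 _ (hg0 i)) (pow_ne_zero _ (cast0 _ (hw0 i)))
    apply h2
    rw [← h1]
    ring
  set q₀ : ℚ := (x 0).den ^ 2 / w 0 with hq₀
  have hq₀0 : q₀ ≠ 0 := div_ne_zero (pow_ne_zero _ (by exact_mod_cast (x 0).den_ne_zero)) (hw0 0)
  set q : Fin n → ℚ := fun i => g (x i.castSucc) * r i * w i.castSucc * w i.succ with hq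
  have hq0 : ∀ i, q i ≠ 0 := fun i =>
    mul_ne_zero (mul_ne_zero (mul_ne_zero (hg0 _) (hr i)) (hw0 _)) (hw0 _)
  set β : Fin (n + 1) → L :=
    Fin.cons (y 0 * ((q₀ : ℚ) : L)) (fun i : Fin n => y i.castSucc * y i.succ / ((q i : ℚ) : L)) with hβ
  have hS0 : ∀ i, S i ≠ 0 := by
    intro i
    refine Fin.cases ?_ (fun i => ?_) i
    · rw [hS, Fin.cons_zero]
      intro h0
      have h1 := g_int (x 0)
      rw [h0] at h1
      have h2 : g (x 0) * ((x 0).den : ℚ) ^ 4 ≠ 0 :=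
        mul_ne_zero (hg0 0) (pow_ne_zero _ (by exact_mod_cast (x 0).den_ne_zero))
      apply h2
      rw [h1]
      norm_num
    · rw [hS, Fin.cons_succ]
      exact hs i
  have hβS : ∀ i, β i ^ 2 = (S i : L) := by
    intro i
    refine Fin.cases ?_ (fun i => ?_) i
    · rw [hS, hβ, Fin.cons_zero, Fin.cons_zero, mul_pow, hyy 0]
      have e : ((S 0 : ℤ) : L) = (((g (x 0) * ((x 0).den : ℚ) ^ 4 : ℚ)) : L) := by
        rw [g_int, hS, Fin.cons_zero]
        push_cast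
        rfl
      rw [hS, Fin.cons_zero] at e
      rw [e, hq₀]
      have := cast0 _ (hw0 0)
      push_cast
      field_simp
    · rw [hS, hβ, Fin.cons_succ, Fin.cons_succ, div_pow, mul_pow, hyy, hyy,
        div_eq_iff (pow_ne_zero _ (cast0 _ (hq0 i)))]
      rw [hsr i, hq]
      push_cast
      ring
  have hgen : IntermediateField.adjoin ℚ (Set.range β) = ⊤ := by
    rw [eq_top_iff, ← htop, IntermediateField.adjoin_le_iff]
    rintro _ ⟨i, rfl⟩
    have hβm : ∀ i, β i ∈ IntermediateField.adjoin ℚ (Set.range β) := fun i =>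
      IntermediateField.subset_adjoin ℚ _ ⟨i, rfl⟩
    have hrat : ∀ c : ℚ, (c : L) ∈ IntermediateField.adjoin ℚ (Set.range β) := fun c => by
      have h := (IntermediateField.adjoin ℚ (Set.range β)).algebraMap_mem c
      rwa [eq_ratCast] at h
    refine Fin.induction ?_ (fun i ih => ?_) i
    · have h1 : y 0 = β 0 / ((q₀ : ℚ) : L) := by
        rw [hβ, Fin.cons_zero, mul_div_cancel_right₀ _ (cast0 _ hq₀0)]
      rw [h1]
      exact div_mem (hβm 0) (hrat _)
    · have h1 : y i.succ = β i.succ * ((q i : ℚ) : L) / y i.castSucc := by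
        rw [hβ, Fin.cons_succ, div_mul_cancel₀ _ (cast0 _ (hq0 i)),
          mul_div_cancel_left₀ _ (hy0 _)]
      rw [h1]
      exact div_mem (mul_mem (hβm _) (hrat _)) ih
  obtain ⟨h1, h2⟩ := ld_multi (n + 1) L β S hS0 hβS hgen
  refine ⟨h1.trans ?_, h2⟩
  rw [Fin.sum_univ_succ]
  have hterm : ∀ i, (1 / 2) * Real.log (4 * |(S i : ℝ)|) =
      (1 / 2) * Real.log 4 + (1 / 2) * Real.log |(S i : ℝ)| := by
    intro i
    rw [Real.log_mul (by norm_num) (by exact_mod_cast (abs_pos.2 (hS0 i)).ne')]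
    ring
  simp only [hterm]
  have hz0 : Real.log |(S 0 : ℝ)| ≤ 4 * ht (x 0) + Real.log 9 := by
    have := gint_le (x 0)
    rw [hS, Fin.cons_zero]
    exact this
  have hsum : ∑ i : Fin n, ((1 / 2) * Real.log 4 + (1 / 2) * Real.log |(S i.succ : ℝ)|) ≤
      ∑ i : Fin n, ((1 / 2) * Real.log 4 + (1 / 2) * (4 * (ht (x i.succ) - ht (x i.castSucc)) +
        ((J i.succ : ℝ) - J i.castSucc) * c₀)) := by
    refine Finset.sum_le_sum fun i _ => ?_
    have h3 := hlog i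
    have h4 : S i.succ = s i := by rw [hS, Fin.cons_succ]
    rw [h4]
    linarith
  have htele1 := tele n (fun i => ht (x i))
  have htele2 := tele n (fun i => (J i : ℝ))
  have hsum2 : ∑ i : Fin n, ((1 / 2) * Real.log 4 + (1 / 2) * (4 * (ht (x i.succ) - ht (x i.castSucc)) +
        ((J i.succ : ℝ) - J i.castSucc) * c₀)) =
      n * ((1 / 2) * Real.log 4) + 2 * (ht (x (Fin.last n)) - ht (x 0)) +
        (1 / 2) * c₀ * ((J (Fin.last n) : ℝ) - J 0) := by
    rw [← htele1, ← htele2, Finset.sum_add_distrib, Finset.sum_const, Finset.card_univ,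
      Fintype.card_fin, nsmul_eq_mul, Finset.mul_sum, Finset.mul_sum, add_assoc,
      ← Finset.sum_add_distrib]
    congr 1
    refine Finset.sum_congr rfl fun i _ => ?_
    ring
  have hl4 : 0 ≤ Real.log 4 := Real.log_nonneg (by norm_num)
  have hl9 : 0 ≤ Real.log 9 := Real.log_nonneg (by norm_num)
  have hc := c₀_nonneg
  have hJ0 : (0 : ℝ) ≤ (J 0 : ℝ) := Nat.cast_nonneg _
  have hJl : (0 : ℝ) ≤ (J (Fin.last n) : ℝ) := Nat.cast_nonneg _
  have hnn : (0 : ℝ) ≤ n := Nat.cast_nonneg _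
  have hm1 : 0 ≤ c₀ * (J 0 : ℝ) := mul_nonneg hc hJ0
  have hm2 : 0 ≤ c₀ * (J (Fin.last n) : ℝ) := mul_nonneg hc hJl
  have hm3 : 0 ≤ n * Real.log 4 := mul_nonneg hnn hl4
  have : ht (x (Fin.last n)) = ht (phi^[J (Fin.last n)] z) := rfl
  rw [← this]
  nlinarith

/-- a point over an orbit -/
theorem ld_orbit (n : ℕ) (z : ℚ) (hz : IsSquare (z ^ 3 - 2)) (J : Fin (n + 1) → ℕ)
    (L : Type) [Field L] [NumberField L] (y : Fin (n + 1) → L)
    (hy : ∀ i, y i ^ 2 = ((F (phi^[J i] z) : ℚ) : L))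
    (htop : IntermediateField.adjoin ℚ (Set.range y) = ⊤) :
    ∃ i, ld L ≤ 2 * ht (phi^[J i] z) + ((n + 1) * Real.log 4 + Real.log 9 + J i * c₀) ∧
      finrank ℚ L ≤ 2 ^ (n + 1) := by
  refine ⟨Tuple.sort J (Fin.last n), ?_⟩
  refine ld_mono_orbit n z hz (J ∘ Tuple.sort J) (Tuple.monotone_sort J) L (y ∘ Tuple.sort J)
    (fun i => hy _) ?_
  rw [(Tuple.sort J).surjective.range_comp]
  exact htop

end Pool.Agent.R338.Dbl
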