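import Mathlib
import Pool.Agent.R338.Fld

set_option autoImplicit false

/-!
Rational functions without rational poles, the main estimate and the growth of the heights.
-/

namespace Pool.Agent.R338.Dbl

open NumberField Module IntermediateField
open Pool.Agent.Y733.VR

/-- functions `P x / Q x` with `Q` without rational zeros -/
def IsRF (F : ℚ → ℚ) : Prop :=
  ∃ P Q : Polynomial ℚ, ∀ x : ℚ, Q.eval x ≠ 0 ∧ F x = P.eval x / Q.eval x

lemma IsRF.const (c : ℚ) : IsRF fun _ => c := ⟨Polynomial.C c, 1, fun x => by simp⟩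

lemma IsRF.id : IsRF fun x => x := ⟨Polynomial.X, 1, fun x => by simp⟩

lemma IsRF.add {F G : ℚ → ℚ} (hF : IsRF F) (hG : IsRF G) : IsRF fun x => F x + G x := by
  obtain ⟨P, Q, h⟩ := hF
  obtain ⟨R, S, k⟩ := hG
  refine ⟨P * S + R * Q, Q * S, fun x => ⟨?_, ?_⟩⟩
  · rw [Polynomial.eval_mul]
    exact mul_ne_zero (h x).1 (k x).1
  · simp only [Polynomial.eval_mul, Polynomial.eval_add]
    rw [(h x).2, (k x).2, div_add_div _ _ (h x).1 (k x).1]
    ring_nf

lemma IsRF.mul {F G : ℚ → ℚ} (hF : IsRF F) (hG : IsRF G) : IsRF fun x => F x * G x := by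
  obtain ⟨P, Q, h⟩ := hF
  obtain ⟨R, S, k⟩ := hG
  refine ⟨P * R, Q * S, fun x => ⟨?_, ?_⟩⟩
  · rw [Polynomial.eval_mul]
    exact mul_ne_zero (h x).1 (k x).1
  · simp only [Polynomial.eval_mul]
    rw [(h x).2, (k x).2, div_mul_div_comm]

lemma IsRF.inv {F : ℚ → ℚ} (hF : IsRF F) (h0 : ∀ x, F x ≠ 0) : IsRF fun x => (F x)⁻¹ := by
  obtain ⟨P, Q, h⟩ := hF
  refine ⟨Q, P, fun x => ⟨?_, ?_⟩⟩
  · intro h1
    apply h0 x
    rw [(h x).2, h1, zero_div]
  · simp only
    rw [(h x).2, inv_div]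

lemma IsRF.pow {F : ℚ → ℚ} (hF : IsRF F) (n : ℕ) : IsRF fun x => F x ^ n := by
  induction n with
  | zero => simpa using IsRF.const 1
  | succ n ih => simpa [pow_succ] using ih.mul hF

lemma IsRF.phi {F : ℚ → ℚ} (hF : IsRF F) : IsRF fun x => phi (F x) := by
  have h : (fun x => Dbl.phi (F x)) =
      fun x => (F x * (F x ^ 3 + 16)) * (4 * (F x ^ 3 + (-2)))⁻¹ := by
    funext x
    unfold Dbl.phi
    rw [div_eq_mul_inv]
    ring_nf
  rw [h]
  refine (hF.mul ((hF.pow 3).add (IsRF.const 16))).mul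
    (((IsRF.const 4).mul ((hF.pow 3).add (IsRF.const (-2)))).inv fun x => ?_)
  have := cube_ne (F x)
  intro h0
  apply this
  simp only [mul_eq_zero] at h0
  rcases h0 with h0 | h0
  · norm_num at h0
  · linarith

lemma IsRF.iter (j : ℕ) : IsRF fun x => Dbl.phi^[j] x := by
  induction j with
  | zero => simpa using IsRF.id
  | succ j ih =>
    simp only [Function.iterate_succ_apply']
    exact ih.phi

lemma IsRF.eval {n : ℕ} (a : ℚ → Fin n → ℚ) (ha : ∀ i, IsRF fun x => a x i)
    (G : MvPolynomial (Fin n) ℚ) : IsRF fun x => MvPolynomial.eval (a x) G := by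
  induction G using MvPolynomial.induction_on with
  | C c => simpa using IsRF.const c
  | add p q hp hq => simpa using hp.add hq
  | mul_X p i hp => simpa using hp.mul (ha i)

lemma IsRF.eq_zero {F : ℚ → ℚ} (hF : IsRF F) (h : {x | F x = 0}.Infinite) (x : ℚ) : F x = 0 := by
  obtain ⟨P, Q, k⟩ := hF
  have hP : P = 0 := by
    refine Polynomial.eq_zero_of_infinite_isRoot P (h.mono fun x hx => ?_)
    have h1 : F x = 0 := hx
    rw [(k x).2, div_eq_zero_iff] at h1
    exact h1.resolve_right (k x).1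
  rw [(k x).2, hP, Polynomial.eval_zero, zero_div]

/-- the orbit -/
noncomputable def X (i : ℕ) : ℚ := phi^[i] (129 / 100)

lemma ht_X0 : Real.log 1008 + 1 ≤ 3 * ht (129 / 100) := by
  have h1 : ht (129 / 100) = Real.log 129 := by
    unfold ht
    have e1 : ((129 : ℚ) / 100).num = 129 := by
      norm_num
    have e2 : ((129 : ℚ) / 100).den = 100 := by
      norm_num
    rw [e1, e2]
    norm_num
  rw [h1]
  have h2 : (1 : ℝ) ≤ Real.log 3 := by
    rw [Real.le_log_iff_exp_le (by norm_num)]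
    exact Real.exp_one_lt_d9.le.trans (by norm_num)
  have h3 : 3 * Real.log 129 = Real.log (129 ^ 3) := by
    rw [Real.log_pow]; norm_num
  rw [h3]
  calc Real.log 1008 + 1 ≤ Real.log 1008 + Real.log 3 := by linarith
    _ = Real.log (1008 * 3) := by rw [Real.log_mul (by norm_num) (by norm_num)]
    _ ≤ Real.log (129 ^ 3) := Real.log_le_log (by norm_num) (by norm_num)

lemma X_succ (i : ℕ) : X (i + 1) = phi (X i) := by
  unfold X
  rw [Function.iterate_succ_apply']

lemma X_add (i j : ℕ) : phi^[j] (X i) = X (i + j) := by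
  unfold X
  rw [← Function.iterate_add_apply, add_comm]

lemma ht_X_ge (i : ℕ) : (Real.log 1008 + 4 ^ i) / 3 ≤ ht (X i) := by
  induction i with
  | zero =>
    have := ht_X0
    unfold X
    simp only [Function.iterate_zero, id_eq, pow_zero]
    linarith
  | succ i ih =>
    have h1 := ht_phi_ge (X i)
    rw [X_succ]
    rw [pow_succ]
    linarith

lemma ht_X_tendsto : Filter.Tendsto (fun i => ht (X i)) Filter.atTop Filter.atTop := by
  have h1 : Filter.Tendsto (fun i : ℕ => (Real.log 1008 + 4 ^ i) / 3) Filter.atTop Filter.atTop := by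
    apply Filter.Tendsto.atTop_div_const (by norm_num)
    apply Filter.tendsto_atTop_add_const_left
    exact tendsto_pow_atTop_atTop_of_one_lt (by norm_num)
  exact Filter.tendsto_atTop_mono ht_X_ge h1

lemma ht_lt_succ (i : ℕ) : ht (X i) < ht (X (i + 1)) := by
  have h1 := ht_phi_ge (X i)
  have h2 := ht_X_ge i
  have h3 : (0 : ℝ) < 4 ^ i := by positivity
  rw [X_succ]
  linarith

lemma X_injective : Function.Injective X :=
  Function.Injective.of_comp (f := ht) (strictMono_nat_of_lt_succ ht_lt_succ).injective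

lemma X_sq (i : ℕ) : IsSquare ((X i) ^ 3 - 2) := by
  unfold X
  apply sq_iter
  exact ⟨383 / 1000, by norm_num⟩

lemma ht_iter_le (j : ℕ) (x : ℚ) : ht (phi^[j] x) ≤ 4 ^ j * (ht x + Real.log 17) - Real.log 17 := by
  induction j with
  | zero => simp
  | succ j ih =>
    rw [Function.iterate_succ_apply', pow_succ]
    have h1 := ht_phi_le (phi^[j] x)
    have h2 : 0 ≤ Real.log 17 := Real.log_nonneg (by norm_num)
    nlinarith

lemma ht_iter_ge (j : ℕ) (x : ℚ) :
    4 ^ j * (ht x - Real.log 1008 / 3) + Real.log 1008 / 3 ≤ ht (phi^[j] x) := by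
  induction j with
  | zero => simp
  | succ j ih =>
    rw [Function.iterate_succ_apply', pow_succ]
    have h1 := ht_phi_ge (phi^[j] x)
    linarith

/-- the main estimate: if Vojta's inequality holds off `G = 0`, then `G` vanishes along the curve
`(phi^[J 0], …, phi^[J n])` -/
theorem main (n : ℕ) (G : MvPolynomial (Fin (n + 1)) ℚ) (ψ : ℝ → ℝ) (ε : ℝ) (hε : 0 ≤ ε)
    (hψ : ∃ C T : ℝ, ∀ t, T ≤ t → ψ t ≤ ε * t + C)
    (hV : ∀ (L : Type) [Field L] [NumberField L] (x : Fin (n + 1) → ℚ) (y : Fin (n + 1) → L),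
      (∀ i, y i ^ 2 = ((F (x i) : ℚ) : L)) → IntermediateField.adjoin ℚ (Set.range y) = ⊤ →
      finrank ℚ L ≤ 2 ^ (n + 1) → MvPolynomial.eval x G ≠ 0 →
      2 * ∑ i, ht (x i) ≤ ld L + ψ (∑ i, ht (x i)))
    (J : Fin (n + 1) → ℕ) (M : ℕ) (hM : ∀ i, J i ≤ M)
    (hJ : ε * ∑ i, (4 : ℝ) ^ J i < 2 * (∑ i, (4 : ℝ) ^ J i - 4 ^ M)) (x : ℚ) :
    MvPolynomial.eval (fun i => phi^[J i] x) G = 0 := by
  -- the function vanishes at almost all points of the orbit
  suffices h : ∀ᶠ k in Filter.atTop, MvPolynomial.eval (fun i => phi^[J i] (X k)) G = 0 by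
    refine IsRF.eq_zero (IsRF.eval (fun x i => phi^[J i] x) (fun i => IsRF.iter (J i)) G) ?_ x
    obtain ⟨N, hN⟩ := Filter.eventually_atTop.1 h
    refine (Set.infinite_of_injective_forall_mem (f := fun k : ℕ => X (N + k)) ?_ ?_)
    · intro a b hab
      have := X_injective hab
      omega
    · intro k
      exact hN _ (Nat.le_add_right _ _)
  obtain ⟨C, T, hψ⟩ := hψ
  set S : ℝ := ∑ i, (4 : ℝ) ^ J i with hS
  have hS1 : 1 ≤ S := by
    have h1 : (4 : ℝ) ^ J 0 ≤ S :=
      Finset.single_le_sum (f := fun i => (4 : ℝ) ^ J i) (fun i _ => by positivity)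
        (Finset.mem_univ 0)
    have h2 : (1 : ℝ) ≤ 4 ^ J 0 := one_le_pow₀ (by norm_num)
    linarith
  set a : ℝ := Real.log 17 with ha
  set b : ℝ := Real.log 1008 / 3 with hb
  have ha0 : 0 ≤ a := Real.log_nonneg (by norm_num)
  have hb0 : 0 ≤ b := div_nonneg (Real.log_nonneg (by norm_num)) (by norm_num)
  set C1 : ℝ := (n + 1) * Real.log 4 + Real.log 9 + M * c₀ with hC1
  set δ : ℝ := 2 * (S - 4 ^ M) - ε * S with hδ
  have hδ0 : 0 < δ := by linarith
  have hev : ∀ᶠ k in Filter.atTop,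
      max ((C + C1 + 2 * S * b + ε * S * a + 2 * 4 ^ M * a) / δ + 1) ((T + S * b)) ≤ ht (X k) :=
    ht_X_tendsto.eventually_ge_atTop _
  filter_upwards [hev] with k hk
  by_contra hne
  obtain ⟨hk1, hk2⟩ := max_le_iff.1 hk
  set z := X k with hz
  set x' : Fin (n + 1) → ℚ := fun i => phi^[J i] z with hx'
  -- the field
  have hroot : ∀ i, ∃ y : ℂ, y ^ 2 = ((F (x' i) : ℚ) : ℂ) := fun i =>
    IsAlgClosed.exists_pow_nat_eq _ (by norm_num)
  choose y hy using hroot
  set K : IntermediateField ℚ ℂ := IntermediateField.adjoin ℚ (Set.range y) with hK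
  have hint : ∀ i, IsIntegral ℚ (y i) := by
    intro i
    refine ⟨Polynomial.X ^ 2 - Polynomial.C (F (x' i)), Polynomial.monic_X_pow_sub_C _ (by norm_num), ?_⟩
    rw [Polynomial.eval₂_sub, Polynomial.eval₂_pow, Polynomial.eval₂_X, Polynomial.eval₂_C, hy i]
    simp
  have hfd : FiniteDimensional ℚ K := by
    rw [hK]
    exact IntermediateField.finiteDimensional_adjoin (by rintro _ ⟨i, rfl⟩; exact hint i)
  have hNF : NumberField K := { to_charZero := inferInstance, to_finiteDimensional := hfd }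
  have hmem : ∀ i, y i ∈ K := fun i => IntermediateField.subset_adjoin ℚ _ ⟨i, rfl⟩
  have hy' : ∀ i, (⟨y i, hmem i⟩ : K) ^ 2 = ((F (x' i) : ℚ) : K) := by
    intro i
    apply Subtype.ext
    have := hy i
    simpa using this
  have htop : IntermediateField.adjoin ℚ (Set.range fun i => (⟨y i, hmem i⟩ : K)) = ⊤ := by
    apply adjoin_self_top
    rw [← Set.range_comp]
    rfl
  obtain ⟨i, hi1, hi2⟩ := ld_orbit n z (X_sq k) J K (fun i => ⟨y i, hmem i⟩) hy' htop
  have h := hV K x' (fun i => ⟨y i, hmem i⟩) hy' htop hi2 hne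
  -- estimates
  have hzb : b ≤ ht z := by
    have := ht_X_ge k
    have h4 : (0 : ℝ) < 4 ^ k := by positivity
    rw [← hz] at this
    rw [hb]
    linarith
  have hlow : S * (ht z - b) ≤ ∑ i, ht (x' i) := by
    rw [hS, Finset.sum_mul]
    refine Finset.sum_le_sum fun i _ => ?_
    have := ht_iter_ge (J i) z
    rw [← hb] at this
    have e : x' i = phi^[J i] z := rfl
    rw [e]
    linarith
  have hupp : ∑ i, ht (x' i) ≤ S * (ht z + a) := by
    rw [hS, Finset.sum_mul]
    refine Finset.sum_le_sum fun i _ => ?_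
    have := ht_iter_le (J i) z
    rw [← ha] at this
    have e : x' i = phi^[J i] z := rfl
    rw [e]
    linarith
  have hi3 : ht (phi^[J i] z) ≤ 4 ^ M * (ht z + a) := by
    have h1 := ht_iter_le (J i) z
    rw [← ha] at h1
    have h2 : (4 : ℝ) ^ J i ≤ 4 ^ M := pow_le_pow_right₀ (by norm_num) (hM i)
    have h3 : 0 ≤ ht z + a := by linarith [ht_nonneg z]
    nlinarith
  have hi4 : (J i : ℝ) * c₀ ≤ M * c₀ :=
    mul_le_mul_of_nonneg_right (by exact_mod_cast hM i) c₀_nonneg
  have hψ1 := hψ (∑ i, ht (x' i)) (by nlinarith)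
  have hε1 : ε * ∑ i, ht (x' i) ≤ ε * (S * (ht z + a)) := mul_le_mul_of_nonneg_left hupp hε
  have hfin : δ * ht z ≤ C + C1 + 2 * S * b + ε * S * a + 2 * 4 ^ M * a := by
    rw [hδ, hC1]
    nlinarith
  have : ht z ≤ (C + C1 + 2 * S * b + ε * S * a + 2 * 4 ^ M * a) / δ := by
    rw [le_div_iff₀ hδ0]
    linarith
  linarith

end Pool.Agent.R338.Dbl
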