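import Mathlib
import Pool.Agent.R338.Rat

set_option autoImplicit false

/-!
Polynomials in two variables which vanish at the points `(z, phi^[j] z)`, `z` in the orbit.
-/

namespace Pool.Agent.R338.Dbl

open Polynomial

/-- numerator and denominator of `phi^[j]` -/
noncomputable def PQ : ℕ → ℚ[X] × ℚ[X]
  | 0 => (Polynomial.X, 1)
  | j + 1 => ((PQ j).1 * ((PQ j).1 ^ 3 + 16 * (PQ j).2 ^ 3),
      4 * (PQ j).2 * ((PQ j).1 ^ 3 - 2 * (PQ j).2 ^ 3))

lemma PQ_eval (j : ℕ) (x : ℚ) : (PQ j).2.eval x ≠ 0 ∧ phi^[j] x = (PQ j).1.eval x / (PQ j).2.eval x := by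
  induction j with
  | zero => simp [PQ]
  | succ j ih =>
    obtain ⟨h1, h2⟩ := ih
    have h3 := cube_ne (phi^[j] x)
    rw [h2] at h3
    have h4 : (PQ j).1.eval x ^ 3 - 2 * (PQ j).2.eval x ^ 3 ≠ 0 := by
      intro h0
      apply h3
      rw [div_pow, sub_eq_zero, div_eq_iff (pow_ne_zero _ h1)]
      linarith
    refine ⟨?_, ?_⟩
    · show (4 * (PQ j).2 * ((PQ j).1 ^ 3 - 2 * (PQ j).2 ^ 3)).eval x ≠ 0
      simp only [eval_mul, eval_sub, eval_pow, eval_ofNat]
      exact mul_ne_zero (mul_ne_zero (by norm_num) h1) h4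
    · rw [Function.iterate_succ_apply', h2]
      show phi _ = ((PQ j).1 * ((PQ j).1 ^ 3 + 16 * (PQ j).2 ^ 3)).eval x /
        (4 * (PQ j).2 * ((PQ j).1 ^ 3 - 2 * (PQ j).2 ^ 3)).eval x
      simp only [eval_mul, eval_sub, eval_pow, eval_ofNat, eval_add]
      unfold phi
      field_simp

lemma PQ_coprime (j : ℕ) : IsCoprime (PQ j).1 (PQ j).2 := by
  induction j with
  | zero => exact isCoprime_one_right
  | succ j ih =>
    set p := (PQ j).1
    set q := (PQ j).2
    show IsCoprime (p * (p ^ 3 + 16 * q ^ 3)) (4 * q * (p ^ 3 - 2 * q ^ 3))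
    have u4 : IsUnit (4 : ℚ[X]) := by
      have : (4 : ℚ[X]) = C 4 := rfl
      rw [this]
      exact isUnit_C.2 (by norm_num)
    have h1 : IsCoprime p (4 * q) := (isCoprime_mul_unit_left_right u4 p q).2 ih
    have hpq3 : IsCoprime p (q ^ 3) := ih.pow_right
    have hp3q3 : IsCoprime (p ^ 3) (q ^ 3) := hpq3.pow_left
    have hp3q : IsCoprime (p ^ 3) q := ih.pow_left
    have u2 : IsUnit (-2 : ℚ[X]) := by
      have : (-2 : ℚ[X]) = C (-2) := by rw [C_neg]; rfl
      rw [this]
      exact isUnit_C.2 (by norm_num)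
    have u18 : IsUnit (18 : ℚ[X]) := by
      have : (18 : ℚ[X]) = C 18 := rfl
      rw [this]
      exact isUnit_C.2 (by norm_num)
    have h2 : IsCoprime p (p ^ 3 - 2 * q ^ 3) := by
      have h3 : IsCoprime p (-2 * q ^ 3) := (isCoprime_mul_unit_left_right u2 p (q ^ 3)).2 hpq3
      have e : p ^ 3 - 2 * q ^ 3 = -2 * q ^ 3 + p * p ^ 2 := by ring
      rw [e]
      exact h3.add_mul_left_right _
    have h3 : IsCoprime (p ^ 3 + 16 * q ^ 3) (4 * q) := by
      have h4 : IsCoprime (p ^ 3) (4 * q) := (isCoprime_mul_unit_left_right u4 _ q).2 hp3q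
      have e : p ^ 3 + 16 * q ^ 3 = p ^ 3 + (4 * q) * (4 * q ^ 2) := by ring
      rw [e]
      exact h4.add_mul_left_left _
    have h4 : IsCoprime (p ^ 3 + 16 * q ^ 3) (p ^ 3 - 2 * q ^ 3) := by
      -- difference `18 q ^ 3`
      have h5 : IsCoprime (18 * q ^ 3) (p ^ 3 - 2 * q ^ 3) := by
        have h6 : IsCoprime (18 * q ^ 3) (p ^ 3) :=
          (isCoprime_mul_unit_left_left u18 _ _).2 hp3q3.symm
        have e : p ^ 3 - 2 * q ^ 3 = p ^ 3 + (18 * q ^ 3) * C (-1 / 9) := by
          have : (18 : ℚ[X]) * C (-1 / 9) = -2 := by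
            have h : (18 : ℚ[X]) = C 18 := rfl
            have h' : (18 * (-1 / 9) : ℚ) = -2 := by norm_num
            rw [h, ← C_mul, h', C_neg]
            rfl
          calc p ^ 3 - 2 * q ^ 3 = p ^ 3 + (-2) * q ^ 3 := by ring
            _ = p ^ 3 + (18 * C (-1 / 9)) * q ^ 3 := by rw [this]
            _ = _ := by ring
        rw [e]
        exact h6.add_mul_left_right _
      have e : p ^ 3 + 16 * q ^ 3 = 18 * q ^ 3 + (p ^ 3 - 2 * q ^ 3) * 1 := by ring
      rw [e]
      exact h5.add_mul_left_left _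
    exact IsCoprime.mul_left (IsCoprime.mul_right h1 h2) (IsCoprime.mul_right h3 h4)

lemma PQ_degree (j : ℕ) : (PQ j).1.Monic ∧ (PQ j).1.natDegree = 4 ^ j ∧
    (PQ j).2.natDegree < 4 ^ j := by
  induction j with
  | zero => simp [PQ, monic_X]
  | succ j ih =>
    obtain ⟨h1, h2, h3⟩ := ih
    set p := (PQ j).1
    set q := (PQ j).2
    show (p * (p ^ 3 + 16 * q ^ 3)).Monic ∧ (p * (p ^ 3 + 16 * q ^ 3)).natDegree = 4 ^ (j + 1) ∧
      (4 * q * (p ^ 3 - 2 * q ^ 3)).natDegree < 4 ^ (j + 1)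
    have hp3 : (p ^ 3).natDegree = 3 * 4 ^ j := by rw [natDegree_pow, h2]
    have hq3 : (q ^ 3).natDegree ≤ 3 * q.natDegree := natDegree_pow_le
    have h16 : (16 * q ^ 3).natDegree < (p ^ 3).natDegree := by
      have e : (16 : ℚ[X]) = C 16 := rfl
      rw [e]
      have := natDegree_C_mul_le (16 : ℚ) (q ^ 3)
      omega
    have hm3 : (p ^ 3).Monic := h1.pow 3
    have hmon : (p ^ 3 + 16 * q ^ 3).Monic :=
      hm3.add_of_left (degree_lt_degree h16)
    have hdeg : (p ^ 3 + 16 * q ^ 3).natDegree = 3 * 4 ^ j := by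
      rw [natDegree_add_eq_left_of_natDegree_lt h16, hp3]
    refine ⟨h1.mul hmon, ?_, ?_⟩
    · rw [h1.natDegree_mul hmon, h2, hdeg]
      ring
    · have e1 : (4 * q).natDegree ≤ q.natDegree := by
        have e : (4 : ℚ[X]) = C 4 := rfl
        rw [e]
        exact natDegree_C_mul_le _ _
      have e2 : (p ^ 3 - 2 * q ^ 3).natDegree ≤ 3 * 4 ^ j := by
        refine (natDegree_sub_le _ _).trans (max_le hp3.le ?_)
        have e : (2 : ℚ[X]) = C 2 := rfl
        rw [e]
        have := natDegree_C_mul_le (2 : ℚ) (q ^ 3)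
        omega
      have e3 := natDegree_mul_le (p := 4 * q) (q := p ^ 3 - 2 * q ^ 3)
      have e4 : 4 ^ (j + 1) = 4 * 4 ^ j := by ring
      omega

/-- the linear polynomial `Q_j Y - P_j` -/
noncomputable def lin (j : ℕ) : ℚ[X][X] := C (PQ j).2 * Polynomial.X - C (PQ j).1

lemma lin_primitive (j : ℕ) : (lin j).IsPrimitive := by
  intro r hr
  rw [C_dvd_iff_dvd_coeff] at hr
  have h1 := hr 1
  have h0 := hr 0
  unfold lin at h1 h0
  simp only [coeff_sub, coeff_C_mul, coeff_X_one, mul_one, coeff_X_zero, mul_zero, coeff_C_zero,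
    zero_sub, dvd_neg] at h1 h0
  rw [coeff_C_of_ne_zero one_ne_zero, sub_zero] at h1
  exact (PQ_coprime j).isUnit_of_dvd' h0 h1

lemma lin_dvd_aux (K : Type) [Field K] [Algebra ℚ[X] K] [IsFractionRing ℚ[X] K] (j : ℕ)
    (H : ℚ[X][X]) (h : ∀ k, H.evalEval (Dbl.X k) (Dbl.X (k + j)) = 0) :
    lin j ∣ H := by
  set P := (PQ j).1 with hP
  set Q := (PQ j).2 with hQ
  have hQ0 : Q ≠ 0 := by
    intro h0
    have := (PQ_eval j 0).1
    rw [← hQ, h0] at this
    simp at this
  have hQK : algebraMap ℚ[X] K Q ≠ 0 := by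
    rw [Ne, IsFractionRing.to_map_eq_zero_iff]
    exact hQ0
  apply (lin_primitive j).dvd_of_fraction_map_dvd_fraction_map (K := K)
  -- the homogenized value
  set W : ℚ[X] := ∑ l ∈ Finset.range (H.natDegree + 1), H.coeff l * (P ^ l * Q ^ (H.natDegree - l))
    with hW
  have hW0 : W = 0 := by
    refine Polynomial.eq_zero_of_infinite_isRoot W
      ((Set.infinite_range_of_injective X_injective).mono ?_)
    rintro _ ⟨k, rfl⟩
    show W.eval (Dbl.X k) = 0
    obtain ⟨h1, h2⟩ := PQ_eval j (Dbl.X k)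
    rw [← hQ] at h1
    rw [← hP, ← hQ, X_add] at h2
    have h3 : W.eval (Dbl.X k) = Q.eval (Dbl.X k) ^ H.natDegree * H.evalEval (Dbl.X k) (Dbl.X (k + j)) := by
      have e0 : eval (C (Dbl.X (k + j))) H =
          ∑ i ∈ Finset.range (H.natDegree + 1), H.coeff i * (C (Dbl.X (k + j))) ^ i :=
        eval_eq_sum_range _
      rw [hW, eval_finsetSum, evalEval, e0, eval_finsetSum, Finset.mul_sum]
      refine Finset.sum_congr rfl fun l hl => ?_
      have hl' : l ≤ H.natDegree := by
        have := Finset.mem_range.1 hl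
        omega
      rw [eval_mul, eval_mul, eval_pow, eval_pow, eval_mul, eval_pow, eval_C, h2, div_pow]
      have e : Q.eval (Dbl.X k) ^ H.natDegree =
          Q.eval (Dbl.X k) ^ l * Q.eval (Dbl.X k) ^ (H.natDegree - l) := by
        rw [← pow_add]
        congr 1
        omega
      rw [e]
      field_simp
    rw [h3, h k, mul_zero]
  have hroot : (H.map (algebraMap ℚ[X] K)).IsRoot (algebraMap ℚ[X] K P / algebraMap ℚ[X] K Q) := by
    rw [IsRoot.def, eval_map, eval₂_eq_sum_range]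
    have h3 : algebraMap ℚ[X] K Q ^ H.natDegree * (∑ l ∈ Finset.range (H.natDegree + 1),
        algebraMap ℚ[X] K (H.coeff l) * (algebraMap ℚ[X] K P / algebraMap ℚ[X] K Q) ^ l) =
        algebraMap ℚ[X] K W := by
      rw [hW, map_sum, Finset.mul_sum]
      refine Finset.sum_congr rfl fun l hl => ?_
      have hl' : l ≤ H.natDegree := by
        have := Finset.mem_range.1 hl
        omega
      rw [map_mul, map_mul, map_pow, map_pow, div_pow]
      have e : algebraMap ℚ[X] K Q ^ H.natDegree =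
          algebraMap ℚ[X] K Q ^ l * algebraMap ℚ[X] K Q ^ (H.natDegree - l) := by
        rw [← pow_add]
        congr 1
        omega
      rw [e]
      field_simp
    rw [hW0, map_zero] at h3
    exact (mul_eq_zero.1 h3).resolve_left (pow_ne_zero _ hQK)
  have h4 := dvd_iff_isRoot.2 hroot
  have h5 : (lin j).map (algebraMap ℚ[X] K) =
      C (algebraMap ℚ[X] K Q) * (Polynomial.X - C (algebraMap ℚ[X] K P / algebraMap ℚ[X] K Q)) := by
    unfold lin
    rw [← hP, ← hQ, Polynomial.map_sub, Polynomial.map_mul, map_C, map_C, map_X, mul_sub, ← C_mul,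
      mul_div_cancel₀ _ hQK]
  rw [h5]
  have hu : IsUnit (C (algebraMap ℚ[X] K Q)) := isUnit_C.2 (isUnit_iff_ne_zero.2 hQK)
  exact (hu.mul_left_dvd).2 h4

lemma lin_dvd (j : ℕ) (H : ℚ[X][X]) (h : ∀ k, H.evalEval (Dbl.X k) (Dbl.X (k + j)) = 0) :
    lin j ∣ H := lin_dvd_aux (FractionRing ℚ[X]) j H h

/-- from two variables to a polynomial over `ℚ[X]` -/
noncomputable def toBi : MvPolynomial (Fin 2) ℚ →ₐ[ℚ] ℚ[X][X] :=
  MvPolynomial.aeval ![C Polynomial.X, Polynomial.X]

/-- and back -/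
noncomputable def ofBi : ℚ[X][X] →+* MvPolynomial (Fin 2) ℚ :=
  eval₂RingHom ((Polynomial.aeval (MvPolynomial.X 0)).toRingHom) (MvPolynomial.X 1)

lemma ofBi_toBi (G : MvPolynomial (Fin 2) ℚ) : ofBi (toBi G) = G := by
  induction G using MvPolynomial.induction_on with
  | C c =>
    unfold toBi
    rw [MvPolynomial.aeval_C]
    have : algebraMap ℚ ℚ[X][X] c = C (C c) := rfl
    rw [this]
    unfold ofBi
    simp [MvPolynomial.algebraMap_eq]
  | add p q hp hq => rw [map_add, map_add, hp, hq]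
  | mul_X p i hp =>
    rw [map_mul, map_mul, hp]
    congr 1
    unfold toBi ofBi
    fin_cases i <;> simp

lemma toBi_eval (G : MvPolynomial (Fin 2) ℚ) (a b : ℚ) :
    (toBi G).evalEval a b = MvPolynomial.eval ![a, b] G := by
  induction G using MvPolynomial.induction_on with
  | C c =>
    unfold toBi
    rw [MvPolynomial.aeval_C, MvPolynomial.eval_C]
    exact evalEval_CC a b c
  | add p q hp hq => rw [map_add, map_add, evalEval_add, hp, hq]
  | mul_X p i hp =>
    rw [map_mul, map_mul, evalEval_mul, hp]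
    congr 1
    unfold toBi
    fin_cases i
    · simpa using evalEval_C a b (Polynomial.X : ℚ[X])
    · simp

/-- the linear factor -/
noncomputable def Lin (j : ℕ) : MvPolynomial (Fin 2) ℚ := ofBi (lin j)

lemma Lin_eval (j : ℕ) (a b : ℚ) :
    MvPolynomial.eval ![a, b] (Lin j) = (PQ j).2.eval a * b - (PQ j).1.eval a := by
  unfold Lin lin ofBi
  simp only [map_sub, map_mul, coe_eval₂RingHom, eval₂_C, eval₂_X, MvPolynomial.eval_X]
  have h : ∀ p : ℚ[X], MvPolynomial.eval ![a, b] ((Polynomial.aeval (MvPolynomial.X 0 :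
      MvPolynomial (Fin 2) ℚ)).toRingHom p) = p.eval a := by
    intro p
    induction p using Polynomial.induction_on' with
    | add p q hp hq => rw [map_add, map_add, eval_add, hp, hq]
    | monomial n c => simp [Polynomial.aeval_monomial, MvPolynomial.algebraMap_eq]
  rw [h, h]
  simp

lemma Lin_degree (j : ℕ) : 4 ^ j ≤ (Lin j).degreeOf 0 := by
  set p : ℚ[X] := (MvPolynomial.finSuccEquiv ℚ 1 (Lin j)).map (MvPolynomial.eval ![0]) with hp
  have h1 : p.natDegree ≤ (Lin j).degreeOf 0 := by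
    rw [← MvPolynomial.natDegree_finSuccEquiv]
    exact natDegree_map_le
  have h2 : p = -(PQ j).1 := by
    apply Polynomial.funext
    intro x
    rw [hp, ← MvPolynomial.eval_eq_eval_mv_eval']
    have : (Fin.cons x ![0] : Fin 2 → ℚ) = ![x, 0] := rfl
    rw [this, Lin_eval]
    simp
  rw [h2, natDegree_neg, (PQ_degree j).2.1] at h1
  exact h1

lemma step (j : ℕ) (G : MvPolynomial (Fin 2) ℚ)
    (h : ∀ k, MvPolynomial.eval ![Dbl.X k, Dbl.X (k + j)] G = 0) : ∃ G', G = Lin j * G' := by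
  obtain ⟨H, hH⟩ := lin_dvd j (toBi G) (fun k => by rw [toBi_eval, h k])
  refine ⟨ofBi H, ?_⟩
  rw [← ofBi_toBi G, hH, map_mul]
  rfl

/-- polynomials which vanish at the points `(z, phi^[j] z)` for `j < n` have large degree -/
theorem degree_ge (n : ℕ) : ∀ (G : MvPolynomial (Fin 2) ℚ), G ≠ 0 →
    (∀ j < n, ∀ k, MvPolynomial.eval ![Dbl.X k, Dbl.X (k + j)] G = 0) →
    ∑ j ∈ Finset.range n, 4 ^ j ≤ G.degreeOf 0 := by
  induction n with
  | zero => intro G _ _; simp
  | succ n ih =>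
    intro G hG h
    obtain ⟨G', hG'⟩ := step n G (h n (Nat.lt_succ_self n))
    have hG'0 : G' ≠ 0 := by
      rintro rfl
      apply hG
      rw [hG', mul_zero]
    have hL0 : Lin n ≠ 0 := by
      intro h0
      apply hG
      rw [hG', h0, zero_mul]
    have h1 := ih G' hG'0 (fun j hj k => by
      have h2 := h j (Nat.lt_succ_of_lt hj) k
      rw [hG', map_mul, mul_eq_zero] at h2
      refine h2.resolve_left ?_
      rw [Lin_eval]
      obtain ⟨h3, h4⟩ := PQ_eval n (Dbl.X k)
      rw [X_add] at h4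
      intro h5
      have h6 : Dbl.X (k + j) = Dbl.X (k + n) := by
        rw [h4, eq_div_iff h3]
        linarith
      have := X_injective h6
      omega)
    rw [hG', MvPolynomial.degreeOf_mul_eq hL0 hG'0, Finset.sum_range_succ]
    have := Lin_degree n
    omega

end Pool.Agent.R338.Dbl
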