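import Mathlib
import Pool.Agent.R338.Rat

set_option autoImplicit false

/-!
Points of `y ^ 2 = (x ^ 3 - 2) (x - 3) R (x)` over the abscissae of the points `(2 ^ j + 1) Q`,
`Q = (3, 5)`, of `w ^ 2 = x ^ 3 - 2`.
-/

namespace Pool.Agent.R338.Dbl

open NumberField Module IntermediateField Height
open Pool.Agent.Y733.VR

lemma ht_eq (x : ℚ) : ht x = logHeight₁ x := by
  unfold ht
  rw [logHeight₁_eq_log_mulHeight₁, Rat.mulHeight₁_eq_max]

lemma hadd (x y : ℚ) : ht (x + y) ≤ ht x + ht y + Real.log 2 := by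
  have h := logHeight₁_add_le x y
  rw [totalWeight_eq_finrank, finrank_self] at h
  rw [ht_eq, ht_eq, ht_eq]
  push_cast at h
  linarith

lemma hneg (x : ℚ) : ht (-x) = ht x := by rw [ht_eq, ht_eq, logHeight₁_neg]

lemma hsub (x y : ℚ) : ht (x - y) ≤ ht x + ht y + Real.log 2 := by
  have h := hadd x (-y)
  rwa [hneg, ← sub_eq_add_neg] at h

lemma hmul (x y : ℚ) : ht (x * y) ≤ ht x + ht y := by
  rw [ht_eq, ht_eq, ht_eq]; exact logHeight₁_mul_le x y

lemma hdiv (x y : ℚ) : ht (x / y) ≤ ht x + ht y := by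
  have h := hmul x y⁻¹
  rwa [ht_eq y⁻¹, logHeight₁_inv, ← ht_eq, ← div_eq_mul_inv] at h

lemma hpow (x : ℚ) (n : ℕ) : ht (x ^ n) = n * ht x := by
  rw [ht_eq, ht_eq, logHeight₁_pow]

/-- the points `2 ^ (j + 1) Q` -/
noncomputable def P : ℕ → ℚ × ℚ
  | 0 => (129 / 100, -383 / 1000)
  | j + 1 => (phi (P j).1, ((P j).1 ^ 6 - 40 * (P j).1 ^ 3 - 32) / (8 * (P j).2 ^ 3))

lemma P_eq (j : ℕ) : (P j).2 ^ 2 = (P j).1 ^ 3 - 2 := by
  induction j with
  | zero => norm_num [P]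
  | succ j ih => exact sq_phi ih

lemma P_fst (j : ℕ) : (P j).1 = X j := by
  induction j with
  | zero => simp [P, X]
  | succ j ih =>
    rw [X_succ, ← ih]
    rfl

lemma P_snd_ne (j : ℕ) : (P j).2 ≠ 0 := by
  intro h
  have h1 := P_eq j
  rw [h] at h1
  apply cube_ne (P j).1
  rw [← h1]
  ring

/-- the `2`-adic valuation -/
noncomputable def v (x : ℚ) : ℤ := padicValRat 2 x

lemma v_add_of_lt {x y : ℚ} (hx : x ≠ 0) (hy : y ≠ 0) (h : v x < v y) : x + y ≠ 0 ∧ v (x + y) = v x := by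
  have hxy : x + y ≠ 0 := by
    intro h0
    have h1 : x = -y := by linarith
    rw [h1] at h
    unfold v at h
    rw [padicValRat.neg] at h
    exact lt_irrefl _ h
  refine ⟨hxy, ?_⟩
  unfold v at h ⊢
  exact padicValRat.add_eq_of_lt hxy hx hy h

lemma v_mul {x y : ℚ} (hx : x ≠ 0) (hy : y ≠ 0) : v (x * y) = v x + v y :=
  padicValRat.mul hx hy

lemma v_div {x y : ℚ} (hx : x ≠ 0) (hy : y ≠ 0) : v (x / y) = v x - v y :=
  padicValRat.div hx hy

lemma v_pow {x : ℚ} (_hx : x ≠ 0) (n : ℕ) : v (x ^ n) = n * v x := by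
  unfold v
  exact padicValRat.pow x

lemma v_int (n : ℤ) : v n = padicValInt 2 n := padicValRat.of_int

lemma vnat (n : ℕ) (k : ℕ) (m : ℕ) (h : n = 2 ^ k * m) (hm : m % 2 = 1) : v (n : ℚ) = k := by
  unfold v
  rw [padicValRat.of_nat, h]
  have hm0 : m ≠ 0 := by rintro rfl; simp at hm
  rw [padicValNat.mul (by positivity) hm0, padicValNat.prime_pow,
    padicValNat.eq_zero_of_not_dvd (by omega), add_zero]

lemma v_P (j : ℕ) : (P j).1 ≠ 0 ∧ v (P j).1 = -2 * (j + 1) ∧ v (P j).2 = -3 * (j + 1) := by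
  induction j with
  | zero =>
    have e129 := vnat 129 0 129 (by norm_num) (by norm_num)
    have e100 := vnat 100 2 25 (by norm_num) (by norm_num)
    have e383 := vnat 383 0 383 (by norm_num) (by norm_num)
    have e1000 := vnat 1000 3 125 (by norm_num) (by norm_num)
    push_cast at e129 e100 e383 e1000
    refine ⟨by norm_num [P], ?_, ?_⟩
    · have : (P 0).1 = 129 / 100 := rfl
      rw [this, v_div (by norm_num) (by norm_num), e129, e100]
      norm_num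
    · have : (P 0).2 = -(383 / 1000) := by norm_num [P]
      rw [this]
      have h1 : v (-(383 / 1000)) = v (383 / 1000) := padicValRat.neg _
      rw [h1, v_div (by norm_num) (by norm_num), e383, e1000]
      norm_num
  | succ j ih =>
    obtain ⟨hx, h1, h2⟩ := ih
    set x := (P j).1 with hxd
    set w := (P j).2 with hwd
    have hw : w ≠ 0 := P_snd_ne j
    have e16 := vnat 16 4 1 (by norm_num) (by norm_num)
    have e2 := vnat 2 1 1 (by norm_num) (by norm_num)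
    have e4 := vnat 4 2 1 (by norm_num) (by norm_num)
    have e8 := vnat 8 3 1 (by norm_num) (by norm_num)
    have e32 := vnat 32 5 1 (by norm_num) (by norm_num)
    have e40 := vnat 40 3 5 (by norm_num) (by norm_num)
    push_cast at e16 e2 e4 e8 e32 e40
    have hx3 : v (x ^ 3) = -6 * (j + 1) := by rw [v_pow hx, h1]; push_cast; ring
    have hx6 : v (x ^ 6) = -12 * (j + 1) := by rw [v_pow hx, h1]; push_cast; ring
    have vneg : ∀ y : ℚ, v (-y) = v y := fun y => padicValRat.neg y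
    have a1 : x ^ 3 + 16 ≠ 0 ∧ v (x ^ 3 + 16) = v (x ^ 3) :=
      v_add_of_lt (pow_ne_zero _ hx) (by norm_num) (by rw [hx3, e16]; omega)
    have a2 : x ^ 3 + (-2) ≠ 0 ∧ v (x ^ 3 + (-2)) = v (x ^ 3) :=
      v_add_of_lt (pow_ne_zero _ hx) (by norm_num) (by rw [hx3, vneg, e2]; omega)
    have a3 : x ^ 6 + (-(40 * x ^ 3)) ≠ 0 ∧ v (x ^ 6 + (-(40 * x ^ 3))) = v (x ^ 6) :=
      v_add_of_lt (pow_ne_zero _ hx) (neg_ne_zero.2 (mul_ne_zero (by norm_num) (pow_ne_zero _ hx)))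
        (by rw [hx6, vneg, v_mul (by norm_num) (pow_ne_zero _ hx), e40, hx3]; omega)
    have a4 : (x ^ 6 + (-(40 * x ^ 3))) + (-32) ≠ 0 ∧
        v ((x ^ 6 + (-(40 * x ^ 3))) + (-32)) = v (x ^ 6 + (-(40 * x ^ 3))) :=
      v_add_of_lt a3.1 (by norm_num) (by rw [a3.2, hx6, vneg, e32]; omega)
    have b1 : x ^ 3 + (-2) = x ^ 3 - 2 := by ring
    have b2 : (x ^ 6 + (-(40 * x ^ 3))) + (-32) = x ^ 6 - 40 * x ^ 3 - 32 := by ring
    rw [b1] at a2
    rw [b2] at a4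
    have p1 : (P (j + 1)).1 = x * (x ^ 3 + 16) / (4 * (x ^ 3 - 2)) := rfl
    have p2 : (P (j + 1)).2 = (x ^ 6 - 40 * x ^ 3 - 32) / (8 * w ^ 3) := rfl
    refine ⟨?_, ?_, ?_⟩
    · rw [p1]
      exact div_ne_zero (mul_ne_zero hx a1.1) (mul_ne_zero (by norm_num) a2.1)
    · rw [p1, v_div (mul_ne_zero hx a1.1) (mul_ne_zero (by norm_num) a2.1), v_mul hx a1.1,
        v_mul (by norm_num) a2.1, a1.2, a2.2, e4, h1, hx3]
      push_cast
      ring
    · rw [p2, v_div a4.1 (mul_ne_zero (by norm_num) (pow_ne_zero _ hw)),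
        v_mul (by norm_num) (pow_ne_zero _ hw), a4.2, a3.2, e8, hx6, v_pow hw, h2]
      push_cast
      ring

/-- the abscissa of `(2 ^ (j + 1) + 1) Q` -/
noncomputable def T (j : ℕ) : ℚ := (((P j).2 - 5) / ((P j).1 - 3)) ^ 2 - (P j).1 - 3

lemma P_ne3 (j : ℕ) : (P j).1 - 3 ≠ 0 := by
  intro h
  obtain ⟨-, h1, -⟩ := v_P j
  have h2 : (P j).1 = ((3 : ℕ) : ℚ) := by push_cast; linarith
  rw [h2, vnat 3 0 3 (by norm_num) (by norm_num)] at h1
  push_cast at h1
  omega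

lemma T_sq (j : ℕ) : ∃ Y : ℚ, Y ^ 2 = T j ^ 3 - 2 := by
  obtain ⟨l, hl⟩ : ∃ l : ℚ, l = ((P j).2 - 5) / ((P j).1 - 3) := ⟨_, rfl⟩
  have h := P_ne3 j
  have h1 := P_eq j
  have hT : T j = l ^ 2 - (P j).1 - 3 := by rw [hl]; rfl
  have hl' : l * ((P j).1 - 3) + 5 = (P j).2 := by
    rw [hl]; field_simp; ring
  refine ⟨l * (T j - 3) + 5, ?_⟩
  rw [hT]
  have e : (((l * (l ^ 2 - (P j).1 - 3 - 3) + 5) ^ 2 - ((l ^ 2 - (P j).1 - 3) ^ 3 - 2)) *
      ((P j).1 - 3)) = 0 := by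
    have h2 : (l * ((P j).1 - 3) + 5) ^ 2 = (P j).1 ^ 3 - 2 := by rw [hl', h1]
    linear_combination (l ^ 2 - (P j).1 - 3 - 3) * h2
  rcases mul_eq_zero.1 e with e | e
  · linarith
  · exact absurd e h

lemma T_sub (j : ℕ) : T j - 3 = (27 * (P j).1 - 10 * (P j).2 - 31) / ((P j).1 - 3) ^ 2 := by
  have h := P_ne3 j
  have h1 := P_eq j
  unfold T
  set x := (P j).1
  set w := (P j).2
  field_simp
  linear_combination h1

end Pool.Agent.R338.Dbl
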