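import Mathlib
import Pool.Agent.R338.LogE

set_option autoImplicit false

namespace Pool.Agent.R338.Dbl

open NumberField Module IntermediateField Height
open Pool.Agent.Y733.VR

lemma v_neg (x : ℚ) : v (-x) = v x := padicValRat.neg x

lemma v_Tsub {j : ℕ} (hj : 1 ≤ j) : T j - 3 ≠ 0 ∧ v (T j - 3) = j + 2 := by
  obtain ⟨hx, h1, h2⟩ := v_P j
  have hw := P_snd_ne j
  have h3 := P_ne3 j
  have e27 := vnat 27 0 27 (by norm_num) (by norm_num)
  have e10 := vnat 10 1 5 (by norm_num) (by norm_num)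
  have e31 := vnat 31 0 31 (by norm_num) (by norm_num)
  have e3 := vnat 3 0 3 (by norm_num) (by norm_num)
  push_cast at e27 e10 e31 e3
  have a0 : -(10 * (P j).2) ≠ 0 := neg_ne_zero.2 (mul_ne_zero (by norm_num) hw)
  have v0 : v (-(10 * (P j).2)) = 1 + -3 * (j + 1) := by
    rw [v_neg, v_mul (by norm_num) hw, e10, h2]
  have a1 : 27 * (P j).1 ≠ 0 := mul_ne_zero (by norm_num) hx
  have v1 : v (27 * (P j).1) = -2 * (j + 1) := by
    rw [v_mul (by norm_num) hx, e27, h1]; ring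
  have b1 := v_add_of_lt a0 a1 (by rw [v0, v1]; omega)
  have b2 := v_add_of_lt b1.1 (y := -31) (by norm_num) (by rw [b1.2, v0, v_neg, e31]; omega)
  have e : -(10 * (P j).2) + 27 * (P j).1 + -31 = 27 * (P j).1 - 10 * (P j).2 - 31 := by ring
  rw [e] at b2
  have c1 := v_add_of_lt hx (y := -3) (by norm_num) (by rw [h1, v_neg, e3]; omega)
  have e' : (P j).1 + -3 = (P j).1 - 3 := by ring
  rw [e'] at c1
  rw [T_sub]
  refine ⟨div_ne_zero b2.1 (pow_ne_zero _ c1.1), ?_⟩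
  rw [v_div b2.1 (pow_ne_zero _ c1.1), v_pow c1.1, b2.2, b1.2, v0, c1.2, h1]
  push_cast
  ring

lemma T_frac {j : ℕ} (hj : 1 ≤ j) :
    ∃ m : ℤ, m ≠ 0 ∧ (T j).num - 3 * ((T j).den : ℤ) = 2 ^ (j + 2) * m := by
  obtain ⟨h1, h2⟩ := v_Tsub hj
  have hden : ((T j).den : ℚ) ≠ 0 := by exact_mod_cast (T j).den_nz
  have e : (((T j).num - 3 * ((T j).den : ℤ) : ℤ) : ℚ) = (T j - 3) * (T j).den := by
    have := Rat.mul_den_eq_num (T j)
    push_cast
    rw [← this]
    ring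
  have hne : (T j).num - 3 * ((T j).den : ℤ) ≠ 0 := by
    intro h0
    rw [h0] at e
    have := mul_ne_zero h1 hden
    apply this
    rw [← e]
    norm_num
  have h3 : v (((T j).num - 3 * ((T j).den : ℤ) : ℤ) : ℚ) = (j + 2 : ℤ) + v ((T j).den : ℚ) := by
    rw [e, v_mul h1 hden, h2]
  have h4 : 0 ≤ v ((T j).den : ℚ) := by
    unfold v
    rw [padicValRat.of_nat]
    positivity
  have h5 : (j + 2 : ℕ) ≤ padicValInt 2 ((T j).num - 3 * ((T j).den : ℤ)) := by
    rw [v_int] at h3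
    zify
    omega
  have h6 : ((2 : ℕ) : ℤ) ^ (j + 2) ∣ (T j).num - 3 * ((T j).den : ℤ) :=
    (padicValInt_dvd_iff _ _).2 (Or.inr h5)
  obtain ⟨m, hm⟩ := h6
  push_cast at hm
  refine ⟨m, ?_, hm⟩
  rintro rfl
  apply hne
  rw [hm]
  ring

/-- the maximum of numerator and denominator -/
noncomputable def H (x : ℚ) : ℝ := ((max x.num.natAbs x.den : ℕ) : ℝ)

lemma ht_H (x : ℚ) : ht x = Real.log (H x) := rfl

lemma H_pos (x : ℚ) : 1 ≤ H x := one_le_H x

lemma sub_le (x : ℚ) : |((x.num - 3 * (x.den : ℤ) : ℤ) : ℝ)| ≤ 4 * H x := by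
  have h1 := abs_le_H x
  have h2 := den_le_H x
  push_cast
  calc |(x.num : ℝ) - 3 * (x.den : ℝ)| ≤ |(x.num : ℝ)| + |3 * (x.den : ℝ)| := abs_sub _ _
    _ = |(x.num : ℝ)| + 3 * |(x.den : ℝ)| := by rw [abs_mul]; norm_num
    _ ≤ 4 * H x := by unfold H; linarith

lemma ht_T_ge {j : ℕ} (hj : 1 ≤ j) : j * Real.log 2 ≤ ht (T j) := by
  obtain ⟨m, hm, h⟩ := T_frac hj
  have h1 := sub_le (T j)
  rw [h] at h1
  push_cast at h1
  rw [abs_mul, abs_pow] at h1
  have h2 : (1 : ℝ) ≤ |(m : ℝ)| := by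
    have := Int.one_le_abs hm
    exact_mod_cast this
  have h3 : (2 : ℝ) ^ j ≤ H (T j) := by
    have h4 : |(2 : ℝ)| = 2 := by norm_num
    rw [h4] at h1
    have h5 : (0 : ℝ) < 2 ^ (j + 2) := by positivity
    have h6 : (2 : ℝ) ^ (j + 2) ≤ 4 * H (T j) := by nlinarith
    rw [pow_add] at h6
    linarith
  rw [ht_H, ← Real.log_pow]
  exact Real.log_le_log (by positivity) h3

lemma ht_T_le : ∃ C : ℝ, 0 < C ∧ ∀ j, ht (T j) ≤ C * 4 ^ j := by
  have h2 : 0 ≤ Real.log 2 := Real.log_nonneg (by norm_num)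
  set K := 6 * (ht (129 / 100) + Real.log 17) + (2 * ht 2 + 2 * ht 5 + 3 * ht 3 + 10 * Real.log 2) + 1
    with hK
  have hK1 : 1 ≤ K := by
    have := ht_nonneg (129 / 100)
    have := ht_nonneg 2
    have := ht_nonneg 5
    have := ht_nonneg 3
    have : 0 ≤ Real.log 17 := Real.log_nonneg (by norm_num)
    rw [hK]; nlinarith
  refine ⟨K, by linarith, fun j => ?_⟩
  have hx : ht (P j).1 ≤ 4 ^ j * (ht (129 / 100) + Real.log 17) := by
    rw [P_fst]
    have := ht_iter_le j (129 / 100)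
    have h17 : 0 ≤ Real.log 17 := Real.log_nonneg (by norm_num)
    unfold X
    linarith
  have hw : 2 * ht (P j).2 ≤ 3 * ht (P j).1 + ht 2 + Real.log 2 := by
    have h1 := hpow (P j).2 2
    have h3 := hsub ((P j).1 ^ 3) 2
    rw [hpow, ← P_eq, hpow] at h3
    push_cast at h3
    linarith
  have hT : ht (T j) ≤ 2 * ht (P j).2 + 3 * ht (P j).1 + (2 * ht 5 + 3 * ht 3 + 6 * Real.log 2) := by
    unfold T
    have h1 := hsub ((((P j).2 - 5) / ((P j).1 - 3)) ^ 2 - (P j).1) 3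
    have h3 := hsub ((((P j).2 - 5) / ((P j).1 - 3)) ^ 2) (P j).1
    have h4 := hdiv ((P j).2 - 5) ((P j).1 - 3)
    have h5 := hsub (P j).2 5
    have h6 := hsub (P j).1 3
    rw [hpow] at h3
    push_cast at h3
    linarith
  have h4 : (1 : ℝ) ≤ 4 ^ j := one_le_pow₀ (by norm_num)
  have h0 : 0 ≤ 2 * ht 2 + 2 * ht 5 + 3 * ht 3 + 10 * Real.log 2 := by
    have := ht_nonneg 2
    have := ht_nonneg 5
    have := ht_nonneg 3
    linarith
  have h7 : ht 2 ≤ 2 * ht 2 := by linarith [ht_nonneg 2]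
  calc ht (T j) ≤ 6 * (4 ^ j * (ht (129 / 100) + Real.log 17)) +
        (2 * ht 2 + 2 * ht 5 + 3 * ht 3 + 10 * Real.log 2) := by linarith
    _ ≤ 6 * (4 ^ j * (ht (129 / 100) + Real.log 17)) +
        4 ^ j * (2 * ht 2 + 2 * ht 5 + 3 * ht 3 + 10 * Real.log 2) := by
      have := mul_le_mul_of_nonneg_right h4 h0
      linarith
    _ ≤ K * 4 ^ j := by
      rw [hK]
      nlinarith

/-- the values of an integral polynomial -/
lemma poly_val (R : Polynomial ℤ) : ∃ c : ℝ, 0 ≤ c ∧ ∀ x : ℚ, ∃ r : ℤ,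
    (r : ℚ) = Polynomial.aeval x R * (x.den : ℚ) ^ R.natDegree ∧ |(r : ℝ)| ≤ c * H x ^ R.natDegree := by
  refine ⟨∑ i ∈ Finset.range (R.natDegree + 1), |(R.coeff i : ℝ)|, Finset.sum_nonneg fun _ _ => abs_nonneg _, ?_⟩
  intro x
  refine ⟨∑ i ∈ Finset.range (R.natDegree + 1), R.coeff i * (x.num ^ i * (x.den : ℤ) ^ (R.natDegree - i)), ?_, ?_⟩
  · rw [Polynomial.aeval_eq_sum_range, Finset.sum_mul]
    push_cast
    refine Finset.sum_congr rfl fun i hi => ?_
    have hi' : i ≤ R.natDegree := by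
      have := Finset.mem_range.1 hi
      omega
    have e := Rat.mul_den_eq_num x
    rw [← e, mul_pow, zsmul_eq_mul]
    have e2 : (x.den : ℚ) ^ R.natDegree = (x.den : ℚ) ^ i * (x.den : ℚ) ^ (R.natDegree - i) := by
      rw [← pow_add]
      congr 1
      omega
    rw [e2]
    ring
  · push_cast
    refine (Finset.abs_sum_le_sum_abs _ _).trans ?_
    rw [Finset.sum_mul]
    refine Finset.sum_le_sum fun i hi => ?_
    have hi' : i ≤ R.natDegree := by
      have := Finset.mem_range.1 hi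
      omega
    rw [abs_mul]
    refine mul_le_mul_of_nonneg_left ?_ (abs_nonneg _)
    rw [abs_mul, abs_pow, abs_pow]
    have h1 : |(x.num : ℝ)| ≤ H x := abs_le_H x
    have h2 : |(x.den : ℝ)| ≤ H x := den_le_H x
    have h3 : H x ^ R.natDegree = H x ^ i * H x ^ (R.natDegree - i) := by
      rw [← pow_add]
      congr 1
      omega
    rw [h3]
    have h0 : 0 ≤ H x := by linarith [H_pos x]
    exact mul_le_mul (pow_le_pow_left₀ (abs_nonneg _) h1 _) (pow_le_pow_left₀ (abs_nonneg _) h2 _)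
      (by positivity) (by positivity)

end Pool.Agent.R338.Dbl
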