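import Mathlib
import Pool.Agent.R338.LogM

set_option autoImplicit false

namespace Pool.Agent.R338.Dbl

open NumberField Module IntermediateField Height
open Pool.Agent.Y733.VR

/-- the discriminant bound above `T j` -/
lemma ld_T (n : ℕ) (R : Polynomial ℤ) (hdeg : R.natDegree = 2 * n + 1) :
    ∃ c : ℝ, ∀ j : ℕ, 1 ≤ j → Polynomial.aeval (T j) R ≠ 0 →
      ∀ (L : Type) [Field L] [NumberField L] (y : L),
      y ^ 2 = (((T j ^ 3 - 2) * (T j - 3) * Polynomial.aeval (T j) R : ℚ) : L) → ℚ⟮y⟯ = ⊤ →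
      finrank ℚ L ≤ 2 ∧
      ld L ≤ (n + 1) * ht (T j) + c - (j / 2) * Real.log 2 := by
  obtain ⟨c, hc, hpoly⟩ := poly_val R
  refine ⟨Real.log (4 * (c + 1)), ?_⟩
  intro j hj hne L _ _ y hy htop
  obtain ⟨m, hm, hm'⟩ := T_frac hj
  obtain ⟨r, hr, hr'⟩ := hpoly (T j)
  obtain ⟨Y, hY⟩ := T_sq j
  have hY0 : Y ≠ 0 := by
    rintro rfl
    apply cube_ne (T j)
    rw [← hY]
    ring
  have hD0 : ((T j).den : ℚ) ≠ 0 := by exact_mod_cast (T j).den_nz
  have hND : (T j - 3) * (T j).den = 2 ^ (j + 2) * (m : ℚ) := by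
    have h1 : (((T j).num - 3 * ((T j).den : ℤ) : ℤ) : ℚ) = (T j - 3) * (T j).den := by
      have := Rat.mul_den_eq_num (T j)
      push_cast
      rw [← this]
      ring
    rw [← h1, hm']
    push_cast
    ring
  set e := (j + 2) / 2 with he
  set d := (j + 2) % 2 with hd
  have hed : j + 2 = 2 * e + d := (Nat.div_add_mod (j + 2) 2).symm
  have hd2 : d < 2 := Nat.mod_lt _ (by norm_num)
  have hr0 : r ≠ 0 := by
    rintro rfl
    apply mul_ne_zero hne (pow_ne_zero R.natDegree hD0)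
    rw [← hr]
    norm_num
  set s : ℤ := 2 ^ d * m * r with hs
  have hs0 : s ≠ 0 := mul_ne_zero (mul_ne_zero (by positivity) hm) hr0
  -- the rational number with `β = q y`
  set q : ℚ := (T j).den ^ (n + 1) / (Y * 2 ^ e) with hq
  have hq0 : q ≠ 0 := div_ne_zero (pow_ne_zero _ hD0) (mul_ne_zero hY0 (by positivity))
  have hval : q ^ 2 * ((T j ^ 3 - 2) * (T j - 3) * Polynomial.aeval (T j) R) = s := by
    have h2 : ((s : ℤ) : ℚ) * (2 ^ e) ^ 2 = ((T j - 3) * (T j).den) * (Polynomial.aeval (T j) R * (T j).den ^ (2 * n + 1)) := by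
      rw [hND, ← hdeg, ← hr, hed, hs]
      push_cast
      ring
    rw [← hY, hq, div_pow, mul_pow]
    have h3 : (2 : ℚ) ^ e ≠ 0 := by positivity
    field_simp
    rw [mul_comm ((2 ^ e) ^ 2 : ℚ), h2]
    ring
  set β : L := ((q : ℚ) : L) * y with hβ
  have hβ2 : β ^ 2 = (s : L) := by
    rw [hβ, mul_pow, hy, ← Rat.cast_pow, ← Rat.cast_mul, hval]
    simp
  have htop' : ℚ⟮β⟯ = ⊤ := by
    rw [eq_top_iff, ← htop, IntermediateField.adjoin_simple_le_iff]
    have h1 : y = algebraMap ℚ L q⁻¹ * β := by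
      rw [hβ, eq_ratCast, Rat.cast_inv, inv_mul_cancel_left₀]
      exact_mod_cast hq0
    rw [h1]
    exact (ℚ⟮β⟯).mul_mem ((ℚ⟮β⟯).algebraMap_mem _) (IntermediateField.mem_adjoin_simple_self ℚ β)
  obtain ⟨h1, h2⟩ := ld_multi 1 L (fun _ => β) (fun _ => s) (fun _ => hs0) (fun _ => hβ2) (by
    have : Set.range (fun _ : Fin 1 => β) = {β} := Set.range_const
    rw [this]
    exact htop')
  refine ⟨by simpa using h2, ?_⟩
  refine h1.trans ?_
  simp only [Finset.univ_unique, Finset.sum_const, Finset.card_singleton, one_smul]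
  -- the size of `s`
  have hH := H_pos (T j)
  have hbound : |(s : ℝ)| * (2 ^ e) ^ 2 ≤ 4 * (c + 1) * H (T j) ^ (2 * n + 2) := by
    have h3 : (s : ℝ) * (2 ^ e) ^ 2 = (((T j).num - 3 * ((T j).den : ℤ) : ℤ) : ℝ) * r := by
      rw [hm', hs]
      push_cast
      rw [hed]
      ring
    have h4 : |(s : ℝ)| * (2 ^ e) ^ 2 = |(((T j).num - 3 * ((T j).den : ℤ) : ℤ) : ℝ)| * |(r : ℝ)| := by
      rw [← abs_mul, ← h3, abs_mul]
      congr 1
      exact (abs_of_nonneg (by positivity)).symm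
    rw [h4]
    have h5 : |(r : ℝ)| ≤ (c + 1) * H (T j) ^ (2 * n + 1) := by
      rw [hdeg] at hr'
      refine hr'.trans ?_
      have : (0 : ℝ) ≤ H (T j) ^ (2 * n + 1) := by positivity
      nlinarith
    calc _ ≤ (4 * H (T j)) * ((c + 1) * H (T j) ^ (2 * n + 1)) :=
          mul_le_mul (sub_le _) h5 (abs_nonneg _) (by positivity)
      _ = 4 * (c + 1) * H (T j) ^ (2 * n + 2) := by ring
  have hsr : (0 : ℝ) < |(s : ℝ)| := by
    rw [abs_pos]
    exact_mod_cast hs0
  have hlog : Real.log |(s : ℝ)| + 2 * (e * Real.log 2) ≤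
      Real.log (4 * (c + 1)) + (2 * n + 2) * ht (T j) := by
    have h3 := Real.log_le_log (by positivity) hbound
    rw [Real.log_mul hsr.ne' (by positivity), Real.log_pow, Real.log_pow,
      Real.log_mul (by positivity) (by positivity), Real.log_pow, ← ht_H] at h3
    push_cast at h3
    linarith
  have h4 : Real.log (4 * |(s : ℝ)|) = Real.log 4 + Real.log |(s : ℝ)| :=
    Real.log_mul (by norm_num) hsr.ne'
  have h5 : Real.log 4 ≤ Real.log (4 * (c + 1)) := Real.log_le_log (by norm_num) (by linarith)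
  have h6 : (j : ℝ) ≤ 2 * e := by
    have : j ≤ 2 * e := by omega
    exact_mod_cast this
  have h7 : 0 < Real.log 2 := Real.log_pos (by norm_num)
  have h8 : (j : ℝ) * Real.log 2 ≤ 2 * (e * Real.log 2) := by nlinarith
  rw [h4]
  linarith

theorem logmain (n : ℕ) (R : Polynomial ℤ) (hdeg : R.natDegree = 2 * n + 1) (c C : ℝ)
    (hc : c < 1 / 4) : ∃ J : ℕ, ∀ j : ℕ, J ≤ j → ∀ (L : Type) [Field L] [NumberField L] (y : L),
      y ^ 2 = (((T j ^ 3 - 2) * (T j - 3) * Polynomial.aeval (T j) R : ℚ) : L) → ℚ⟮y⟯ = ⊤ →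
      finrank ℚ L ≤ 2 ∧
      ld L + c * Real.log (ht (T j)) + C < (n + 1) * ht (T j) := by
  obtain ⟨c1, h1⟩ := ld_T n R hdeg
  obtain ⟨C1, hC1, h2⟩ := ht_T_le
  have hR0 : R ≠ 0 := by
    rintro rfl
    simp at hdeg
  have h7 : 0 < Real.log 2 := Real.log_pos (by norm_num)
  -- the heights of the roots are bounded
  obtain ⟨B, hB⟩ : ∃ B : ℝ, ∀ x : ℚ, Polynomial.aeval x R = 0 → ht x ≤ B := by
    have hfin : {x : ℚ | Polynomial.aeval x R = 0}.Finite := by
      have h3 : R.map (algebraMap ℤ ℚ) ≠ 0 := by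
        rw [Ne, Polynomial.map_eq_zero_iff (algebraMap ℤ ℚ).injective_int]
        exact hR0
      refine (Polynomial.finite_setOfPred_isRoot h3).subset fun x hx => ?_
      have hx' : Polynomial.aeval x R = 0 := hx
      show Polynomial.IsRoot _ x
      rw [Polynomial.IsRoot.def, Polynomial.eval_map_algebraMap]
      exact hx'
    obtain ⟨B, hB⟩ := (hfin.image ht).bddAbove
    exact ⟨B, fun x hx => hB ⟨x, hx, rfl⟩⟩
  set c' := max c 0 with hc'
  have hc'0 : 0 ≤ c' := le_max_right _ _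
  have hc'1 : c' < 1 / 4 := max_lt hc (by norm_num)
  have hcc : c ≤ c' := le_max_left _ _
  obtain ⟨J1, hJ1⟩ := exists_nat_gt (B / Real.log 2)
  obtain ⟨J2, hJ2⟩ := exists_nat_gt ((c1 + c' * Real.log C1 + C) / ((1 / 2 - 2 * c') * Real.log 2))
  refine ⟨max (max J1 J2) 2, fun j hj L _ _ y hy htop => ?_⟩
  have hj1 : J1 ≤ j := le_trans (le_trans (le_max_left _ _) (le_max_left _ _)) hj
  have hj2 : J2 ≤ j := le_trans (le_trans (le_max_right _ _) (le_max_left _ _)) hj
  have hj3 : 2 ≤ j := le_trans (le_max_right _ _) hj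
  have hge := ht_T_ge (j := j) (by omega)
  have hne : Polynomial.aeval (T j) R ≠ 0 := by
    intro h0
    have h3 := hB _ h0
    rw [div_lt_iff₀ h7] at hJ1
    have h4 : (J1 : ℝ) ≤ j := by exact_mod_cast hj1
    nlinarith
  obtain ⟨h3, h4⟩ := h1 j (by omega) hne L y hy htop
  refine ⟨h3, ?_⟩
  have h5 : 1 ≤ ht (T j) := by
    have h6 : (2 : ℝ) ≤ j := by exact_mod_cast hj3
    have h8 : 1 / 2 ≤ Real.log 2 := by
      have := Real.log_two_gt_d9
      linarith
    nlinarith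
  have h6 : 0 ≤ Real.log (ht (T j)) := Real.log_nonneg h5
  have h8 : Real.log (ht (T j)) ≤ Real.log C1 + 2 * j * Real.log 2 := by
    have h9 := Real.log_le_log (by linarith) (h2 j)
    rw [Real.log_mul hC1.ne' (by positivity), Real.log_pow] at h9
    have h10 : Real.log 4 = 2 * Real.log 2 := by
      rw [show (4 : ℝ) = 2 ^ 2 by norm_num, Real.log_pow]
      push_cast
      ring
    rw [h10] at h9
    linarith
  have h9 : c * Real.log (ht (T j)) ≤ c' * (Real.log C1 + 2 * j * Real.log 2) :=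
    (mul_le_mul_of_nonneg_right hcc h6).trans (mul_le_mul_of_nonneg_left h8 hc'0)
  have h10 : 0 < (1 / 2 - 2 * c') * Real.log 2 := mul_pos (by linarith) h7
  have h11 : c1 + c' * Real.log C1 + C < j * ((1 / 2 - 2 * c') * Real.log 2) := by
    rw [div_lt_iff₀ h10] at hJ2
    have h12 : (J2 : ℝ) ≤ j := by exact_mod_cast hj2
    nlinarith
  linarith

end Pool.Agent.R338.Dbl
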