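import Mathlib
import Pool.Agent.R338.LogF

set_option autoImplicit false

namespace Pool.Agent.R338.Dbl

open NumberField Module IntermediateField Height
open Pool.Agent.Y733.VR

/-- the values of the polynomial at `T j`, up to squares -/
lemma s_T (n : ℕ) (R : Polynomial ℤ) (hdeg : R.natDegree = 2 * n + 1) :
    ∃ c : ℝ, ∀ j : ℕ, 1 ≤ j → Polynomial.aeval (T j) R ≠ 0 →
      ∃ (s : ℤ) (q : ℚ), s ≠ 0 ∧ q ≠ 0 ∧
      q ^ 2 * ((T j ^ 3 - 2) * (T j - 3) * Polynomial.aeval (T j) R) = s ∧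
      (1 / 2) * Real.log (4 * |(s : ℝ)|) ≤ (n + 1) * ht (T j) + c - (j / 2) * Real.log 2 := by
  obtain ⟨c, hc, hpoly⟩ := poly_val R
  refine ⟨Real.log (4 * (c + 1)), ?_⟩
  intro j hj hne
  obtain ⟨m, hm, hm'⟩ := T_frac hj
  obtain ⟨r, hr, hr'⟩ := hpoly (T j)
  obtain ⟨Y, hY⟩ := T_sq j
  have hY0 : Y ≠ 0 := by
    rintro rfl
    apply cube_ne (T j)
    rw [← hY]
    ring
  have hD0 : ((T j).den : ℚ) ≠ 0 := by exact_mod_cast (T j).den_nz
  have hND : (T j - 3) * (T j).den = 2 ^ (j + 2) * (m : ℚ) := by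
    have h1 : (((T j).num - 3 * ((T j).den : ℤ) : ℤ) : ℚ) = (T j - 3) * (T j).den := by
      have := Rat.mul_den_eq_num (T j)
      push_cast
      rw [← this]
      ring
    rw [← h1, hm']
    push_cast
    ring
  set e := (j + 2) / 2 with he
  set d := (j + 2) % 2 with hd
  have hed : j + 2 = 2 * e + d := (Nat.div_add_mod (j + 2) 2).symm
  have hd2 : d < 2 := Nat.mod_lt _ (by norm_num)
  have hr0 : r ≠ 0 := by
    rintro rfl
    apply mul_ne_zero hne (pow_ne_zero R.natDegree hD0)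
    rw [← hr]
    norm_num
  set s : ℤ := 2 ^ d * m * r with hs
  have hs0 : s ≠ 0 := mul_ne_zero (mul_ne_zero (by positivity) hm) hr0
  -- the rational number with `β = q y`
  set q : ℚ := (T j).den ^ (n + 1) / (Y * 2 ^ e) with hq
  have hq0 : q ≠ 0 := div_ne_zero (pow_ne_zero _ hD0) (mul_ne_zero hY0 (by positivity))
  have hval : q ^ 2 * ((T j ^ 3 - 2) * (T j - 3) * Polynomial.aeval (T j) R) = s := by
    have h2 : ((s : ℤ) : ℚ) * (2 ^ e) ^ 2 = ((T j - 3) * (T j).den) * (Polynomial.aeval (T j) R * (T j).den ^ (2 * n + 1)) := by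
      rw [hND, ← hdeg, ← hr, hed, hs]
      push_cast
      ring
    rw [← hY, hq, div_pow, mul_pow]
    have h3 : (2 : ℚ) ^ e ≠ 0 := by positivity
    field_simp
    rw [mul_comm ((2 ^ e) ^ 2 : ℚ), h2]
    ring
  refine ⟨s, q, hs0, hq0, hval, ?_⟩
  have hH := H_pos (T j)
  have hbound : |(s : ℝ)| * (2 ^ e) ^ 2 ≤ 4 * (c + 1) * H (T j) ^ (2 * n + 2) := by
    have h3 : (s : ℝ) * (2 ^ e) ^ 2 = (((T j).num - 3 * ((T j).den : ℤ) : ℤ) : ℝ) * r := by
      rw [hm', hs]
      push_cast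
      rw [hed]
      ring
    have h4 : |(s : ℝ)| * (2 ^ e) ^ 2 = |(((T j).num - 3 * ((T j).den : ℤ) : ℤ) : ℝ)| * |(r : ℝ)| := by
      rw [← abs_mul, ← h3, abs_mul]
      congr 1
      exact (abs_of_nonneg (by positivity)).symm
    rw [h4]
    have h5 : |(r : ℝ)| ≤ (c + 1) * H (T j) ^ (2 * n + 1) := by
      rw [hdeg] at hr'
      refine hr'.trans ?_
      have : (0 : ℝ) ≤ H (T j) ^ (2 * n + 1) := by positivity
      nlinarith
    calc _ ≤ (4 * H (T j)) * ((c + 1) * H (T j) ^ (2 * n + 1)) :=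
          mul_le_mul (sub_le _) h5 (abs_nonneg _) (by positivity)
      _ = 4 * (c + 1) * H (T j) ^ (2 * n + 2) := by ring
  have hsr : (0 : ℝ) < |(s : ℝ)| := by
    rw [abs_pos]
    exact_mod_cast hs0
  have hlog : Real.log |(s : ℝ)| + 2 * (e * Real.log 2) ≤
      Real.log (4 * (c + 1)) + (2 * n + 2) * ht (T j) := by
    have h3 := Real.log_le_log (by positivity) hbound
    rw [Real.log_mul hsr.ne' (by positivity), Real.log_pow, Real.log_pow,
      Real.log_mul (by positivity) (by positivity), Real.log_pow, ← ht_H] at h3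
    push_cast at h3
    linarith
  have h4 : Real.log (4 * |(s : ℝ)|) = Real.log 4 + Real.log |(s : ℝ)| :=
    Real.log_mul (by norm_num) hsr.ne'
  have h5 : Real.log 4 ≤ Real.log (4 * (c + 1)) := Real.log_le_log (by norm_num) (by linarith)
  have h6 : (j : ℝ) ≤ 2 * e := by
    have : j ≤ 2 * e := by omega
    exact_mod_cast this
  have h7 : 0 < Real.log 2 := Real.log_pos (by norm_num)
  have h8 : (j : ℝ) * Real.log 2 ≤ 2 * (e * Real.log 2) := by nlinarith
  rw [h4]
  linarith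

lemma T_inj {i j : ℕ} (hi : 1 ≤ i) (hj : 1 ≤ j) (h : T i = T j) : i = j := by
  have h1 := (v_Tsub hi).2
  have h2 := (v_Tsub hj).2
  rw [h, h2] at h1
  omega

/-- the proximity to the Weierstrass point over `3`, at the place `2` -/
lemma prox_T {j : ℕ} (hj : 1 ≤ j) :
    j ≤ padicValInt 2 ((T j).num - 3 * ((T j).den : ℤ)) := by
  obtain ⟨m, hm, h⟩ := T_frac hj
  have h1 : ((2 : ℕ) : ℤ) ^ (j + 2) ∣ (T j).num - 3 * ((T j).den : ℤ) := by
    rw [h]
    push_cast
    exact dvd_mul_right _ _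
  have h2 := (padicValInt_dvd_iff (p := 2) (j + 2) ((T j).num - 3 * ((T j).den : ℤ))).1 h1
  rcases h2 with h2 | h2
  · exfalso
    rw [h] at h2
    have : (2 : ℤ) ^ (j + 2) * m ≠ 0 := mul_ne_zero (by positivity) hm
    exact this h2
  · omega

/-- the finitely many `j` to be avoided -/
lemma good_T (R : Polynomial ℤ) (hR0 : R ≠ 0) :
    ∃ J : ℕ, ∀ j : ℕ, J ≤ j → Polynomial.aeval (T j) R ≠ 0 := by
  have h7 : 0 < Real.log 2 := Real.log_pos (by norm_num)
  obtain ⟨B, hB⟩ : ∃ B : ℝ, ∀ x : ℚ, Polynomial.aeval x R = 0 → ht x ≤ B := by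
    have hfin : {x : ℚ | Polynomial.aeval x R = 0}.Finite := by
      have h3 : R.map (algebraMap ℤ ℚ) ≠ 0 := by
        rw [Ne, Polynomial.map_eq_zero_iff (algebraMap ℤ ℚ).injective_int]
        exact hR0
      refine (Polynomial.finite_setOfPred_isRoot h3).subset fun x hx => ?_
      have hx' : Polynomial.aeval x R = 0 := hx
      show Polynomial.IsRoot _ x
      rw [Polynomial.IsRoot.def, Polynomial.eval_map_algebraMap]
      exact hx'
    obtain ⟨B, hB⟩ := (hfin.image ht).bddAbove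
    exact ⟨B, fun x hx => hB ⟨x, hx, rfl⟩⟩
  obtain ⟨J1, hJ1⟩ := exists_nat_gt (B / Real.log 2)
  refine ⟨max J1 1, fun j hj h0 => ?_⟩
  have hj1 : J1 ≤ j := le_trans (le_max_left _ _) hj
  have hj3 : 1 ≤ j := le_trans (le_max_right _ _) hj
  have hge := ht_T_ge hj3
  have h3 := hB _ h0
  rw [div_lt_iff₀ h7] at hJ1
  have h4 : (J1 : ℝ) ≤ j := by exact_mod_cast hj1
  nlinarith

/-- the main estimate for powers of the curve -/
theorem powmain (n k : ℕ) (hk : 1 ≤ k) (R : Polynomial ℤ) (hdeg : R.natDegree = 2 * n + 1)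
    (I : Finset (Fin k)) (c C : ℝ) (hc : c < ((k : ℝ) + I.card) / 4)
    (G : MvPolynomial (Fin k) ℚ) (hG : G ≠ 0) :
    ∃ J : Fin k → ℕ, MvPolynomial.eval (fun i => T (J i)) G ≠ 0 ∧
      ∀ (L : Type) [Field L] [NumberField L] (y : Fin k → L),
      (∀ i, y i ^ 2 = (((T (J i) ^ 3 - 2) * (T (J i) - 3) * Polynomial.aeval (T (J i)) R : ℚ) : L)) →
      IntermediateField.adjoin ℚ (Set.range y) = ⊤ →
      finrank ℚ L ≤ 2 ^ k ∧
      ld L + c * Real.log (∑ i, ht (T (J i))) + C <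
        ∑ i ∈ I, (1 / 2) * (padicValInt 2 ((T (J i)).num - 3 * ((T (J i)).den : ℤ)) : ℝ) * Real.log 2 +
        (n + 1) * ∑ i, ht (T (J i)) := by
  obtain ⟨c1, h1⟩ := s_T n R hdeg
  obtain ⟨C1, hC1, h2⟩ := ht_T_le
  have hR0 : R ≠ 0 := by
    rintro rfl
    simp at hdeg
  obtain ⟨J0, hJ0⟩ := good_T R hR0
  have h7 : 0 < Real.log 2 := Real.log_pos (by norm_num)
  set c' := max c 0 with hc'
  have hc'0 : 0 ≤ c' := le_max_right _ _
  have hkI : (0 : ℝ) < ((k : ℝ) + I.card) / 4 := by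
    have : (1 : ℝ) ≤ k := by exact_mod_cast hk
    positivity
  have hc'1 : c' < ((k : ℝ) + I.card) / 4 := max_lt hc hkI
  have hcc : c ≤ c' := le_max_left _ _
  -- the window
  obtain ⟨δ, hδ⟩ : ∃ δ : ℕ, ∀ i, G.degreeOf i ≤ δ :=
    ⟨Finset.univ.sup fun i => G.degreeOf i, fun i => Finset.le_sup (f := fun i => G.degreeOf i) (Finset.mem_univ i)⟩
  set A : ℝ := k * c1 + c' * (Real.log (k * C1) + 2 * δ * Real.log 2) + C with hA
  set B : ℝ := (((k : ℝ) + I.card) / 2 - 2 * c') * Real.log 2 with hB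
  have hB0 : 0 < B := mul_pos (by linarith) h7
  obtain ⟨J1, hJ1⟩ := exists_nat_gt (A / B)
  set M : ℕ := max (max J0 J1) 2 with hM
  have hM0 : J0 ≤ M := le_trans (le_max_left _ _) (le_max_left _ _)
  have hM1 : J1 ≤ M := le_trans (le_max_right _ _) (le_max_left _ _)
  have hM2 : 2 ≤ M := le_max_right _ _
  -- the tuple
  obtain ⟨J, hJ, hne⟩ : ∃ J : Fin k → ℕ, (∀ i, M ≤ J i ∧ J i ≤ M + δ) ∧
      MvPolynomial.eval (fun i => T (J i)) G ≠ 0 := by
    by_contra hcon
    push Not at hcon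
    apply hG
    classical
    refine MvPolynomial.eq_zero_of_eval_zero_at_prod_finset G
      (fun _ => (Finset.Icc M (M + δ)).image T) (fun i => ?_) (fun x hx => ?_)
    · rw [Finset.card_image_of_injOn]
      · rw [Nat.card_Icc]
        have := hδ i
        omega
      · intro a ha b hb hab
        have ha' := Finset.mem_Icc.1 (Finset.mem_coe.1 ha)
        have hb' := Finset.mem_Icc.1 (Finset.mem_coe.1 hb)
        exact T_inj (by omega) (by omega) hab
    · have hx' : ∀ i, ∃ j, (M ≤ j ∧ j ≤ M + δ) ∧ T j = x i := by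
        intro i
        obtain ⟨j, hj, hj'⟩ := Finset.mem_image.1 (hx i)
        exact ⟨j, Finset.mem_Icc.1 hj, hj'⟩
      choose J hJ1 hJ2 using hx'
      have := hcon J hJ1
      have e : (fun i => T (J i)) = x := funext hJ2
      rw [e] at this
      exact this
  refine ⟨J, hne, fun L _ _ y hy htop => ?_⟩
  have hs : ∀ i, ∃ (s : ℤ) (q : ℚ), s ≠ 0 ∧ q ≠ 0 ∧
      q ^ 2 * ((T (J i) ^ 3 - 2) * (T (J i) - 3) * Polynomial.aeval (T (J i)) R) = s ∧
      (1 / 2) * Real.log (4 * |(s : ℝ)|) ≤ (n + 1) * ht (T (J i)) + c1 - (J i / 2) * Real.log 2 :=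
    fun i => h1 (J i) (by have := (hJ i).1; omega) (hJ0 _ (by have := (hJ i).1; omega))
  choose s q hs0 hq0 hsq hsl using hs
  have hqL : ∀ i, ((q i : ℚ) : L) ≠ 0 := fun i => by exact_mod_cast hq0 i
  set β : Fin k → L := fun i => ((q i : ℚ) : L) * y i with hβ
  have hβ2 : ∀ i, β i ^ 2 = (s i : L) := by
    intro i
    rw [hβ]
    simp only
    rw [mul_pow, hy, ← Rat.cast_pow, ← Rat.cast_mul, hsq]
    simp
  have htop' : IntermediateField.adjoin ℚ (Set.range β) = ⊤ := by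
    rw [eq_top_iff, ← htop, IntermediateField.adjoin_le_iff]
    rintro _ ⟨i, rfl⟩
    have h3 : y i = algebraMap ℚ L (q i)⁻¹ * β i := by
      rw [hβ, eq_ratCast, Rat.cast_inv]
      simp only
      rw [inv_mul_cancel_left₀ (hqL i)]
    rw [h3]
    exact mul_mem (IntermediateField.algebraMap_mem _ _)
      (IntermediateField.subset_adjoin ℚ _ ⟨i, rfl⟩)
  obtain ⟨h3, h4⟩ := ld_multi k L β s hs0 hβ2 htop'
  refine ⟨h4, ?_⟩
  have h5 : ld L ≤ (n + 1) * ∑ i, ht (T (J i)) + k * c1 - k * (M / 2 * Real.log 2) := by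
    refine h3.trans ?_
    calc ∑ i, (1 / 2) * Real.log (4 * |(s i : ℝ)|) ≤
        ∑ i : Fin k, ((n + 1) * ht (T (J i)) + (c1 - M / 2 * Real.log 2)) := by
          refine Finset.sum_le_sum fun i _ => ?_
          have h6 := hsl i
          have h8 : (M : ℝ) ≤ J i := by exact_mod_cast (hJ i).1
          nlinarith
      _ = (n + 1) * ∑ i, ht (T (J i)) + k * c1 - k * (M / 2 * Real.log 2) := by
          rw [Finset.sum_add_distrib, ← Finset.mul_sum, Finset.sum_const, Finset.card_univ,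
            Fintype.card_fin, nsmul_eq_mul]
          ring
  have h6 : (I.card : ℝ) * (M / 2 * Real.log 2) ≤
      ∑ i ∈ I, (1 / 2) * (padicValInt 2 ((T (J i)).num - 3 * ((T (J i)).den : ℤ)) : ℝ) * Real.log 2 := by
    rw [← nsmul_eq_mul, ← Finset.sum_const]
    refine Finset.sum_le_sum fun i _ => ?_
    have h8 := prox_T (j := J i) (by have := (hJ i).1; omega)
    have h9 : (M : ℝ) ≤ (padicValInt 2 ((T (J i)).num - 3 * ((T (J i)).den : ℤ)) : ℝ) := by
      exact_mod_cast (hJ i).1.trans h8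
    nlinarith
  -- the logarithm of the height
  have h8 : (1 : ℝ) ≤ ∑ i, ht (T (J i)) := by
    have i0 : Fin k := ⟨0, by omega⟩
    have h9 : ht (T (J i0)) ≤ ∑ i, ht (T (J i)) :=
      Finset.single_le_sum (f := fun i => ht (T (J i))) (fun i _ => ht_nonneg _) (Finset.mem_univ i0)
    have h10 := ht_T_ge (j := J i0) (by have := (hJ i0).1; omega)
    have h11 : (2 : ℝ) ≤ J i0 := by
      have := (hJ i0).1
      exact_mod_cast hM2.trans this
    have h12 : 1 / 2 ≤ Real.log 2 := by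
      have := Real.log_two_gt_d9
      linarith
    nlinarith
  have h9 : ∑ i, ht (T (J i)) ≤ (k * C1) * 4 ^ (M + δ) := by
    calc ∑ i, ht (T (J i)) ≤ ∑ _i : Fin k, C1 * 4 ^ (M + δ) := by
          refine Finset.sum_le_sum fun i _ => (h2 _).trans ?_
          exact mul_le_mul_of_nonneg_left (pow_le_pow_right₀ (by norm_num) (hJ i).2) hC1.le
      _ = (k * C1) * 4 ^ (M + δ) := by
          rw [Finset.sum_const, Finset.card_univ, Fintype.card_fin, nsmul_eq_mul]
          ring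
  have hk1 : (0 : ℝ) < k := by
    have : (1 : ℝ) ≤ k := by exact_mod_cast hk
    linarith
  have h10 : Real.log (∑ i, ht (T (J i))) ≤ Real.log (k * C1) + 2 * (M + δ) * Real.log 2 := by
    have h11 := Real.log_le_log (by linarith) h9
    rw [Real.log_mul (by positivity) (by positivity), Real.log_pow] at h11
    have h12 : Real.log 4 = 2 * Real.log 2 := by
      rw [show (4 : ℝ) = 2 ^ 2 by norm_num, Real.log_pow]
      push_cast
      ring
    rw [h12] at h11
    push_cast at h11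
    linarith
  have h11 : 0 ≤ Real.log (∑ i, ht (T (J i))) := Real.log_nonneg h8
  have h12 : c * Real.log (∑ i, ht (T (J i))) ≤
      c' * (Real.log (k * C1) + 2 * (M + δ) * Real.log 2) :=
    (mul_le_mul_of_nonneg_right hcc h11).trans (mul_le_mul_of_nonneg_left h10 hc'0)
  have h13 : A < M * B := by
    rw [div_lt_iff₀ hB0] at hJ1
    have h14 : (J1 : ℝ) ≤ M := by exact_mod_cast hM1
    nlinarith
  rw [hA, hB] at h13
  linarith

end Pool.Agent.R338.Dbl
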