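import Mathlib
import Pool.Agent.R338.Bi

set_option autoImplicit false

/-!
Quadratic points of the surface `y ^ 2 = F (x₁) F (x₂)` over the orbits.
-/

namespace Pool.Agent.R338.Dbl

open NumberField Module IntermediateField
open Pool.Agent.Y733.VR

lemma ld_quad (z : ℚ) (hz : IsSquare (z ^ 3 - 2)) (j : ℕ) (L : Type) [Field L] [NumberField L]
    (y : L) (hy : y ^ 2 = ((F z * F (phi^[j] z) : ℚ) : L)) (htop : ℚ⟮y⟯ = ⊤) :
    ld L ≤ 2 * (ht (phi^[j] z) - ht z) + (Real.log 4 + j * c₀) ∧ finrank ℚ L ≤ 2 := by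
  obtain ⟨s, r, hs, hr, h1, h2⟩ := chain hz j
  obtain ⟨w0, hw0⟩ := hz
  obtain ⟨w1, hw1⟩ := sq_iter ⟨w0, hw0⟩ j
  have n0 : w0 ≠ 0 := by
    rintro rfl
    exact cube_ne z (by rw [hw0]; ring)
  have n1 : w1 ≠ 0 := by
    rintro rfl
    exact cube_ne (phi^[j] z) (by rw [hw1]; ring)
  have hg : g z ≠ 0 := g_ne ⟨w0, hw0⟩
  set q : ℚ := g z * r * w0 * w1 with hq
  have hq0 : q ≠ 0 := mul_ne_zero (mul_ne_zero (mul_ne_zero hg hr) n0) n1
  have hqL : ((q : ℚ) : L) ≠ 0 := by exact_mod_cast hq0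
  have hF : F z * F (phi^[j] z) = s * q ^ 2 := by
    rw [F_eq, F_eq, hw0, hw1, h1, hq]
    ring
  set β : L := y / ((q : ℚ) : L) with hβ
  have hβ2 : β ^ 2 = (s : L) := by
    rw [hβ, div_pow, hy, hF, div_eq_iff (pow_ne_zero _ hqL)]
    push_cast
    ring
  have htop' : ℚ⟮β⟯ = ⊤ := by
    rw [eq_top_iff, ← htop, IntermediateField.adjoin_simple_le_iff]
    have h3 : y = β * algebraMap ℚ L q := by
      rw [hβ, eq_ratCast, div_mul_cancel₀ _ hqL]
    rw [h3]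
    exact (ℚ⟮β⟯).mul_mem (IntermediateField.mem_adjoin_simple_self ℚ β) ((ℚ⟮β⟯).algebraMap_mem _)
  obtain ⟨h3, h4⟩ := ld_multi 1 L (fun _ => β) (fun _ => s) (fun _ => hs) (fun _ => hβ2) (by
    have : Set.range (fun _ : Fin 1 => β) = {β} := Set.range_const
    rw [this]
    exact htop')
  refine ⟨h3.trans ?_, by simpa using h4⟩
  simp only [Finset.univ_unique, Finset.sum_const, Finset.card_singleton, one_smul]
  rw [Real.log_mul (by norm_num) (by exact_mod_cast (abs_pos.2 hs).ne')]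
  have hl4 : 0 ≤ Real.log 4 := Real.log_nonneg (by norm_num)
  have hc : 0 ≤ (j : ℝ) * c₀ := mul_nonneg (Nat.cast_nonneg _) c₀_nonneg
  linarith

/-- the inequality for the points of the surface -/
def VI (G : MvPolynomial (Fin 2) ℚ) (ψ : ℝ → ℝ) : Prop :=
  ∀ (L : Type) [Field L] [NumberField L] (x₁ x₂ : ℚ) (y : L),
    y ^ 2 = ((F x₁ * F x₂ : ℚ) : L) → ℚ⟮y⟯ = ⊤ → finrank ℚ L ≤ 2 →
    MvPolynomial.eval ![x₁, x₂] G ≠ 0 →
    2 * (ht x₁ + ht x₂) ≤ ld L + ψ (ht x₁ + ht x₂)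

lemma VI.swap {G : MvPolynomial (Fin 2) ℚ} {ψ : ℝ → ℝ} (h : VI G ψ) :
    VI (MvPolynomial.rename (Equiv.swap (0 : Fin 2) 1) G) ψ := by
  intro L _ _ x₁ x₂ y hy htop hdeg hG
  rw [MvPolynomial.eval_rename] at hG
  have e : (![x₁, x₂] : Fin 2 → ℚ) ∘ (Equiv.swap (0 : Fin 2) 1) = ![x₂, x₁] := by
    funext i
    fin_cases i <;> simp
  rw [e] at hG
  have := h L x₂ x₁ y (by rw [hy, mul_comm]) htop hdeg hG
  rw [add_comm (ht x₂)] at this
  exact this

lemma VI.vanish {G : MvPolynomial (Fin 2) ℚ} {ψ : ℝ → ℝ} (hV : VI G ψ) (ε c : ℝ) (hε : 0 ≤ ε)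
    (hψ : ∀ᶠ t in Filter.atTop, ψ t ≤ ε * t + c) (j : ℕ) (hj : ε * (1 + 4 ^ j) < 4) (k : ℕ) :
    MvPolynomial.eval ![X k, X (k + j)] G = 0 := by
  -- the function vanishes at almost all points of the orbit
  suffices h : ∀ᶠ k in Filter.atTop, MvPolynomial.eval ![X k, phi^[j] (X k)] G = 0 by
    rw [← X_add]
    refine IsRF.eq_zero (F := fun x => MvPolynomial.eval ![x, phi^[j] x] G)
      (IsRF.eval (fun x => ![x, phi^[j] x]) (fun i => ?_) G) ?_ (X k)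
    · fin_cases i
      · exact IsRF.id
      · exact IsRF.iter j
    · obtain ⟨N, hN⟩ := Filter.eventually_atTop.1 h
      refine (Set.infinite_of_injective_forall_mem (f := fun k : ℕ => X (N + k)) ?_ ?_)
      · intro a b hab
        have := X_injective hab
        omega
      · intro k
        exact hN _ (Nat.le_add_right _ _)
  obtain ⟨T, hT⟩ := Filter.eventually_atTop.1 hψ
  set a : ℝ := Real.log 17 with ha
  set b : ℝ := Real.log 1008 / 3 with hb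
  have ha0 : 0 ≤ a := Real.log_nonneg (by norm_num)
  have hb0 : 0 ≤ b := div_nonneg (Real.log_nonneg (by norm_num)) (by norm_num)
  set δ : ℝ := 4 - ε * (1 + 4 ^ j) with hδ
  have hδ0 : 0 < δ := by linarith
  have hev : ∀ᶠ k in Filter.atTop,
      max ((ε * 4 ^ j * a + c + (Real.log 4 + j * c₀)) / δ + 1) T ≤ ht (X k) :=
    ht_X_tendsto.eventually_ge_atTop _
  filter_upwards [hev] with k hk
  by_contra hne
  obtain ⟨hk1, hk2⟩ := max_le_iff.1 hk
  set z := X k with hz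
  -- the field
  obtain ⟨y, hy⟩ : ∃ y : ℂ, y ^ 2 = ((F z * F (phi^[j] z) : ℚ) : ℂ) :=
    IsAlgClosed.exists_pow_nat_eq _ (by norm_num)
  have hint : IsIntegral ℚ y := by
    refine ⟨Polynomial.X ^ 2 - Polynomial.C (F z * F (phi^[j] z)),
      Polynomial.monic_X_pow_sub_C _ (by norm_num), ?_⟩
    rw [Polynomial.eval₂_sub, Polynomial.eval₂_pow, Polynomial.eval₂_X, Polynomial.eval₂_C, hy]
    simp
  have hfd : FiniteDimensional ℚ ℚ⟮y⟯ := IntermediateField.adjoin.finiteDimensional hint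
  have hNF : NumberField ℚ⟮y⟯ := { to_charZero := inferInstance, to_finiteDimensional := hfd }
  have hmy : y ∈ ℚ⟮y⟯ := IntermediateField.mem_adjoin_simple_self ℚ y
  have hy' : (⟨y, hmy⟩ : ℚ⟮y⟯) ^ 2 = ((F z * F (phi^[j] z) : ℚ) : ℚ⟮y⟯) := by
    apply Subtype.ext
    have := hy
    simpa using this
  have htop : ℚ⟮(⟨y, hmy⟩ : ℚ⟮y⟯)⟯ = ⊤ := by
    apply R338.adjoin_self_top
    rw [Set.image_singleton]
  obtain ⟨h1, h2⟩ := ld_quad z (X_sq k) j ℚ⟮y⟯ ⟨y, hmy⟩ hy' htop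
  have h3 := hV ℚ⟮y⟯ z (phi^[j] z) ⟨y, hmy⟩ hy' htop h2 hne
  have h4 := ht_nonneg (phi^[j] z)
  have h5 := hT (ht z + ht (phi^[j] z)) (by linarith)
  have h6 := ht_iter_le j z
  rw [← ha] at h6
  have h7 : ε * ht (phi^[j] z) ≤ ε * (4 ^ j * (ht z + a)) :=
    mul_le_mul_of_nonneg_left (by linarith) hε
  have h8 : δ * ht z ≤ ε * 4 ^ j * a + c + (Real.log 4 + j * c₀) := by
    rw [hδ]
    nlinarith
  have : ht z ≤ (ε * 4 ^ j * a + c + (Real.log 4 + j * c₀)) / δ := by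
    rw [le_div_iff₀ hδ0]
    linarith
  linarith

/-- the degrees of the exceptional set -/
theorem VI.degree {G : MvPolynomial (Fin 2) ℚ} {ψ : ℝ → ℝ} (hV : VI G ψ) (hG : G ≠ 0) (ε c : ℝ)
    (hε : 0 ≤ ε) (hψ : ∀ᶠ t in Filter.atTop, ψ t ≤ ε * t + c) (n : ℕ)
    (hn : ∀ j < n, ε * (1 + 4 ^ j) < 4) (i : Fin 2) :
    ∑ j ∈ Finset.range n, 4 ^ j ≤ G.degreeOf i := by
  have h0 := degree_ge n G hG (fun j hj k => hV.vanish ε c hε hψ j (hn j hj) k)
  have hinj : Function.Injective (Equiv.swap (0 : Fin 2) 1) := Equiv.injective _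
  have h1 := degree_ge n (MvPolynomial.rename (Equiv.swap (0 : Fin 2) 1) G)
    (by
      rw [Ne, map_eq_zero_iff _ (MvPolynomial.rename_injective _ hinj)]
      exact hG)
    (fun j hj k => hV.swap.vanish ε c hε hψ j (hn j hj) k)
  have h2 : (MvPolynomial.rename (Equiv.swap (0 : Fin 2) 1) G).degreeOf 0 = G.degreeOf 1 := by
    have := MvPolynomial.degreeOf_rename_of_injective (p := G) hinj 1
    rw [Equiv.swap_apply_right] at this
    exact this
  rw [h2] at h1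
  fin_cases i
  · exact h0
  · exact h1

/-- the degrees of the exceptional set, explicit version -/
theorem VI.degree' {G : MvPolynomial (Fin 2) ℚ} {ψ : ℝ → ℝ} (hV : VI G ψ) (hG : G ≠ 0) (ε c : ℝ)
    (hε : 0 < ε) (hψ : ∀ᶠ t in Filter.atTop, ψ t ≤ ε * t + c) (i : Fin 2) :
    (4 / ε - 2) / 3 ≤ (G.degreeOf i : ℝ) := by
  have hex : ∃ n : ℕ, 4 ≤ ε * (1 + 4 ^ n) := by
    obtain ⟨n, hn⟩ := pow_unbounded_of_one_lt (4 / ε) (by norm_num : (1 : ℝ) < 4)
    refine ⟨n, ?_⟩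
    rw [div_lt_iff₀ hε] at hn
    nlinarith
  classical
  have h1 := Nat.find_spec hex
  set n := Nat.find hex with hn
  have h2 : ∀ j < n, ε * (1 + 4 ^ j) < 4 := fun j hj => by
    have := Nat.find_min hex hj
    push Not at this
    exact this
  have h3 := hV.degree hG ε c hε.le hψ n h2 i
  have h4 : (∑ j ∈ Finset.range n, (4 : ℝ) ^ j) = (4 ^ n - 1) / 3 := by
    rw [geom_sum_eq (by norm_num)]
    norm_num
  have h5 : ((∑ j ∈ Finset.range n, 4 ^ j : ℕ) : ℝ) ≤ (G.degreeOf i : ℝ) := by exact_mod_cast h3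
  push_cast at h5
  rw [h4] at h5
  have h6 : 4 / ε ≤ 1 + 4 ^ n := by
    rw [div_le_iff₀ hε]
    linarith
  linarith

end Pool.Agent.R338.Dbl
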