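import Mathlib
import Pool.Agent.TH954.Ht

set_option autoImplicit false

/-!
Points `(x, y z)` with rational `x, z` on an elliptic curve over `ℚ`, where `y ^ 2` is rational:
they form a group, and the height of their `x`-coordinates satisfies the parallelogram law
uniformly in `y`.
-/

open WeierstrassCurve Height

namespace Pool.Agent.R338.Tw

open Pool.Agent.TH942 Pool.Agent.TH954

section group

variable {L : Type} [Field L] [CharZero L] [DecidableEq L] {a b D : ℚ} {y : L}

/-- the form of the points -/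
def IsTw (y : L) (P : SPt (a : L) (b : L)) : Prop :=
  P = 0 ∨ ∃ (x z : ℚ) (h : (sw (a : L) (b : L)).toAffine.Nonsingular (x : L) (y * (z : L))),
    P = Affine.Point.some (x : L) (y * (z : L)) h

lemma isTw_of_eq {x' y' : L} (h : (sw (a : L) (b : L)).toAffine.Nonsingular x' y') (x z : ℚ)
    (hx : x' = x) (hy : y' = y * z) : IsTw y (Affine.Point.some x' y' h : SPt (a : L) (b : L)) := by
  subst hx hy
  exact Or.inr ⟨x, z, h, rfl⟩

lemma isTw_neg {P : SPt (a : L) (b : L)} (hP : IsTw y P) : IsTw y (-P) := by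
  rcases hP with rfl | ⟨x, z, h, rfl⟩
  · exact Or.inl neg_zero
  · have hs : Short (sw (a : L) (b : L)) := ⟨rfl, rfl, rfl⟩
    rw [hs.neg_some]
    exact isTw_of_eq _ x (-z) rfl (by push_cast; ring)

lemma isTw_slope (hy : y ^ 2 = (D : L)) {x1 x2 z1 ρ : ℚ} {s : L} (hs : s = y * ρ)
    (h : (sw (a : L) (b : L)).toAffine.Nonsingular
      ((sw (a : L) (b : L)).toAffine.addX (x1 : L) x2 s)
      ((sw (a : L) (b : L)).toAffine.addY (x1 : L) x2 (y * z1) s)) :
    IsTw y (Affine.Point.some _ _ h : SPt (a : L) (b : L)) := by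
  have e1 : (sw (a : L) (b : L)).toAffine.addX (x1 : L) x2 s = ((D * ρ ^ 2 - x1 - x2 : ℚ) : L) := by
    rw [hs]
    simp only [Affine.addX, sw]
    push_cast
    rw [← hy]
    ring
  refine isTw_of_eq h (D * ρ ^ 2 - x1 - x2) (-(ρ * (D * ρ ^ 2 - x1 - x2 - x1) + z1)) e1 ?_
  rw [Affine.addY, Affine.negAddY, e1, hs]
  simp only [Affine.negY, sw]
  push_cast
  ring

lemma isTw_add (hD : D ≠ 0) (hy : y ^ 2 = (D : L)) {P Q : SPt (a : L) (b : L)} (hP : IsTw y P)
    (hQ : IsTw y Q) : IsTw y (P + Q) := by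
  rcases hP with rfl | ⟨x1, z1, h1, rfl⟩
  · rw [zero_add]; exact hQ
  rcases hQ with rfl | ⟨x2, z2, h2, rfl⟩
  · rw [add_zero]; exact Or.inr ⟨x1, z1, h1, rfl⟩
  have hy0 : y ≠ 0 := by
    intro h0
    rw [h0] at hy
    apply hD
    have : (D : L) = 0 := by rw [← hy]; ring
    exact_mod_cast this
  by_cases hxy : (x1 : L) = x2 ∧ y * (z1 : L) = (sw (a : L) (b : L)).toAffine.negY (x2 : L) (y * z2)
  · rw [Affine.Point.add_of_Y_eq hxy.1 hxy.2]
    exact Or.inl rfl
  · rw [Affine.Point.add_some hxy]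
    by_cases hx : x1 = x2
    · subst hx
      have e1 := sw_eqn.mp h1.1
      have e2 := sw_eqn.mp h2.1
      have hneg : (sw (a : L) (b : L)).toAffine.negY (x1 : L) (y * z2) = -(y * z2) := by
        simp only [Affine.negY, sw]
        ring
      rw [hneg] at hxy
      have hne : y * (z1 : L) ≠ -(y * z2) := fun h => hxy ⟨rfl, h⟩
      have hzz : (y * (z1 : L) - y * z2) * (y * z1 + y * z2) = 0 := by
        linear_combination e1 - e2
      have hz : y * (z1 : L) = y * z2 := by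
        rcases mul_eq_zero.mp hzz with h | h
        · exact sub_eq_zero.mp h
        · exact absurd (eq_neg_of_add_eq_zero_left h) hne
      have hz1 : (z1 : L) ≠ 0 := by
        intro h0
        apply hne
        rw [← hz, h0, mul_zero, neg_zero]
      have hDL : (D : L) ≠ 0 := by exact_mod_cast hD
      refine isTw_slope hy (ρ := (3 * x1 ^ 2 + a) / (2 * D * z1)) ?_ _
      rw [Affine.slope_of_Y_ne rfl (by rw [hneg]; exact hne)]
      simp only [Affine.negY, sw]
      push_cast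
      have e3 : y * (z1 : L) - (-(y * z1) - 0 * (x1 : L) - 0) = 2 * y * z1 := by ring
      rw [e3, ← hy]
      field_simp
      ring
    · have hx' : (x1 : L) ≠ x2 := by exact_mod_cast hx
      have hx'' : (x1 : L) - x2 ≠ 0 := sub_ne_zero.mpr hx'
      refine isTw_slope hy (ρ := (z1 - z2) / (x1 - x2)) ?_ _
      rw [Affine.slope_of_X_ne hx']
      push_cast
      field_simp

/-- the group of the points of this form -/
def twGrp (hD : D ≠ 0) (hy : y ^ 2 = (D : L)) : AddSubgroup (SPt (a : L) (b : L)) where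
  carrier := {P | IsTw y P}
  zero_mem' := Or.inl rfl
  add_mem' hP hQ := isTw_add hD hy hP hQ
  neg_mem' hP := isTw_neg hP

lemma isTw_zsmul (hD : D ≠ 0) (hy : y ^ 2 = (D : L)) {P : SPt (a : L) (b : L)} (hP : IsTw y P)
    (m : ℤ) : IsTw y (m • P) :=
  (twGrp hD hy).zsmul_mem hP m

end group

section height

variable {a b : ℚ}

/-- the height of the `x`-coordinate over `ℚ` -/
noncomputable def hx {L : Type} [Field L] [CharZero L] (P : SPt (a : L) (b : L)) : ℝ :=
  open Classical in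
  if h : ∃ r : Fin 2 → ℚ, P.xRep = fun i => ((r i : ℚ) : L) then logHeight h.choose else 0

lemma hx_eq {L : Type} [Field L] [CharZero L] {P : SPt (a : L) (b : L)} {r : Fin 2 → ℚ}
    (h : P.xRep = fun i => ((r i : ℚ) : L)) : hx P = logHeight r := by
  have hex : ∃ r : Fin 2 → ℚ, P.xRep = fun i => ((r i : ℚ) : L) := ⟨r, h⟩
  unfold hx
  rw [dif_pos hex]
  congr 1
  have h1 := h.symm.trans hex.choose_spec
  funext i
  have h2 : ((r i : ℚ) : L) = ((hex.choose i : ℚ) : L) := congrFun h1 i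
  exact_mod_cast h2.symm

lemma rep_of_tw {L : Type} [Field L] [CharZero L] {y : L} {P : SPt (a : L) (b : L)}
    (hP : IsTw y P) : ∃ r : Fin 2 → ℚ, r ≠ 0 ∧ P.xRep = fun i => ((r i : ℚ) : L) := by
  rcases hP with rfl | ⟨x, z, h, rfl⟩
  · refine ⟨![1, 0], ?_, ?_⟩
    · intro h
      have := congrFun h 0
      simp at this
    · rw [Affine.Point.xRep_zero]
      funext i
      fin_cases i <;> simp
  · refine ⟨![x, 1], ?_, ?_⟩
    · intro h
      have := congrFun h 1
      simp at this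
    · rw [Affine.Point.xRep_some]
      funext i
      fin_cases i <;> simp

/-- the parallelogram law for the `x`-coordinates, uniformly in the field -/
theorem par_unif (hab : 4 * a ^ 3 + 27 * b ^ 2 ≠ 0) : ∃ C : ℝ, 0 ≤ C ∧
    ∀ (L : Type) [Field L] [CharZero L] [DecidableEq L] (y : L) (P Q : SPt (a : L) (b : L)),
      IsTw y P → IsTw y Q → IsTw y (P + Q) → IsTw y (P - Q) →
      |hx (P + Q) + hx (P - Q) - 2 * (hx P + hx Q)| ≤ C := by
  have := sw_ell hab
  obtain ⟨C1, hC1⟩ := abs_logHeight_sym2_sub_le ℚ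
  obtain ⟨C2, hC2⟩ := WeierstrassCurve.abs_logHeight_addSubMap_sub_two_mul_logHeight_le (sw a b)
  set sy : (Fin 2 → ℚ) → (Fin 2 → ℚ) → (Fin 3 → ℚ) :=
    fun r s => ![r 0 * s 0, r 0 * s 1 + r 1 * s 0, r 1 * s 1] with hsy
  have hC1' : ∀ r s : Fin 2 → ℚ, r ≠ 0 → s ≠ 0 →
      |logHeight (sy r s) - (logHeight r + logHeight s)| ≤ C1 := by
    intro r s hr hs
    have er : r = ![r 0, r 1] := by ext i; fin_cases i <;> rfl
    have es : s = ![s 0, s 1] := by ext i; fin_cases i <;> rfl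
    have h1 := hC1 (a := r 0) (b := r 1) (c := s 0) (d := s 1) (by rwa [← er]) (by rwa [← es])
    rw [← er, ← es] at h1
    exact h1
  have key : ∀ (L : Type) [Field L] [CharZero L] [DecidableEq L] (y : L)
      (P Q : SPt (a : L) (b : L)),
      IsTw y P → IsTw y Q → IsTw y (P + Q) → IsTw y (P - Q) →
      |hx (P + Q) + hx (P - Q) - 2 * (hx P + hx Q)| ≤ 3 * C1 + C2 := by
    intro L _ _ _ y P Q hP hQ hPQ hPQ'
    obtain ⟨r, hr0, hr⟩ := rep_of_tw hP
    obtain ⟨s, hs0, hs⟩ := rep_of_tw hQ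
    obtain ⟨u, hu0, hu⟩ := rep_of_tw hPQ
    obtain ⟨w, hw0, hw⟩ := rep_of_tw hPQ'
    rw [hx_eq hr, hx_eq hs, hx_eq hu, hx_eq hw]
    have habL : 4 * (a : L) ^ 3 + 27 * (b : L) ^ 2 ≠ 0 := by exact_mod_cast hab
    obtain ⟨c, hc, hceq⟩ := saddSub_sym2x habL P Q
    have e1 : P.sym2x Q = ![((sy r s 0 : ℚ) : L), ((sy r s 1 : ℚ) : L), ((sy r s 2 : ℚ) : L)] := by
      simp only [Affine.Point.sym2x, hr, hs, hsy]
      ext i
      fin_cases i <;> simp
    have e2 : (P + Q).sym2x (P - Q) = fun i => ((sy u w i : ℚ) : L) := by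
      simp only [Affine.Point.sym2x, hu, hw, hsy]
      ext i
      fin_cases i <;> simp
    set V : Fin 3 → ℚ := fun i => (addSubMap (sw a b) i).eval (sy r s) with hV
    have esy : sy r s = ![sy r s 0, sy r s 1, sy r s 2] := by
      ext i; fin_cases i <;> rfl
    have e3 : (fun i => (addSubMap (sw (a : L) (b : L)) i).eval (P.sym2x Q)) =
        fun i => ((V i : ℚ) : L) := by
      rw [e1, seval_addSub]
      have hV' : V = ![(sy r s 0) ^ 2 - 2 * a * (sy r s 0) * (sy r s 2) -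
          4 * b * (sy r s 1) * (sy r s 2) + a ^ 2 * (sy r s 2) ^ 2,
          2 * (sy r s 1) * (sy r s 0) + 2 * a * (sy r s 1) * (sy r s 2) + 4 * b * (sy r s 2) ^ 2,
          (sy r s 1) ^ 2 - 4 * (sy r s 0) * (sy r s 2)] := by
        rw [hV, ← seval_addSub, ← esy]
      rw [hV']
      funext i
      fin_cases i <;> simp
    rw [e3, e2] at hceq
    -- c is rational
    have hne : (fun i => ((sy u w i : ℚ) : L)) ≠ 0 := by
      rw [← e2]
      exact Affine.Point.sym2x_ne_zero _ _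
    obtain ⟨i, hi⟩ := Function.ne_iff.mp hne
    have hi' : sy u w i ≠ 0 := by
      intro h0
      apply hi
      show ((sy u w i : ℚ) : L) = 0
      rw [h0, Rat.cast_zero]
    set c' : ℚ := V i / sy u w i with hc'
    have hcc : c = (c' : L) := by
      have h1 := congrFun hceq i
      simp only [Pi.smul_apply, smul_eq_mul] at h1
      have h2 : ((sy u w i : ℚ) : L) ≠ 0 := by exact_mod_cast hi'
      rw [hc', Rat.cast_div, h1, mul_div_cancel_right₀ _ h2]
    have hc'0 : c' ≠ 0 := by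
      intro h0
      apply hc
      rw [hcc, h0, Rat.cast_zero]
    have hVq : V = c' • sy u w := by
      funext j
      have h1 := congrFun hceq j
      simp only [Pi.smul_apply, smul_eq_mul, hcc] at h1
      show V j = c' * sy u w j
      exact_mod_cast h1
    have a1 := hC1' r s hr0 hs0
    have a2 := hC1' u w hu0 hw0
    have a3 := hC2 (sy r s)
    have a4 : (fun i => (addSubMap (sw a b) i).eval (sy r s)) = c' • sy u w := hVq
    rw [a4, logHeight_smul_eq_logHeight _ hc'0] at a3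
    rw [abs_le] at a1 a2 a3 ⊢
    constructor <;> linarith [a1.1, a1.2, a2.1, a2.2, a3.1, a3.2]
  refine ⟨max (3 * C1 + C2) 0, le_max_right _ _, ?_⟩
  intro L _ _ _ y P Q h1 h2 h3 h4
  exact (key L y P Q h1 h2 h3 h4).trans (le_max_left _ _)

lemma hx_zero {L : Type} [Field L] [CharZero L] : hx (0 : SPt (a : L) (b : L)) = 0 := by
  have h : (0 : SPt (a : L) (b : L)).xRep = fun i => (((![1, 0] : Fin 2 → ℚ) i : ℚ) : L) := by
    rw [Affine.Point.xRep_zero]
    funext i
    fin_cases i <;> simp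
  rw [hx_eq h, logHeight_swap, ← logHeight₁_eq_logHeight, logHeight₁_zero]

/-- heights of multiples, uniformly -/
theorem mul_unif (hab : 4 * a ^ 3 + 27 * b ^ 2 ≠ 0) : ∃ C : ℝ, 0 ≤ C ∧
    ∀ (L : Type) [Field L] [CharZero L] [DecidableEq L] (D : ℚ) (y : L), D ≠ 0 → y ^ 2 = (D : L) →
      ∀ (P : SPt (a : L) (b : L)), IsTw y P → ∀ m : ℕ,
      |hx (m • P) - (m : ℝ) ^ 2 * hx P| ≤ C * (m : ℝ) ^ 2 := by
  obtain ⟨C, hC0, hC⟩ := par_unif hab
  refine ⟨C, hC0, ?_⟩
  intro L _ _ _ D y hD hy P hP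
  have htw : ∀ m : ℕ, IsTw y (m • P) := fun m => (twGrp hD hy).nsmul_mem hP m
  have main : ∀ m : ℕ, |hx (m • P) - (m : ℝ) ^ 2 * hx P| ≤ C * (m : ℝ) ^ 2 ∧
      |(hx ((m + 1) • P) - ((m : ℝ) + 1) ^ 2 * hx P) - (hx (m • P) - (m : ℝ) ^ 2 * hx P)| ≤
        C * m := by
    intro m
    induction m with
    | zero =>
      simp [hx_zero]
    | succ m ih =>
      obtain ⟨h1, h2⟩ := ih
      have e1 : (m + 1) • P + P = (m + 1 + 1) • P := by rw [succ_nsmul P (m + 1)]
      have e2 : (m + 1) • P - P = m • P := by rw [succ_nsmul P m]; abel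
      have h3 := hC L y ((m + 1) • P) P (htw _) hP (by rw [e1]; exact htw _)
        (by rw [e2]; exact htw _)
      rw [e1, e2] at h3
      push_cast
      rw [abs_le] at h1 h2 h3 ⊢
      have hm : (0 : ℝ) ≤ m := Nat.cast_nonneg m
      refine ⟨⟨?_, ?_⟩, ?_⟩
      · nlinarith [h1.1, h2.1]
      · nlinarith [h1.2, h2.2]
      · rw [abs_le]
        constructor <;> nlinarith [h1.1, h2.1, h3.1, h1.2, h2.2, h3.2]
  exact fun m => (main m).1

end height

end Pool.Agent.R338.Tw
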