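import Mathlib
import Pool.Agent.R338.Tw1
import Pool.Agent.R338.Ab4
import Pool.Agent.R338.Multi
import Pool.Agent.Helper259.HtExt

set_option autoImplicit false

/-!
Multiples of quadratic points on an elliptic curve over `ℚ` which are close to the origin at the
archimedean places.
-/

open WeierstrassCurve NumberField Height Module

namespace Pool.Agent.R338.Tw

open Pool.Agent.TH942 Pool.Agent.TH954 Pool.Agent.R338.Ab

section defs

variable {L : Type} [Field L] [NumberField L]

/-- the `y`-coordinate (`0` at the origin) -/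
def yc {a b : L} : SPt a b → L
  | .zero => 0
  | .some _ y _ => y

/-- the proximity function of `D`, for the places above `∞` and the primes in `S` -/
noncomputable def prox (S : Finset ℕ) {n : ℕ} {a b : L} (p : Fin n → SPt a b) : ℝ :=
  ((∑ v : InfinitePlace L, v.mult * ∑ i, Real.posLog (v (xc (p i))) / 2) +
    ∑ᶠ w ∈ {w : FinitePlace L | ∃ q ∈ S, w ((q : ℕ) : L) < 1},
      ∑ i, Real.posLog (w (xc (p i))) / 2) / finrank ℚ L

/-- the height `h_A` -/
noncomputable def hA {n : ℕ} {a b : L} (p : Fin n → SPt a b) : ℝ :=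
  (∑ i, logHeight₁ (xc (p i)) / 2) / finrank ℚ L

end defs

section est

variable {a b : ℚ}

lemma log_le_ht (t : ℚ) (ht : 1 ≤ |t|) : Real.log |(t : ℝ)| ≤ logHeight₁ t := by
  rw [Rat.logHeight₁_eq_log_max]
  refine Real.log_le_log ?_ ?_
  · have : (1 : ℝ) ≤ |(t : ℝ)| := by exact_mod_cast ht
    linarith
  · have h1 : (t : ℝ) = t.num / t.den := by exact_mod_cast (Rat.num_div_den t).symm
    have h2 : (1 : ℝ) ≤ t.den := by exact_mod_cast t.den_pos
    rw [h1, abs_div, abs_of_pos (by linarith : (0 : ℝ) < t.den)]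
    have h3 : |(t.num : ℝ)| = (t.num.natAbs : ℝ) := by rw [Nat.cast_natAbs, Int.cast_abs]
    rw [h3]
    push_cast
    exact (div_le_self (Nat.cast_nonneg _) h2).trans (le_max_left _ _)

lemma ht_le_log (t : ℚ) (ht : 1 ≤ |t|) : logHeight₁ t ≤ Real.log |(t : ℝ)| + Real.log t.den := by
  have h2 : (0 : ℝ) < t.den := by exact_mod_cast t.den_pos
  have h0 : (1 : ℝ) ≤ |(t : ℝ)| := by exact_mod_cast ht
  rw [Rat.logHeight₁_eq_log_max, ← Real.log_mul (by linarith) h2.ne']
  have h3 : |(t.num : ℝ)| = (t.num.natAbs : ℝ) := by rw [Nat.cast_natAbs, Int.cast_abs]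
  have h1 : |(t : ℝ)| * t.den = (t.num.natAbs : ℝ) := by
    rw [← h3]
    have h4 : (t : ℝ) * t.den = t.num := by exact_mod_cast Rat.mul_den_eq_num t
    rw [← h4, abs_mul, abs_of_pos h2]
  have h5 : 0 < max t.num.natAbs t.den := lt_max_of_lt_right t.den_pos
  refine Real.log_le_log (by exact_mod_cast h5) ?_
  push_cast
  refine max_le h1.symm.le ?_
  nlinarith

variable {L : Type} [Field L] [NumberField L] [DecidableEq L]

lemma xc_ht {y : L} {P : SPt (a : L) (b : L)} (hP : IsTw y P) :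
    logHeight₁ (xc P) = finrank ℚ L * hx P := by
  rcases hP with rfl | ⟨x, z, h, rfl⟩
  · have : xc (0 : SPt (a : L) (b : L)) = 0 := rfl
    rw [this, logHeight₁_zero, hx_zero, mul_zero]
  · have h1 : (Affine.Point.some (x : L) (y * (z : L)) h : SPt (a : L) (b : L)).xRep =
        fun i => (((![x, 1] : Fin 2 → ℚ) i : ℚ) : L) := by
      rw [Affine.Point.xRep_some]
      funext i
      fin_cases i <;> simp
    rw [hx_eq h1, xc_some, logHeight₁_eq_logHeight, ← Pool.Agent.Helper259.HtExt.logHeight_ext (L := L)]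
    congr 1
    try (funext i; fin_cases i <;> simp)

lemma hx_zsmul_eq {P : SPt (a : L) (b : L)} (m : ℤ) : hx (m • P) = hx (m.natAbs • P) := by
  rcases Int.eq_nat_or_neg m with ⟨k, rfl | rfl⟩
  · rw [natCast_zsmul, Int.natAbs_natCast]
  · rw [neg_smul, natCast_zsmul, Int.natAbs_neg, Int.natAbs_natCast]
    unfold hx
    rw [Affine.Point.xRep_neg]

lemma inf_place_rat (v : InfinitePlace L) (t : ℚ) : v (t : L) = |(t : ℝ)| := by
  rw [InfinitePlace.map_ratCast, ← Rat.norm_cast_real, Real.norm_eq_abs]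

/-- all the estimates -/
theorem est (hab : 4 * a ^ 3 + 27 * b ^ 2 ≠ 0) : ∃ C : ℝ, 0 ≤ C ∧ ∀ M : ℕ, ∃ T0 : ℝ, 1 ≤ T0 ∧
    ∀ (L : Type) [Field L] [NumberField L] [DecidableEq L] (S : Finset ℕ) (s : ℤ) (β : L) (t w : ℚ)
      (h : (sw (a : L) (b : L)).toAffine.Nonsingular (t : L) (β * (w : L))),
      s ≠ 0 → β ^ 2 = (s : L) → w ≠ 0 → T0 ≤ |(t : ℝ)| →
      ¬ IsOfFinAddOrder (Affine.Point.some (t : L) (β * (w : L)) h : SPt (a : L) (b : L)) ∧
      ∀ (n : ℕ) (m : Fin n → ℤ), (∀ i, m i ≠ 0) → (∀ i, (m i).natAbs ≤ M) →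
        (n : ℝ) / 2 * (Real.log |(t : ℝ)| - M * Real.log 6) ≤
          prox S (fun i => m i • (Affine.Point.some (t : L) (β * (w : L)) h : SPt (a : L) (b : L))) ∧
        hA (fun i => m i • (Affine.Point.some (t : L) (β * (w : L)) h : SPt (a : L) (b : L))) ≤
          (∑ i, (m i : ℝ) ^ 2) * (logHeight₁ t + C) / 2 ∧
        (n : ℝ) / 2 * (Real.log |(t : ℝ)| - C) ≤
          hA (fun i => m i • (Affine.Point.some (t : L) (β * (w : L)) h : SPt (a : L) (b : L))) := by
  obtain ⟨C, hC0, hC⟩ := mul_unif hab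
  refine ⟨C, hC0, ?_⟩
  intro M
  set T0 : ℝ := max (100 * (1 + |(a : ℝ)| + |(b : ℝ)|) * 6 ^ M) (Real.exp (C + 1)) with hT0
  have h6M : (1 : ℝ) ≤ 6 ^ M := one_le_pow₀ (by norm_num)
  have hT01 : 1 ≤ T0 := by
    refine le_trans ?_ (le_max_left _ _)
    have h1 : (0 : ℝ) ≤ |(a : ℝ)| := abs_nonneg _
    have h2 : (0 : ℝ) ≤ |(b : ℝ)| := abs_nonneg _
    nlinarith
  refine ⟨T0, hT01, ?_⟩
  intro L _ _ _ S s β t w h hs hβ hw ht
  have hD : ((s : ℤ) : ℚ) ≠ 0 := by exact_mod_cast hs
  have hβD : β ^ 2 = (((s : ℤ) : ℚ) : L) := by rw [hβ]; push_cast; rfl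
  set P : SPt (a : L) (b : L) := Affine.Point.some (t : L) (β * (w : L)) h with hP
  have htw : IsTw β P := Or.inr ⟨t, w, h, rfl⟩
  have ht1 : 1 ≤ |t| := by
    have : (1 : ℝ) ≤ |(t : ℝ)| := hT01.trans ht
    exact_mod_cast this
  have htR : (1 : ℝ) ≤ |(t : ℝ)| := by exact_mod_cast ht1
  -- the height of P
  have hrep : P.xRep = fun i => (((![t, 1] : Fin 2 → ℚ) i : ℚ) : L) := by
    rw [hP, Affine.Point.xRep_some]
    funext i
    fin_cases i <;> simp
  have hxP : hx P = logHeight₁ t := by rw [hx_eq hrep, logHeight₁_eq_logHeight]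
  have hlogt := log_le_ht t ht1
  have hlogT : C + 1 ≤ Real.log |(t : ℝ)| := by
    rw [Real.le_log_iff_exp_le (by linarith)]
    exact (le_max_right _ _).trans ht
  have hmul := hC L (s : ℚ) β hD hβD P htw
  have hne : ∀ k : ℕ, 0 < k → k • P ≠ 0 := by
    intro k hk h0
    have h1 := hmul k
    rw [h0, hx_zero, zero_sub, abs_neg, hxP] at h1
    have hk2 : (0 : ℝ) < (k : ℝ) ^ 2 := by positivity
    have h2 := (le_abs_self _).trans h1
    have h3 : logHeight₁ t ≤ C := by
      by_contra hc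
      push Not at hc
      nlinarith
    linarith
  have hinf : ¬ IsOfFinAddOrder P := by
    intro hfin
    obtain ⟨k, hk, hk0⟩ := isOfFinAddOrder_iff_nsmul_eq_zero.mp hfin
    exact hne k hk hk0
  refine ⟨hinf, ?_⟩
  intro n m hm hmM
  have hmP : ∀ i, m i • P ≠ 0 := fun i => zsmul_ne_zero_of hinf (hm i)
  have hfr : (0 : ℝ) < finrank ℚ L := by exact_mod_cast finrank_pos
  have hsum : (∑ v : InfinitePlace L, (v.mult : ℝ)) = finrank ℚ L := by
    exact_mod_cast InfinitePlace.sum_mult_eq (K := L)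
  refine ⟨?_, ?_, ?_⟩
  · unfold prox
    rw [le_div_iff₀ hfr]
    have h1 : 0 ≤ ∑ᶠ w ∈ {w : FinitePlace L | ∃ q ∈ S, w ((q : ℕ) : L) < 1},
      ∑ i, Real.posLog (w (xc (m i • P))) / 2 :=
      finsum_nonneg fun w => finsum_nonneg fun _ => Finset.sum_nonneg fun i _ =>
        div_nonneg Real.posLog_nonneg (by norm_num)
    have h2 : ∀ v : InfinitePlace L, (n : ℝ) / 2 * (Real.log |(t : ℝ)| - M * Real.log 6) ≤
        ∑ i, Real.posLog (v (xc (m i • P))) / 2 := by
      intro v
      have h3 : ∀ i, (Real.log |(t : ℝ)| - M * Real.log 6) / 2 ≤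
          Real.posLog (v (xc (m i • P))) / 2 := by
        intro i
        have hva : v (a : L) = |(a : ℝ)| := inf_place_rat v a
        have hvb : v (b : L) = |(b : ℝ)| := inf_place_rat v b
        have hvt : v (t : L) = |(t : ℝ)| := inf_place_rat v t
        have h6 : (6 : ℝ) ^ (m i).natAbs ≤ 6 ^ M := pow_le_pow_right₀ (by norm_num) (hmM i)
        have h60 : (0 : ℝ) < 6 ^ (m i).natAbs := by positivity
        have hbound : 100 * (1 + v.1 (a : L) + v.1 (b : L)) * 6 ^ (m i).natAbs ≤ |(t : ℝ)| := by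
          have e1 : v.1 (a : L) = |(a : ℝ)| := hva
          have e2 : v.1 (b : L) = |(b : ℝ)| := hvb
          rw [e1, e2]
          refine le_trans ?_ ((le_max_left _ _).trans ht)
          exact mul_le_mul_of_nonneg_left h6 (by positivity)
        have hbig : BigV v.1 |(t : ℝ)| P := by
          rw [hP, bigV_some]
          exact hvt.symm.le
        have h4 := (short_sw (a : L) (b : L)).bigV_zsmul (by norm_num) v.1 (m i) hbound hbig
        have h5 := (bigV_iff _ _ _ (hmP i)).mp h4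
        have h7 : |(t : ℝ)| / 6 ^ M ≤ v (xc (m i • P)) := by
          refine le_trans ?_ h5
          exact div_le_div_of_nonneg_left (by linarith) h60 h6
        have h8 : Real.log (|(t : ℝ)| / 6 ^ M) ≤ Real.posLog (v (xc (m i • P))) := by
          refine le_trans (Real.log_le_log (by positivity) h7) (le_max_right _ _)
        rw [Real.log_div (by linarith) (by positivity), Real.log_pow] at h8
        linarith
      calc (n : ℝ) / 2 * (Real.log |(t : ℝ)| - M * Real.log 6) =
            ∑ _i : Fin n, (Real.log |(t : ℝ)| - M * Real.log 6) / 2 := by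
            rw [Finset.sum_const, Finset.card_univ, Fintype.card_fin, nsmul_eq_mul]
            ring
        _ ≤ _ := Finset.sum_le_sum fun i _ => h3 i
    have h3 : (n : ℝ) / 2 * (Real.log |(t : ℝ)| - M * Real.log 6) * finrank ℚ L ≤
        ∑ v : InfinitePlace L, v.mult * ∑ i, Real.posLog (v (xc (m i • P))) / 2 := by
      rw [← hsum, Finset.mul_sum]
      refine Finset.sum_le_sum fun v _ => ?_
      rw [mul_comm]
      exact mul_le_mul_of_nonneg_left (h2 v) (Nat.cast_nonneg _)
    linarith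
  · unfold hA
    rw [div_le_iff₀ hfr]
    have h1 : ∀ i, logHeight₁ (xc (m i • P)) ≤ finrank ℚ L * ((m i : ℝ) ^ 2 * (logHeight₁ t + C)) := by
      intro i
      rw [xc_ht (isTw_zsmul hD hβD htw (m i)), hx_zsmul_eq]
      refine mul_le_mul_of_nonneg_left ?_ hfr.le
      have h2 := (abs_le.mp (hmul (m i).natAbs)).2
      have h3 : (((m i).natAbs : ℕ) : ℝ) ^ 2 = (m i : ℝ) ^ 2 := by
        rw [Nat.cast_natAbs, Int.cast_abs, sq_abs]
      rw [h3, hxP] at h2
      linarith
    calc ∑ i, logHeight₁ (xc (m i • P)) / 2 ≤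
          ∑ i, (finrank ℚ L * ((m i : ℝ) ^ 2 * (logHeight₁ t + C))) / 2 :=
          Finset.sum_le_sum fun i _ => by linarith [h1 i]
      _ = (∑ i, (m i : ℝ) ^ 2) * (logHeight₁ t + C) / 2 * finrank ℚ L := by
          rw [← Finset.sum_div, ← Finset.mul_sum, ← Finset.sum_mul]
          ring
  · unfold hA
    rw [le_div_iff₀ hfr]
    have h1 : ∀ i, finrank ℚ L * (Real.log |(t : ℝ)| - C) ≤ logHeight₁ (xc (m i • P)) := by
      intro i
      rw [xc_ht (isTw_zsmul hD hβD htw (m i)), hx_zsmul_eq]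
      refine mul_le_mul_of_nonneg_left ?_ hfr.le
      have h2 := (abs_le.mp (hmul (m i).natAbs)).1
      rw [hxP] at h2
      have h3 : (1 : ℝ) ≤ (((m i).natAbs : ℕ) : ℝ) ^ 2 := by
        refine one_le_pow₀ ?_
        have := Int.natAbs_pos.mpr (hm i)
        exact_mod_cast this
      have h4 : 0 ≤ logHeight₁ t - C := by linarith
      nlinarith
    calc (n : ℝ) / 2 * (Real.log |(t : ℝ)| - C) * finrank ℚ L =
          ∑ _i : Fin n, finrank ℚ L * (Real.log |(t : ℝ)| - C) / 2 := by
          rw [Finset.sum_const, Finset.card_univ, Fintype.card_fin, nsmul_eq_mul]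
          ring
      _ ≤ _ := Finset.sum_le_sum fun i _ => by linarith [h1 i]

/-- the coordinates of a multiple generate the field -/
lemma gen_top {D : ℚ} {β : L} (hD : D ≠ 0) (hβ : β ^ 2 = (D : L))
    (htop : IntermediateField.adjoin ℚ {β} = ⊤) {P : SPt (a : L) (b : L)} (htw : IsTw β P)
    (hinf : ¬ IsOfFinAddOrder P) {n : ℕ} (hn : 0 < n) (m : Fin n → ℤ) (hm : ∀ i, m i ≠ 0) :
    IntermediateField.adjoin ℚ (Set.range (fun i => xc (m i • P)) ∪
      Set.range (fun i => yc (m i • P))) = ⊤ := by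
  rw [eq_top_iff, ← htop, IntermediateField.adjoin_simple_le_iff]
  set i0 : Fin n := ⟨0, hn⟩
  have h1 : m i0 • P ≠ 0 := zsmul_ne_zero_of hinf (hm i0)
  rcases isTw_zsmul hD hβ htw (m i0) with h0 | ⟨x, z, h, hxz⟩
  · exact absurd h0 h1
  · have hz : z ≠ 0 := by
      intro hz0
      have h2 : (m i0 + m i0) • P = 0 := by
        rw [add_smul]
        have e : m i0 • P = -(m i0 • P) := by
          rw [hxz, (short_sw (a : L) (b : L)).neg_some]
          congr 1
          rw [hz0, Rat.cast_zero, mul_zero, neg_zero]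
        rw [add_eq_zero_iff_eq_neg]
        exact e
      exact zsmul_ne_zero_of hinf (by have := hm i0; omega) h2
    have hmem : β * (z : L) ∈ IntermediateField.adjoin ℚ (Set.range (fun i => xc (m i • P)) ∪
        Set.range (fun i => yc (m i • P))) := by
      refine IntermediateField.subset_adjoin ℚ _ (Or.inr ⟨i0, ?_⟩)
      show yc (m i0 • P) = _
      rw [hxz]
      rfl
    have hz' : (z : L) ≠ 0 := by exact_mod_cast hz
    have e : β = (β * (z : L)) / ((z : ℚ) : L) := by
      rw [mul_div_cancel_right₀ _ hz']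
    rw [e]
    refine div_mem hmem ?_
    have := (IntermediateField.adjoin ℚ (Set.range (fun i => xc (m i • P)) ∪
        Set.range (fun i => yc (m i • P)))).algebraMap_mem z
    rwa [eq_ratCast] at this

end est

end Pool.Agent.R338.Tw
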