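import Mathlib

set_option autoImplicit false

/-!
Rational numbers `t` such that the cubic polynomial `t ^ 3 + a t + b` has a small squarefree part.
-/

namespace Pool.Agent.R338.Tw

/-- families of rational numbers with small squarefree part of the cubic -/
def Fam (a b : ℚ) (θ : ℝ) : Prop :=
  ∃ C : ℝ, ∀ T : ℝ, ∃ (t w : ℚ) (s : ℤ), T ≤ |(t : ℝ)| ∧ s ≠ 0 ∧ w ≠ 0 ∧
    t ^ 3 + a * t + b = s * w ^ 2 ∧ Real.log |(s : ℝ)| ≤ θ * Real.log |(t : ℝ)| + C ∧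
    Real.log t.den ≤ C

theorem fam3 (a b : ℚ) : Fam a b 3 := by
  set M : ℤ := (a.den : ℤ) * b.den with hM
  set A : ℤ := a.num * b.den * M with hA
  set B : ℤ := b.num * a.den * M with hB
  have hM0 : 1 ≤ M := by
    have h1 : (0 : ℤ) < a.den := by exact_mod_cast a.den_pos
    have h2 : (0 : ℤ) < b.den := by exact_mod_cast b.den_pos
    have := mul_pos h1 h2
    omega
  have hMR : (1 : ℝ) ≤ M := by exact_mod_cast hM0
  have hMQ : (M : ℚ) ≠ 0 := by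
    have : M ≠ 0 := by omega
    exact_mod_cast this
  have ha : (a : ℚ) * a.den = a.num := Rat.mul_den_eq_num a
  have hb : (b : ℚ) * b.den = b.num := Rat.mul_den_eq_num b
  have hAq : (A : ℚ) = (M : ℚ) ^ 2 * a := by
    rw [hA, hM]; push_cast; rw [← ha]; ring
  have hBq : (B : ℚ) = (M : ℚ) ^ 2 * b := by
    rw [hB, hM]; push_cast; rw [← hb]; ring
  set K : ℝ := (M : ℝ) ^ 2 + |(A : ℝ)| + |(B : ℝ)| with hK
  have hK1 : 1 ≤ K := by
    have h1 : (1 : ℝ) ≤ (M : ℝ) ^ 2 := one_le_pow₀ hMR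
    have := abs_nonneg (A : ℝ)
    have := abs_nonneg (B : ℝ)
    linarith
  refine ⟨Real.log K, ?_⟩
  intro T
  obtain ⟨N, hN⟩ := exists_nat_gt (max T (1 + |(a : ℝ)| + |(b : ℝ)|))
  have hN1 : T < N := lt_of_le_of_lt (le_max_left _ _) hN
  have hN2 : 1 + |(a : ℝ)| + |(b : ℝ)| < N := lt_of_le_of_lt (le_max_right _ _) hN
  have hN3 : (1 : ℝ) < N := by
    have := abs_nonneg (a : ℝ)
    have := abs_nonneg (b : ℝ)
    linarith
  have hNa : |((N : ℚ) : ℝ)| = N := by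
    push_cast
    exact abs_of_pos (by linarith)
  set s : ℤ := M ^ 2 * N ^ 3 + A * N + B with hs
  have hsq : (s : ℚ) = (M : ℚ) ^ 2 * ((N : ℚ) ^ 3 + a * N + b) := by
    rw [hs]; push_cast; rw [hAq, hBq]; ring
  have hpos : (0 : ℝ) < (N : ℝ) ^ 3 + a * N + b := by
    have h1 : -(|(a : ℝ)| * N) ≤ (a : ℝ) * N := by
      have := neg_abs_le (a : ℝ)
      nlinarith
    have h2 := neg_abs_le (b : ℝ)
    have h3 : (0 : ℝ) ≤ |(a : ℝ)| := abs_nonneg _
    have h4 : (0 : ℝ) ≤ |(b : ℝ)| := abs_nonneg _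
    have h5 : |(a : ℝ)| * N + |(b : ℝ)| < (N : ℝ) ^ 3 := by
      have h6 : |(a : ℝ)| * N + |(b : ℝ)| ≤ (|(a : ℝ)| + |(b : ℝ)|) * N := by nlinarith
      have h7 : (|(a : ℝ)| + |(b : ℝ)|) * N < N * N := by nlinarith
      have h8 : (N : ℝ) * N ≤ (N : ℝ) ^ 3 := by nlinarith
      linarith
    linarith
  have hpos' : (0 : ℚ) < (N : ℚ) ^ 3 + a * N + b := by exact_mod_cast hpos
  refine ⟨N, 1 / M, s, ?_, ?_, ?_, ?_, ?_, ?_⟩
  · rw [hNa]; exact hN1.le
  · intro h0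
    rw [h0, Int.cast_zero] at hsq
    have : (M : ℚ) ^ 2 * ((N : ℚ) ^ 3 + a * N + b) ≠ 0 := mul_ne_zero (pow_ne_zero _ hMQ) hpos'.ne'
    exact this hsq.symm
  · exact one_div_ne_zero hMQ
  · rw [hsq]
    field_simp
  · rw [hNa]
    have h1 : |(s : ℝ)| ≤ K * (N : ℝ) ^ 3 := by
      rw [hs]
      push_cast
      have h2 : |(M : ℝ) ^ 2 * N ^ 3 + A * N + B| ≤
          |(M : ℝ) ^ 2 * N ^ 3| + |(A : ℝ) * N| + |(B : ℝ)| := by
        refine (abs_add_le _ _).trans ?_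
        linarith [abs_add_le ((M : ℝ) ^ 2 * N ^ 3) ((A : ℝ) * N)]
      refine h2.trans ?_
      rw [abs_mul, abs_mul, abs_of_pos (by positivity : (0 : ℝ) < (M : ℝ) ^ 2),
        abs_of_pos (by positivity : (0 : ℝ) < (N : ℝ) ^ 3), abs_of_pos (by linarith : (0 : ℝ) < N), hK]
      have h3 : (N : ℝ) ≤ (N : ℝ) ^ 3 := by nlinarith [sq_nonneg ((N : ℝ) - 1)]
      have h4 : (1 : ℝ) ≤ (N : ℝ) ^ 3 := one_le_pow₀ hN3.le
      nlinarith [abs_nonneg (A : ℝ), abs_nonneg (B : ℝ)]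
    have hs0 : s ≠ 0 := by
      intro h0
      rw [h0, Int.cast_zero] at hsq
      have : (M : ℚ) ^ 2 * ((N : ℚ) ^ 3 + a * N + b) ≠ 0 :=
        mul_ne_zero (pow_ne_zero _ hMQ) hpos'.ne'
      exact this hsq.symm
    have hs1 : 0 < |(s : ℝ)| := abs_pos.mpr (by exact_mod_cast hs0)
    refine (Real.log_le_log hs1 h1).trans ?_
    rw [Real.log_mul (by linarith) (by positivity), Real.log_pow]
    push_cast
    linarith
  · rw [Rat.den_natCast]
    simp only [Nat.cast_one, Real.log_one]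
    exact Real.log_nonneg hK1

/-- solutions of the equation of Pell -/
def pell (c σ : ℤ) : ℕ → ℤ × ℤ
  | 0 => (σ, 1)
  | j + 1 => ((2 * c * σ ^ 2 - 1) * (pell c σ j).1 + 2 * σ * (c * σ ^ 2 - 1) * (pell c σ j).2,
      (2 * c * σ ^ 2 - 1) * (pell c σ j).2 + 2 * c * σ * (pell c σ j).1)

lemma pell_eq (c σ : ℤ) (j : ℕ) :
    c * (pell c σ j).1 ^ 2 - (c * σ ^ 2 - 1) * (pell c σ j).2 ^ 2 = 1 := by
  induction j with
  | zero => simp only [pell]; ring
  | succ j ih =>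
    simp only [pell]
    linear_combination ih

lemma pell_big (c σ : ℤ) (hc : c ≠ 0) (hσ : 2 ≤ σ) (j : ℕ) :
    0 ≤ (pell c σ j).1 * (pell c σ j).2 ∧ σ ^ (2 * j + 1) ≤ |(pell c σ j).1| := by
  have hcc : 0 ≤ c * (2 * c * σ ^ 2 - 1) ∧ 0 ≤ c * (c * σ ^ 2 - 1) ∧
      0 ≤ (2 * c * σ ^ 2 - 1) * (c * σ ^ 2 - 1) ∧ σ ^ 2 ≤ |2 * c * σ ^ 2 - 1| := by
    have hσ2 : 4 ≤ σ ^ 2 := by nlinarith
    rcases lt_or_gt_of_ne hc with h | h
    · have h1 : c ≤ -1 := by omega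
      have h2 : c * σ ^ 2 ≤ -4 := by nlinarith
      have h3 : c * σ ^ 2 - 1 ≤ 0 := by omega
      have h4 : 2 * c * σ ^ 2 - 1 ≤ 0 := by nlinarith
      refine ⟨mul_nonneg_of_nonpos_of_nonpos h.le h4, mul_nonneg_of_nonpos_of_nonpos h.le h3,
        mul_nonneg_of_nonpos_of_nonpos h4 h3, ?_⟩
      rw [abs_of_nonpos h4]
      nlinarith
    · have h1 : 1 ≤ c := by omega
      have h2 : 4 ≤ c * σ ^ 2 := by nlinarith
      have h3 : 0 ≤ c * σ ^ 2 - 1 := by omega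
      have h4 : 0 ≤ 2 * c * σ ^ 2 - 1 := by nlinarith
      refine ⟨mul_nonneg h.le h4, mul_nonneg h.le h3, mul_nonneg h4 h3, ?_⟩
      rw [abs_of_nonneg h4]
      nlinarith
  obtain ⟨c1, c2, c3, c4⟩ := hcc
  induction j with
  | zero =>
    simp only [pell]
    refine ⟨by linarith, ?_⟩
    rw [abs_of_nonneg (by linarith)]
    simp
  | succ j ih =>
    obtain ⟨h1, h2⟩ := ih
    simp only [pell]
    set A := (pell c σ j).1
    set B := (pell c σ j).2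
    have hσ0 : 0 ≤ σ := by linarith
    constructor
    · have e : ((2 * c * σ ^ 2 - 1) * A + 2 * σ * (c * σ ^ 2 - 1) * B) *
          ((2 * c * σ ^ 2 - 1) * B + 2 * c * σ * A) =
          (2 * c * σ ^ 2 - 1) ^ 2 * (A * B) + 2 * σ * (c * (2 * c * σ ^ 2 - 1)) * A ^ 2 +
          2 * σ * ((2 * c * σ ^ 2 - 1) * (c * σ ^ 2 - 1)) * B ^ 2 +
          4 * σ ^ 2 * (c * (c * σ ^ 2 - 1)) * (A * B) := by ring
      rw [e]
      positivity
    · have h3 : 0 ≤ ((2 * c * σ ^ 2 - 1) * A) * (2 * σ * (c * σ ^ 2 - 1) * B) := by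
        have e : ((2 * c * σ ^ 2 - 1) * A) * (2 * σ * (c * σ ^ 2 - 1) * B) =
          2 * σ * ((2 * c * σ ^ 2 - 1) * (c * σ ^ 2 - 1)) * (A * B) := by ring
        rw [e]
        positivity
      have h4 : |(2 * c * σ ^ 2 - 1) * A| ≤
          |(2 * c * σ ^ 2 - 1) * A + 2 * σ * (c * σ ^ 2 - 1) * B| := by
        rw [← sq_le_sq]
        nlinarith [sq_nonneg (2 * σ * (c * σ ^ 2 - 1) * B)]
      rw [abs_mul] at h4
      calc σ ^ (2 * (j + 1) + 1) = σ ^ 2 * σ ^ (2 * j + 1) := by ring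
        _ ≤ |2 * c * σ ^ 2 - 1| * |A| := mul_le_mul c4 h2 (by positivity) (abs_nonneg _)
        _ ≤ _ := h4

/-- curves with a rational point of order two -/
theorem fam1 (a b ρ : ℚ) (hab : 4 * a ^ 3 + 27 * b ^ 2 ≠ 0) (hρ : ρ ^ 3 + a * ρ + b = 0) (j : ℕ) :
    Fam a b (1 + 2 / (2 * j + 1)) := by
  set M : ℤ := 2 * ρ.den * a.den with hM
  set R : ℤ := 2 * ρ.num * a.den with hR
  set c : ℤ := -(3 * ρ.num ^ 2 * a.den ^ 2 + 4 * a.num * a.den * ρ.den ^ 2) with hc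
  have hM0 : 1 ≤ M := by
    have h1 : (0 : ℤ) < a.den := by exact_mod_cast a.den_pos
    have h2 : (0 : ℤ) < ρ.den := by exact_mod_cast ρ.den_pos
    have := mul_pos h2 h1
    rw [hM]
    nlinarith
  have hMQ : (M : ℚ) ≠ 0 := by
    have : M ≠ 0 := by omega
    exact_mod_cast this
  have ha : (a : ℚ) * a.den = a.num := Rat.mul_den_eq_num a
  have hr : (ρ : ℚ) * ρ.den = ρ.num := Rat.mul_den_eq_num ρ
  have hRq : (R : ℚ) = ρ * M := by
    rw [hR, hM]; push_cast; rw [← hr]; ring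
  have hcq : (c : ℚ) = -(3 * ρ ^ 2 / 4 + a) * (M : ℚ) ^ 2 := by
    rw [hc, hM]; push_cast; rw [← hr, ← ha]; ring
  have hc0 : c ≠ 0 := by
    intro h0
    rw [h0, Int.cast_zero] at hcq
    have h1 : 3 * ρ ^ 2 / 4 + a = 0 := by
      rcases mul_eq_zero.mp hcq.symm with h | h
      · linarith
      · exact absurd h (pow_ne_zero _ hMQ)
    apply hab
    have h2 : a = -(3 * ρ ^ 2 / 4) := by linarith
    have h3 : b = -ρ ^ 3 - a * ρ := by linarith
    rw [h3, h2]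
    ring
  set κ : ℝ := 1 + 2 / (2 * j + 1) with hκ
  set K : ℝ := 2 * M * |(c : ℝ)| * (2 + 3 * |(R : ℝ)|) * (|(c : ℝ)| + 1) with hK
  have hMR : (1 : ℝ) ≤ M := by exact_mod_cast hM0
  have hcR : (1 : ℝ) ≤ |(c : ℝ)| := by
    have : 1 ≤ |c| := Int.one_le_abs hc0
    exact_mod_cast this
  have hRR : (0 : ℝ) ≤ |(R : ℝ)| := abs_nonneg _
  have hK1 : 1 ≤ K := by
    rw [hK]
    have h1 : (1 : ℝ) ≤ 2 * M * |(c : ℝ)| := by nlinarith
    have h2 : (1 : ℝ) ≤ 2 + 3 * |(R : ℝ)| := by linarith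
    have h3 : (1 : ℝ) ≤ |(c : ℝ)| + 1 := by linarith
    have h4 := one_le_mul_of_one_le_of_one_le h1 h2
    exact one_le_mul_of_one_le_of_one_le h4 h3
  have hκ0 : 0 ≤ κ := by positivity
  refine ⟨Real.log K + κ * Real.log (2 * M) + Real.log (2 * M), ?_⟩
  intro T
  -- choose σ
  obtain ⟨N, hN⟩ := exists_nat_gt (max 2 (max (6 * |(R : ℝ)| + 1) (2 * M * T)))
  set σ : ℤ := (N : ℤ) with hσ
  have hN1 : (2 : ℝ) < N := lt_of_le_of_lt (le_max_left _ _) hN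
  have hN2 : 6 * |(R : ℝ)| + 1 < N :=
    lt_of_le_of_lt ((le_max_left _ _).trans (le_max_right _ _)) hN
  have hN3 : 2 * M * T < N := lt_of_le_of_lt ((le_max_right _ _).trans (le_max_right _ _)) hN
  have hσ2 : 2 ≤ σ := by
    have : (2 : ℝ) ≤ N := hN1.le
    rw [hσ]
    exact_mod_cast this
  have hσR : (σ : ℝ) = N := by rw [hσ]; push_cast; rfl
  obtain ⟨hAB, hA⟩ := pell_big c σ hc0 hσ2 j
  have hpe := pell_eq c σ j
  set A := (pell c σ j).1
  set B := (pell c σ j).2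
  set X : ℤ := c * A with hX
  have hAR : (N : ℝ) ^ (2 * j + 1) ≤ |(A : ℝ)| := by
    rw [← hσR]; exact_mod_cast hA
  have hXR : |(X : ℝ)| = |(c : ℝ)| * |(A : ℝ)| := by rw [hX]; push_cast; rw [abs_mul]
  have hAX : |(A : ℝ)| ≤ |(X : ℝ)| := by
    rw [hXR]
    nlinarith [abs_nonneg (A : ℝ)]
  have hNA : (N : ℝ) ≤ |(A : ℝ)| := by
    refine le_trans ?_ hAR
    calc (N : ℝ) = (N : ℝ) ^ 1 := (pow_one _).symm
      _ ≤ (N : ℝ) ^ (2 * j + 1) := pow_le_pow_right₀ (by linarith) (by omega)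
  have hB0 : B ≠ 0 := by
    intro h0
    rw [h0] at hpe
    have h1 : c * A ^ 2 = 1 := by linarith
    have h2 : (2 : ℝ) < |(A : ℝ)| := by linarith
    have h3 : (c : ℝ) * (A : ℝ) ^ 2 = 1 := by exact_mod_cast h1
    have h4 : |(c : ℝ)| * |(A : ℝ)| ^ 2 = 1 := by
      rw [← abs_pow, ← abs_mul, h3, abs_one]
    nlinarith
  have h1σ : c * σ ^ 2 - 1 ≠ 0 := by
    intro h0
    have h1 : c * σ ^ 2 = 1 := by linarith
    have h2 : σ ^ 2 ∣ 1 := ⟨c, by linarith⟩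
    have h3 := Int.le_of_dvd (by norm_num) h2
    nlinarith
  set s : ℤ := 2 * M * c * (2 * X - 3 * R) * (c * σ ^ 2 - 1) with hs
  have h2X : (2 : ℝ) * |(X : ℝ)| - 3 * |(R : ℝ)| ≤ |(2 * X - 3 * R : ℝ)| := by
    have := abs_sub_abs_le_abs_sub (2 * X : ℝ) (3 * R)
    rw [abs_mul, abs_mul] at this
    norm_num at this
    linarith
  have h2X0 : 2 * X - 3 * R ≠ 0 := by
    intro h0
    have h1 : (2 * X - 3 * R : ℝ) = 0 := by exact_mod_cast h0
    rw [h1, abs_zero] at h2X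
    linarith
  have hM00 : M ≠ 0 := by omega
  have hs0 : s ≠ 0 := by
    rw [hs]
    exact mul_ne_zero (mul_ne_zero (mul_ne_zero (mul_ne_zero (by norm_num) hM00) hc0) h2X0) h1σ
  set t : ℚ := (2 * X - R) / (2 * M) with ht
  have htR : |(t : ℝ)| = |(2 * X - R : ℝ)| / (2 * M) := by
    rw [ht]
    push_cast
    rw [abs_div, abs_of_pos (by linarith : (0 : ℝ) < 2 * M)]
  have htX : |(X : ℝ)| ≤ |(t : ℝ)| * (2 * M) := by
    rw [htR, div_mul_cancel₀ _ (by linarith : (2 * M : ℝ) ≠ 0)]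
    have := abs_sub_abs_le_abs_sub (2 * X : ℝ) R
    rw [abs_mul] at this
    norm_num at this
    linarith
  have htT : (N : ℝ) ≤ |(t : ℝ)| * (2 * M) := hNA.trans (hAX.trans htX)
  have htpos : 0 < |(t : ℝ)| := by
    by_contra hc
    push Not at hc
    nlinarith
  refine ⟨t, B / (2 * M * M), s, ?_, hs0, ?_, ?_, ?_, ?_⟩
  · by_contra hc
    push Not at hc
    nlinarith
  · refine div_ne_zero (by exact_mod_cast hB0) ?_
    exact mul_ne_zero (mul_ne_zero (by norm_num) hMQ) hMQ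
  · -- the identity
    have hpeq : (c : ℚ) * (A : ℚ) ^ 2 - (c * (σ : ℚ) ^ 2 - 1) * (B : ℚ) ^ 2 = 1 := by
      exact_mod_cast hpe
    have hb : b = -ρ ^ 3 - a * ρ := by linarith
    have haq : a = -(c : ℚ) / (M : ℚ) ^ 2 - 3 * ρ ^ 2 / 4 := by
      rw [hcq]
      field_simp
      ring
    have hρq : ρ = R / M := by rw [hRq]; field_simp
    have hXq : (X : ℚ) = c * A := by rw [hX]; push_cast; rfl
    have hsq : (s : ℚ) = 2 * M * c * (2 * X - 3 * R) * (c * σ ^ 2 - 1) := by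
      rw [hs]; push_cast; rfl
    have h1 : t ^ 3 + a * t + b = (2 * X - 3 * R) * ((X : ℚ) ^ 2 - c) / (2 * M ^ 3) := by
      rw [hb, haq, hρq, ht]
      field_simp
      ring
    have h2 : (X : ℚ) ^ 2 - c = c * (c * σ ^ 2 - 1) * B ^ 2 := by
      rw [hXq]
      linear_combination (c : ℚ) * hpeq
    rw [h1, h2, hsq]
    field_simp
  · -- the size of s
    have hs1 : 0 < |(s : ℝ)| := abs_pos.mpr (by exact_mod_cast hs0)
    have hN0 : (0 : ℝ) < N := by linarith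
    have e1 : |(2 * X - 3 * R : ℝ)| ≤ (2 + 3 * |(R : ℝ)|) * |(X : ℝ)| := by
      have h1 : |(2 * X - 3 * R : ℝ)| ≤ 2 * |(X : ℝ)| + 3 * |(R : ℝ)| := by
        refine (abs_sub _ _).trans ?_
        rw [abs_mul, abs_mul]
        norm_num
      have h2 : 1 ≤ |(X : ℝ)| := by linarith
      nlinarith
    have e2 : |(c * σ ^ 2 - 1 : ℝ)| ≤ (|(c : ℝ)| + 1) * (N : ℝ) ^ 2 := by
      rw [hσR]
      refine (abs_sub _ _).trans ?_
      rw [abs_mul, abs_one, abs_of_pos (by positivity : (0 : ℝ) < (N : ℝ) ^ 2)]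
      have : (1 : ℝ) ≤ (N : ℝ) ^ 2 := one_le_pow₀ (by linarith)
      linarith
    have e3 : |(s : ℝ)| ≤ K * (|(X : ℝ)| * (N : ℝ) ^ 2) := by
      rw [hs]
      push_cast
      rw [abs_mul, abs_mul, abs_mul, abs_mul, abs_of_pos (by linarith : (0 : ℝ) < M),
        abs_of_pos (by norm_num : (0 : ℝ) < 2), hK]
      calc 2 * (M : ℝ) * |(c : ℝ)| * |(2 * X - 3 * R : ℝ)| * |(c * σ ^ 2 - 1 : ℝ)| ≤
            2 * (M : ℝ) * |(c : ℝ)| * ((2 + 3 * |(R : ℝ)|) * |(X : ℝ)|) *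
              ((|(c : ℝ)| + 1) * (N : ℝ) ^ 2) := by
            refine mul_le_mul (mul_le_mul_of_nonneg_left e1 (by positivity)) e2 (abs_nonneg _)
              (by positivity)
        _ = _ := by ring
    have hX0 : 0 < |(X : ℝ)| := by linarith
    have e4 : Real.log |(s : ℝ)| ≤ Real.log K + (Real.log |(X : ℝ)| + 2 * Real.log N) := by
      refine (Real.log_le_log hs1 e3).trans ?_
      have hK0 : K ≠ 0 := by
        have : 0 < K := by linarith
        exact this.ne'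
      rw [Real.log_mul hK0 (mul_pos hX0 (pow_pos hN0 2)).ne',
        Real.log_mul hX0.ne' (pow_pos hN0 2).ne', Real.log_pow]
      push_cast
      exact le_rfl
    have e5 : ((2 * j + 1 : ℕ) : ℝ) * Real.log N ≤ Real.log |(X : ℝ)| := by
      rw [← Real.log_pow]
      exact Real.log_le_log (by positivity) (hAR.trans hAX)
    have hj : (0 : ℝ) < 2 * j + 1 := by positivity
    have e6 : 2 * Real.log N ≤ 2 / (2 * j + 1) * Real.log |(X : ℝ)| := by
      rw [div_mul_eq_mul_div, le_div_iff₀ hj]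
      push_cast at e5
      linarith
    have e7 : Real.log |(X : ℝ)| ≤ Real.log |(t : ℝ)| + Real.log (2 * M) := by
      rw [← Real.log_mul htpos.ne' (by linarith)]
      exact Real.log_le_log (by linarith) htX
    have e8 : Real.log |(X : ℝ)| + 2 * Real.log N ≤ κ * Real.log |(X : ℝ)| := by
      rw [hκ]
      linarith
    have e9 : κ * Real.log |(X : ℝ)| ≤ κ * (Real.log |(t : ℝ)| + Real.log (2 * M)) :=
      mul_le_mul_of_nonneg_left e7 hκ0
    have e10 : 0 ≤ Real.log (2 * (M : ℝ)) := Real.log_nonneg (by linarith)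
    linarith
  · -- the denominator
    have h1 : (t.den : ℤ) ∣ 2 * M := by
      have h2 : t = ((2 * X - R : ℤ) : ℚ) / ((2 * M : ℤ) : ℚ) := by rw [ht]; push_cast; rfl
      rw [h2, ← Rat.divInt_eq_div]
      exact Rat.den_dvd _ _
    have h2 : (t.den : ℤ) ≤ 2 * M := Int.le_of_dvd (by omega) h1
    have h3 : (t.den : ℝ) ≤ 2 * M := by exact_mod_cast h2
    have h4 : (0 : ℝ) < t.den := by exact_mod_cast t.den_pos
    have h5 := Real.log_le_log h4 h3
    have h6 : 0 ≤ Real.log K := Real.log_nonneg hK1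
    have h7 : 0 ≤ κ * Real.log (2 * M) := mul_nonneg hκ0 (Real.log_nonneg (by linarith))
    linarith

end Pool.Agent.R338.Tw
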