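import Mathlib
import Pool.Agent.R338.Tw2
import Pool.Agent.R338.Tw3

set_option autoImplicit false

/-!
The exceptional sets of Vojta's inequality for quadratic points on powers of elliptic curves.
-/

open WeierstrassCurve NumberField Height Module

namespace Pool.Agent.R338.Tw

open Pool.Agent.TH942 Pool.Agent.TH954 Pool.Agent.R338.Ab Pool.Agent.Y733.VR

/-- the points are defined over the field generated by their coordinates -/
def Gen {L : Type} [Field L] [NumberField L] {n : ℕ} {a b : L} (p : Fin n → SPt a b) : Prop :=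
  IntermediateField.adjoin ℚ (Set.range (fun i => xc (p i)) ∪ Set.range (fun i => yc (p i))) = ⊤

theorem exists_pt {a b : ℚ} (hab : 4 * a ^ 3 + 27 * b ^ 2 ≠ 0) {θ : ℝ} (hF : Fam a b θ) {n : ℕ}
    (hn : 0 < n) (M : ℕ) (S : Finset ℕ) (ε s₀ c B : ℝ) (hε : 0 ≤ ε) (hs₀ : 0 ≤ s₀)
    (hs : ε * s₀ < n - θ) :
    ∃ (L : Type) (_ : Field L) (_ : NumberField L) (_ : DecidableEq L) (P : SPt (a : L) (b : L)),
      finrank ℚ L ≤ 2 ∧ ¬ IsOfFinAddOrder P ∧ (∀ k : ℤ, ∃ x : ℚ, xc (k • P) = x) ∧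
      ∀ m : Fin n → ℤ, (∀ i, m i ≠ 0) → (∀ i, (m i).natAbs ≤ M) → (∑ i, (m i : ℝ) ^ 2) ≤ s₀ →
        Gen (fun i => m i • P) ∧ B < hA (fun i => m i • P) ∧
        ε * hA (fun i => m i • P) + ld L + c < prox S (fun i => m i • P) := by
  classical
  obtain ⟨C, hC0, hest⟩ := est hab
  obtain ⟨T0, hT01, hest⟩ := hest M
  obtain ⟨CF, hCF⟩ := hF
  set δ : ℝ := (n - θ - ε * s₀) / 2 with hδ
  have hδ0 : 0 < δ := by rw [hδ]; linarith
  set E : ℝ := (n : ℝ) / 2 * (M * Real.log 6) + ε * (s₀ * (CF + C) / 2) +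
    (1 / 2) * (Real.log 4 + CF) + c with hE
  have hn0 : (0 : ℝ) < n := by exact_mod_cast hn
  obtain ⟨t, w, s, hT, hs0, hw, hf, hls, hden⟩ := hCF
    (max T0 (max (Real.exp (E / δ + 1)) (Real.exp (2 * B / n + C + 1))))
  have hT1 : T0 ≤ |(t : ℝ)| := (le_max_left _ _).trans hT
  have ht1 : (1 : ℝ) ≤ |(t : ℝ)| := hT01.trans hT1
  have ht0 : (0 : ℝ) < |(t : ℝ)| := by linarith
  have hT2 : E / δ + 1 ≤ Real.log |(t : ℝ)| := by
    rw [Real.le_log_iff_exp_le ht0]
    exact ((le_max_left _ _).trans (le_max_right _ _)).trans hT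
  have hT3 : 2 * B / n + C + 1 ≤ Real.log |(t : ℝ)| := by
    rw [Real.le_log_iff_exp_le ht0]
    exact ((le_max_right _ _).trans (le_max_right _ _)).trans hT
  -- the field
  obtain ⟨y, hy⟩ : ∃ y : ℂ, y ^ 2 = ((s : ℤ) : ℂ) := IsAlgClosed.exists_pow_nat_eq _ (by norm_num)
  have hint : IsIntegral ℚ y := by
    refine ⟨Polynomial.X ^ 2 - Polynomial.C ((s : ℤ) : ℚ),
      Polynomial.monic_X_pow_sub_C _ (by norm_num), ?_⟩
    rw [Polynomial.eval₂_sub, Polynomial.eval₂_pow, Polynomial.eval₂_X, Polynomial.eval₂_C, hy]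
    simp
  have hfd : FiniteDimensional ℚ (IntermediateField.adjoin ℚ ({y} : Set ℂ)) :=
    IntermediateField.adjoin.finiteDimensional hint
  have hNF : NumberField (IntermediateField.adjoin ℚ ({y} : Set ℂ)) :=
    { to_charZero := inferInstance, to_finiteDimensional := hfd }
  have hmy : y ∈ IntermediateField.adjoin ℚ ({y} : Set ℂ) :=
    IntermediateField.mem_adjoin_simple_self ℚ y
  set β : IntermediateField.adjoin ℚ ({y} : Set ℂ) := ⟨y, hmy⟩ with hβdef
  have hβ : β ^ 2 = ((s : ℤ) : IntermediateField.adjoin ℚ ({y} : Set ℂ)) := by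
    apply Subtype.ext
    have := hy
    simpa using this
  have htop : IntermediateField.adjoin ℚ ({β} : Set (IntermediateField.adjoin ℚ ({y} : Set ℂ))) = ⊤ := by
    apply R338.adjoin_self_top
    rw [Set.image_singleton]
  obtain ⟨hld, hfin⟩ := R338.ld_multi 1 (IntermediateField.adjoin ℚ ({y} : Set ℂ)) ![β] ![s]
    (fun i => by fin_cases i; exact hs0) (fun i => by fin_cases i; exact hβ)
    (by
      have : Set.range (![β] : Fin 1 → _) = {β} := by
        ext z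
        simp [eq_comm]
      rw [this]
      exact htop)
  rw [pow_one] at hfin
  have hld' : ld (IntermediateField.adjoin ℚ ({y} : Set ℂ)) ≤ (1 / 2) * Real.log (4 * |(s : ℝ)|) := by
    simpa using hld
  have habL : 4 * ((a : ℚ) : IntermediateField.adjoin ℚ ({y} : Set ℂ)) ^ 3 + 27 * (b : _) ^ 2 ≠ 0 := by
    exact_mod_cast hab
  have hns : (sw ((a : ℚ) : IntermediateField.adjoin ℚ ({y} : Set ℂ)) (b : _)).toAffine.Nonsingular
      (t : _) (β * (w : _)) := by
    apply sw_nonsing habL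
    rw [mul_pow, hβ]
    have := congrArg (fun x : ℚ => (x : IntermediateField.adjoin ℚ ({y} : Set ℂ))) hf
    push_cast at this
    rw [← this]
  obtain ⟨hinf, hest⟩ := hest (IntermediateField.adjoin ℚ ({y} : Set ℂ)) S s β t w hns hs0 hβ hw hT1
  have hD : ((s : ℤ) : ℚ) ≠ 0 := by exact_mod_cast hs0
  have hβD : β ^ 2 = (((s : ℤ) : ℚ) : IntermediateField.adjoin ℚ ({y} : Set ℂ)) := by
    rw [hβ]; push_cast; rfl
  have htw : IsTw β (Affine.Point.some (t : _) (β * (w : _)) hns :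
    SPt ((a : ℚ) : IntermediateField.adjoin ℚ ({y} : Set ℂ)) (b : _)) := Or.inr ⟨t, w, hns, rfl⟩
  refine ⟨IntermediateField.adjoin ℚ ({y} : Set ℂ), inferInstance, hNF, inferInstance,
    Affine.Point.some (t : _) (β * (w : _)) hns, hfin, hinf, ?_, ?_⟩
  · intro k
    rcases isTw_zsmul hD hβD htw k with h0 | ⟨x, z, h, hxz⟩
    · rw [h0]
      refine ⟨0, ?_⟩
      rw [Rat.cast_zero]
      rfl
    · rw [hxz]
      exact ⟨x, rfl⟩
  · intro m hm hmM hms
    obtain ⟨h1, h2, h3⟩ := hest n m hm hmM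
    refine ⟨gen_top hD hβD htop htw hinf hn m hm, ?_, ?_⟩
    · refine lt_of_lt_of_le ?_ h3
      have h4 : 2 * B / n < Real.log |(t : ℝ)| - C := by linarith
      rw [div_lt_iff₀ hn0] at h4
      linarith
    · have h4 := ht_le_log t (by exact_mod_cast ht1)
      have h5 : Real.log (4 * |(s : ℝ)|) = Real.log 4 + Real.log |(s : ℝ)| := by
        rw [Real.log_mul (by norm_num) (abs_pos.mpr (by exact_mod_cast hs0)).ne']
      rw [h5] at hld'
      have h6 : 0 ≤ Real.log |(t : ℝ)| := Real.log_nonneg ht1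
      have h7 : 0 ≤ logHeight₁ t + C := add_nonneg (zero_le_logHeight₁ _) hC0
      have h8 : (∑ i, (m i : ℝ) ^ 2) * (logHeight₁ t + C) ≤
          s₀ * (Real.log |(t : ℝ)| + CF + C) := by
        calc _ ≤ s₀ * (logHeight₁ t + C) := mul_le_mul_of_nonneg_right hms h7
          _ ≤ _ := mul_le_mul_of_nonneg_left (by linarith) hs₀
      have h9 := mul_le_mul_of_nonneg_left h2 hε
      have h9' := mul_le_mul_of_nonneg_left h8 hε
      have h10 : E < δ * Real.log |(t : ℝ)| := by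
        have : E / δ < Real.log |(t : ℝ)| := by linarith
        rw [div_lt_iff₀ hδ0] at this
        linarith
      have h11 : δ * Real.log |(t : ℝ)| = (n : ℝ) / 2 * Real.log |(t : ℝ)| -
          θ / 2 * Real.log |(t : ℝ)| - ε * (s₀ * Real.log |(t : ℝ)|) / 2 := by rw [hδ]; ring
      rw [hE] at h10
      nlinarith

/-- violation off the zero set of a polynomial -/
theorem viol {a b : ℚ} (hab : 4 * a ^ 3 + 27 * b ^ 2 ≠ 0) {θ : ℝ} (hF : Fam a b θ) {n : ℕ}
    (hn : 0 < n) (S : Finset ℕ) (d : ℕ) (G : MvPolynomial (Fin n) ℚ) (hG : G ≠ 0)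
    (hd : ∀ i, G.degreeOf i ≤ d) (ε c B : ℝ) (hε : 0 ≤ ε)
    (hs : ε * (n * ((d : ℝ) + 1) ^ 2) < n - θ) :
    ∃ (L : Type) (_ : Field L) (_ : NumberField L) (p : Fin n → SPt (a : L) (b : L)),
      finrank ℚ L ≤ 2 ∧ Gen p ∧ (∀ i, p i ≠ 0) ∧
      MvPolynomial.aeval (fun i => xc (p i)) G ≠ 0 ∧ B < hA p ∧
      ε * hA p + ld L + c < prox S p := by
  obtain ⟨L, _, _, _, P, hfin, hinf, hrat, hP⟩ := exists_pt hab hF hn (d + 1) S ε
    (n * ((d : ℝ) + 1) ^ 2) c B hε (by positivity) hs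
  choose x hx using hrat
  set F : Finset ℚ := (Finset.range (d + 1)).image (fun t : ℕ => x ((t + 1 : ℕ) : ℤ)) with hFdef
  have hFc : F.card = d + 1 := by
    rw [hFdef, Finset.card_image_of_injOn, Finset.card_range]
    intro t _ t' _ htt
    have h1 : xc (((t + 1 : ℕ) : ℤ) • P) = xc (((t' + 1 : ℕ) : ℤ) • P) := by
      rw [hx, hx]
      exact congrArg _ htt
    rw [natCast_zsmul, natCast_zsmul] at h1
    have := xc_inj hinf (by omega : 0 < t + 1) (by omega : 0 < t' + 1) h1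
    omega
  have hex : ∃ z : Fin n → ℚ, (∀ i, z i ∈ F) ∧ MvPolynomial.eval z G ≠ 0 := by
    by_contra hc
    push Not at hc
    exact hG (MvPolynomial.eq_zero_of_eval_zero_at_prod_finset G (fun _ => F)
      (fun i => by rw [hFc]; exact Nat.lt_succ_of_le (hd i)) hc)
  obtain ⟨z, hz, hGz⟩ := hex
  have hz' : ∀ i, ∃ t : ℕ, t < d + 1 ∧ x ((t + 1 : ℕ) : ℤ) = z i := by
    intro i
    have := hz i
    rw [hFdef, Finset.mem_image] at this
    obtain ⟨t, ht, ht'⟩ := this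
    exact ⟨t, Finset.mem_range.mp ht, ht'⟩
  choose t ht ht' using hz'
  have hm0 : ∀ i, (((t i + 1 : ℕ) : ℤ)) ≠ 0 := fun i => by positivity
  obtain ⟨h1, h2, h3⟩ := hP (fun i => ((t i + 1 : ℕ) : ℤ)) hm0
    (fun i => by rw [Int.natAbs_natCast]; have := ht i; omega) (by
      have h1 : ∀ i, (((t i + 1 : ℕ) : ℤ) : ℝ) ^ 2 ≤ ((d : ℝ) + 1) ^ 2 := by
        intro i
        have h2 : ((t i + 1 : ℕ) : ℝ) ≤ (d : ℝ) + 1 := by
          have := ht i
          exact_mod_cast this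
        push_cast at h2 ⊢
        exact pow_le_pow_left₀ (by positivity) h2 2
      calc ∑ i, (((t i + 1 : ℕ) : ℤ) : ℝ) ^ 2 ≤ ∑ _i : Fin n, ((d : ℝ) + 1) ^ 2 :=
            Finset.sum_le_sum (fun i _ => h1 i)
        _ = _ := by rw [Finset.sum_const, Finset.card_univ, Fintype.card_fin, nsmul_eq_mul])
  refine ⟨L, inferInstance, inferInstance, fun i => ((t i + 1 : ℕ) : ℤ) • P, hfin, h1,
    fun i => zsmul_ne_zero_of hinf (hm0 i), ?_, h2, h3⟩
  have e1 : (fun i => xc (((t i + 1 : ℕ) : ℤ) • P)) = fun i => ((z i : ℚ) : L) := by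
    funext i
    rw [hx, ht']
  rw [e1]
  have e2 : MvPolynomial.aeval (fun i => ((z i : ℚ) : L)) G =
      ((MvPolynomial.eval z G : ℚ) : L) := by
    have h4 := MvPolynomial.aeval_algebraMap_apply (A := ℚ) L z G
    simp only [eq_ratCast] at h4
    rw [MvPolynomial.aeval_eq_eval] at h4
    exact h4
  rw [e2]
  exact_mod_cast hGz

end Pool.Agent.R338.Tw
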